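import Pool.Agent.P.MP_26a8c3_nt.QB.Bas

/-! Amplification: from the moment bound to a power saving for one sum. -/

namespace Pool.Agent.P.MP_26a8c3_nt.QB

open QO QA Finset
open scoped Classical ComplexConjugate

namespace Amp

lemma six_inj {a b : O} (ha : Primary a) (hb : Primary b) (h : a ^ 6 = b ^ 6) : a = b :=
  ha.eq_of_associated hb ((Associated.pow_iff (n := 6) (by norm_num)).1 (h ▸ Associated.refl _))

lemma card_dvd (hb : Base) : ∃ C : ℝ, 0 < C ∧ ∀ (Y : ℝ) (d : O) (s : Finset O), 0 < Y → d ≠ 0 →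
    (∀ k ∈ s, k ≠ 0 ∧ d ∣ k ∧ (N k : ℝ) ≤ Y) → (s.card : ℝ) ≤ C * (Y / N d) := by
  obtain ⟨C, hC, h⟩ := hb.cnt
  refine ⟨C, hC, fun Y d s hY hd hs => ?_⟩
  have hN := N_pos_real hd
  have hi : Set.InjOn (fun k => quo k d) s := fun a ha b hb e => by
    rw [← mul_quo (hs a ha).2.1, ← mul_quo (hs b hb).2.1]
    exact congrArg (d * ·) e
  rw [← card_image_of_injOn hi]
  refine h _ _ (by positivity) fun m hm => ?_
  obtain ⟨k, hk, rfl⟩ := mem_image.1 hm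
  obtain ⟨h0, h1, h2⟩ := hs k hk
  have e := mul_quo h1
  refine ⟨fun e0 => h0 (by rw [← e, e0, mul_zero]), ?_⟩
  rw [le_div_iff₀ hN]
  rw [← e, map_mul, Nat.cast_mul] at h2
  linarith

lemma Nm_le {Z n : ℝ} (hZ : 1 ≤ Z) (hn : 1 ≤ n) :
    Nm Z (Z ^ (1 + aa)) (Z / n) ≤ 2 ^ 11 * Z ^ (1 + aa) * Z ^ (1 + ka) * n ^ (-(1 + ka)) := by
  have h0 : 0 < Z := by linarith
  have h1 : 0 < n := by linarith
  have ha := aa_pos
  have ha' := aa_lt
  have e1 : (Z / n) ^ (1 + aa) ≤ Z ^ (1 + aa) :=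
    Real.rpow_le_rpow (by positivity) (div_le_self h0.le hn) (by linarith)
  have e2 : Z ^ (1 + aa) / Z ^ 2 ≤ 1 := by
    rw [div_le_one (by positivity), ← Real.rpow_two]
    exact Real.rpow_le_rpow_of_exponent_le hZ (by linarith)
  have e3 : (Z / n) ^ (1 + ka) = Z ^ (1 + ka) * n ^ (-(1 + ka)) := by
    rw [Real.div_rpow h0.le h1.le, Real.rpow_neg h1.le, div_eq_mul_inv]
  unfold Nm
  calc _ ≤ (Z ^ (1 + aa) + Z ^ (1 + aa)) * (Z / n) ^ (1 + ka) * (1 + 1) ^ 10 := by gcongr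
    _ = _ := by rw [e3]; ring

end Amp

open Amp

theorem amp (hb : Base) (hr : S_Rx) {Q : O} (h : S_Boot Q) : S_Out Q := by
  intro ν hν
  obtain ⟨C, Z₀, hC, h⟩ := h
  obtain ⟨C₁, hC₁, h1⟩ := card_dvd hb
  obtain ⟨c, hc, h2⟩ := hb.cntP
  obtain ⟨C₂, hC₂, h3⟩ := norm_Wsum_le (σ := 2) one_lt_two
  have hk := ka_pos
  have ha := aa_pos
  have hs := summable_nr (σ := 1 + ka / 2) (by linarith)
  set S := ∑' d : O, nr d ^ (-(1 + ka / 2))
  have hS : 0 ≤ S := tsum_nonneg fun d => by have := nr_pos d; positivity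
  set K := √(C₁ * (Real.exp a0 * (C * 2 ^ 11))) with hK
  refine ⟨K * S / c + C₂ * (max Z₀ 1) ^ (2 : ℝ), fun Z hZ => ?_⟩
  have h0 : 0 < Z := by linarith
  have hθ : 1 ≤ Z ^ (1999 / 2000 : ℝ) := Real.one_le_rpow hZ (by norm_num)
  have hKS : 0 ≤ K * S / c := by positivity
  have hm : (0 : ℝ) < max Z₀ 1 := lt_max_of_lt_right one_pos
  rcases le_or_gt Z₀ Z with hz | hz
  swap
  · calc ‖A ν 1 1 Z 0‖ ≤ C₂ * Z ^ (2 : ℝ) := h3 _ Z 0 (bd1_uA hν 1 1).2 h0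
      _ ≤ C₂ * (max Z₀ 1) ^ (2 : ℝ) := by gcongr; exact hz.le.trans (le_max_left _ _)
      _ ≤ (K * S / c + C₂ * (max Z₀ 1) ^ (2 : ℝ)) * 1 := by linarith
      _ ≤ _ := by gcongr
  set Y := Z ^ ((1 + aa) / 6) with hY
  have hY1 : 1 ≤ Y := Real.one_le_rpow hZ (by linarith)
  have hY6 : Y ^ 6 = Z ^ (1 + aa) := by
    rw [hY, ← Real.rpow_natCast, ← Real.rpow_mul h0.le]; congr 1; push_cast; ring
  set T := (ball Y).filter Primary with hT
  have hT' : ∀ k ∈ T, Primary k ∧ (N k : ℝ) ≤ Y := fun k hk =>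
    ⟨(mem_filter.1 hk).2, mem_ball.1 (mem_filter.1 hk).1⟩
  have key : ∀ d ∈ T, ∑ k ∈ T.filter (d ∣ ·), ‖A ν 1 (k ^ 6) (Z / N d) 0‖ ≤
      K * Y * Z ^ (1999 / 2000 : ℝ) * nr d ^ (-(1 + ka / 2)) := by
    intro d hd
    have hd0 := (hT' d hd).1.ne_zero
    have hn := one_le_N hd0
    have hn0 := N_pos_real hd0
    rw [nr_eq hd0]
    refine (pow_le_pow_iff_left₀ (sum_nonneg fun _ _ => norm_nonneg _) (by positivity)
      two_ne_zero).1 (sq_sum_le_card_mul_sum_sq.trans ?_)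
    have a1 := h1 Y d (T.filter (d ∣ ·)) (by linarith) hd0 fun k hk =>
      ⟨(hT' k (mem_filter.1 hk).1).1.ne_zero, (mem_filter.1 hk).2, (hT' k (mem_filter.1 hk).1).2⟩
    have a2 := (h Z hz ν hν (Z ^ (1 + aa)) (Z / N d) 0 (by positivity) (by positivity)
      (div_le_self h0.le hn)).sharp (by positivity) ((T.filter (d ∣ ·)).image (· ^ 6)) fun m hm => by
        obtain ⟨k, hk, rfl⟩ := mem_image.1 hm
        rw [map_pow, Nat.cast_pow, ← hY6]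
        gcongr
        exact (hT' k (mem_filter.1 hk).1).2
    rw [sum_image fun a ha b hb e =>
      six_inj (hT' a (mem_filter.1 ha).1).1 (hT' b (mem_filter.1 hb).1).1 e] at a2
    have a3 := Nm_le hZ hn
    have a4 : Z ^ ka * Z ^ (1 + aa) * Z ^ (1 + ka) ≤ Y * (Z ^ (1999 / 2000 : ℝ)) ^ 2 := by
      rw [hY, ← Real.rpow_natCast, ← Real.rpow_mul h0.le, ← Real.rpow_add h0, ← Real.rpow_add h0,
        ← Real.rpow_add h0]
      exact Real.rpow_le_rpow_of_exponent_le hZ (by norm_num [aa, ka])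
    have a5 : ((N d : ℝ) ^ (-(1 + ka / 2))) ^ 2 = (N d : ℝ) ^ (-(1 + ka)) / N d := by
      rw [← Real.rpow_natCast, ← Real.rpow_mul hn0.le, ← Real.rpow_sub_one hn0.ne']
      congr 1; push_cast; ring
    have a6 : K ^ 2 = C₁ * (Real.exp a0 * (C * 2 ^ 11)) := Real.sq_sqrt (by positivity)
    calc _ ≤ C₁ * (Y / N d) * (Real.exp a0 * (C * Z ^ ka * (1 + |(0 : ℝ)|) ^ 16 *
          (2 ^ 11 * Z ^ (1 + aa) * Z ^ (1 + ka) * (N d : ℝ) ^ (-(1 + ka))))) := by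
          refine mul_le_mul a1 (a2.trans ?_) (sum_nonneg fun _ _ => by positivity) (by positivity)
          gcongr
      _ = K ^ 2 * Y * ((N d : ℝ) ^ (-(1 + ka)) / N d) * (Z ^ ka * Z ^ (1 + aa) * Z ^ (1 + ka)) := by
          rw [a6, abs_zero]; ring
      _ ≤ K ^ 2 * Y * ((N d : ℝ) ^ (-(1 + ka)) / N d) * (Y * (Z ^ (1999 / 2000 : ℝ)) ^ 2) := by
          gcongr
      _ = _ := by rw [← a5]; ring
  have main : c * Y * ‖A ν 1 1 Z 0‖ ≤ K * Y * Z ^ (1999 / 2000 : ℝ) * S :=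
    calc _ ≤ (T.card : ℝ) * ‖A ν 1 1 Z 0‖ := by gcongr; exact h2 Y hY1
      _ = ∑ _k ∈ T, ‖A ν 1 1 Z 0‖ := by rw [sum_const, nsmul_eq_mul]
      _ ≤ ∑ k ∈ T, ∑ d ∈ T.filter (· ∣ k), ‖A ν 1 (k ^ 6) (Z / N d) 0‖ := by
          refine sum_le_sum fun k hk => (hr.2.2 Q ν k Z 0 hν (hT' k hk).1 h0).trans ?_
          refine sum_le_sum_of_subset_of_nonneg (fun d hd => ?_) fun _ _ _ => norm_nonneg _
          have hk0 := (hT' k hk).1.ne_zero
          obtain ⟨b1, b2⟩ := (mem_pdiv hk0).1 hd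
          refine mem_filter.2 ⟨mem_filter.2 ⟨mem_ball.2 (le_trans ?_ (hT' k hk).2), b1⟩, b2⟩
          exact_mod_cast N_le_of_dvd b2 hk0
      _ = ∑ d ∈ T, ∑ k ∈ T.filter (d ∣ ·), ‖A ν 1 (k ^ 6) (Z / N d) 0‖ := by
          simp only [sum_filter]; exact sum_comm
      _ ≤ ∑ d ∈ T, K * Y * Z ^ (1999 / 2000 : ℝ) * nr d ^ (-(1 + ka / 2)) := sum_le_sum key
      _ ≤ _ := by
          rw [← mul_sum]
          have := hs.sum_le_tsum T fun d _ => by have := nr_pos d; positivity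
          gcongr
  have : ‖A ν 1 1 Z 0‖ ≤ K * S / c * Z ^ (1999 / 2000 : ℝ) := by
    rw [div_mul_eq_mul_div, le_div_iff₀ hc]
    refine le_of_mul_le_mul_left (a := Y) ?_ (by linarith)
    linarith
  refine this.trans ?_
  gcongr
  exact le_add_of_nonneg_right (by positivity)

end Pool.Agent.P.MP_26a8c3_nt.QB
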