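import Pool.Agent.P.MP_26a8c3_nt.QB.Bas

/-! The trivial bounds and the iteration of the bootstrap step. -/

namespace Pool.Agent.P.MP_26a8c3_nt.QB

open QO QA Finset Filter
open scoped Classical ComplexConjugate

namespace Boot

lemma one_le_fac {Z M : ℝ} (hM : 0 ≤ M) : 1 ≤ (1 + M / Z ^ 2) ^ 10 :=
  one_le_pow₀ (le_add_of_nonneg_right (by positivity))

lemma le_Nm {Z M X : ℝ} (hM : 0 ≤ M) (hX : 0 < X) : (M + X ^ (1 + aa)) * X ^ (1 + ka) ≤ Nm Z M X :=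
  le_mul_of_one_le_right (by positivity) (one_le_fac hM)

lemma small {M X : ℝ} (hM : 0 ≤ M) (hX : 0 < X) (h1 : X ≤ 1) :
    (1 + M) * X ^ 4 ≤ (M + X ^ (1 + aa)) * X ^ (1 + ka) := by
  have e : X ^ 4 = X ^ (4 : ℝ) := by exact_mod_cast (Real.rpow_natCast X 4).symm
  have a1 : X ^ 4 ≤ X ^ (1 + ka) := by
    rw [e]; exact Real.rpow_le_rpow_of_exponent_ge hX h1 (by linarith [ka_lt])
  have a2 : X ^ 4 ≤ X ^ (1 + aa) * X ^ (1 + ka) := by
    rw [e, ← Real.rpow_add hX]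
    exact Real.rpow_le_rpow_of_exponent_ge hX h1 (by linarith [ka_lt, aa_lt])
  nlinarith [mul_le_mul_of_nonneg_left a1 hM]

lemma large {Z M X : ℝ} (hM : 0 ≤ M) (h1 : 1 ≤ X) (hZ : X ≤ Z) :
    (1 + M) * X ^ 4 ≤ Z ^ 3 * ((M + X ^ (1 + aa)) * X ^ (1 + ka)) := by
  have a1 : X ≤ X ^ (1 + ka) := Real.self_le_rpow_of_one_le h1 (by linarith [ka_pos])
  have a2 : 1 ≤ X ^ (1 + aa) := Real.one_le_rpow h1 (by linarith [aa_pos])
  have a3 : X ^ 3 ≤ Z ^ 3 := by gcongr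
  have a4 : 0 ≤ Z := by linarith
  calc (1 + M) * X ^ 4 = X ^ 3 * ((M + 1) * X) := by ring
    _ ≤ _ := by gcongr

/-- one step inside the main range -/
lemma step {Q : O} (hQ : 36 ∣ Q) (h1 : S_I) (h2 : S_SB Q) {ε : ℝ} (hε : 0 < ε) :
    ∃ C : ℝ, 0 < C ∧ ∀ (ν : O → ℂ) (Z Bd E M X t : ℝ), IsNu Q ν → Hyp Q Z Bd → 1 ≤ Bd →
      Real.exp 6 ≤ E → 1 ≤ X → X ≤ Z → X ^ (1 + aa) ≤ M → M ≤ Z ^ 3 →
      ML (fun m => A ν 1 m X t) M
        (C * (Z ^ ε * Z ^ ε * (E ^ 1707 + E ^ (-(ka / 2)) * Bd)) * (1 + |t|) ^ 16 * Nm Z M X) := by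
  obtain ⟨C₁, hC₁, h1⟩ := h1 ε hε
  obtain ⟨C₂, hC₂, h2⟩ := h2 ε hε
  refine ⟨C₁ * (1 + 81 * C₂), by positivity, fun ν Z Bd E M X t hν hH hB hE hX hXZ hM hMZ => ?_⟩
  have hE1 : 1 ≤ E := (Real.one_le_exp (by norm_num)).trans hE
  have hE0 : 0 < E := by linarith
  have hX0 : 0 < X := by linarith
  have hZ1 : 1 ≤ Z := hX.trans hXZ
  have hM0 : 0 < M := lt_of_lt_of_le (by positivity) hM
  have hD : Real.exp 6 ≤ E ^ 110 := hE.trans (le_self_pow₀ hE1 (by norm_num))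
  have hs := h2 Z Bd X (3 * E) (E ^ 110) hH hB hX hXZ (by linarith) hD
  have hE2 : Real.exp 2 ≤ E := (Real.exp_le_exp.2 (by norm_num)).trans hE
  refine (h1 Q ν Z Bd E M X t _ hQ hν hH hB hE2 hX hXZ hM hMZ (by positivity) hs).mono hM0 le_rfl ?_
  have hu : 1 ≤ Z ^ ε := Real.one_le_rpow hZ1 hε.le
  have n1 : M * X ^ (1 + ka) ≤ Nm Z M X :=
    le_trans (mul_le_mul_of_nonneg_right (le_add_of_nonneg_right (by positivity)) (by positivity))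
      (le_Nm hM0.le hX0)
  have n2 : M * X ≤ Nm Z M X := le_trans (mul_le_mul_of_nonneg_left
    (Real.self_le_rpow_of_one_le hX (by linarith [ka_pos])) hM0.le) n1
  have e1 : (E ^ 110) ^ (-(1 / 2 : ℝ)) = (E ^ 55)⁻¹ := by
    rw [← Real.rpow_natCast E 110, ← Real.rpow_mul hE0.le, ← Real.rpow_natCast E 55,
      ← Real.rpow_neg hE0.le]
    norm_num
  have e2 : X ^ (2 + ka) = X * X ^ (1 + ka) := by
    rw [show 2 + ka = 1 + (1 + ka) by ring, Real.rpow_add hX0, Real.rpow_one]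
  have e3 : (E ^ 2)⁻¹ ≤ E ^ (-(ka / 2)) := by
    rw [← Real.rpow_natCast E 2, ← Real.rpow_neg hE0.le]
    exact Real.rpow_le_rpow_of_exponent_le hE1 (by push_cast; linarith [ka_lt])
  have e4 : E ^ 2 ≤ E ^ 1707 := pow_le_pow_right₀ hE1 (by norm_num)
  have e5 : E ^ 53 * (M / X) * (C₂ * Z ^ ε * ((3 * E) ^ 4 * (E ^ 110) ^ 15 * X ^ 2 +
      (E ^ 110) ^ (-(1 / 2 : ℝ)) * Bd * X ^ (2 + ka))) =
      C₂ * Z ^ ε * (81 * E ^ 1707 * (M * X) + (E ^ 2)⁻¹ * Bd * (M * X ^ (1 + ka))) := by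
    rw [e1, e2]; field_simp; ring
  rw [e5]
  have hN := (Nm_pos (Z := Z) hM0 hX0).le
  have hη : 0 ≤ E ^ (-(ka / 2)) := by positivity
  have hB0 : 0 ≤ Bd := by linarith
  generalize E ^ (-(ka / 2)) = η at *
  generalize Z ^ ε = u at *
  generalize Nm Z M X = n at *
  have hF : 0 ≤ E ^ 1707 := by positivity
  have k1 : (E ^ 2 + η * Bd) * n ≤ u * ((E ^ 1707 + η * Bd) * n) :=
    le_trans (by gcongr) (le_mul_of_one_le_left (by positivity) hu)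
  have k2 : 81 * E ^ 1707 * (M * X) + (E ^ 2)⁻¹ * Bd * (M * X ^ (1 + ka)) ≤
      81 * ((E ^ 1707 + η * Bd) * n) := by
    have : (E ^ 2)⁻¹ * Bd * (M * X ^ (1 + ka)) ≤ η * Bd * n := by gcongr
    have h3 : E ^ 1707 * (M * X) ≤ E ^ 1707 * n := by gcongr
    have h4 : 0 ≤ η * Bd * n := by positivity
    linarith
  generalize E ^ 1707 = F at *
  calc _ ≤ C₁ * u * (1 + |t|) ^ 16 *
        (u * ((F + η * Bd) * n) + C₂ * u * (81 * ((F + η * Bd) * n))) := by gcongr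
    _ = _ := by ring

lemma Nm_crit {Z M X : ℝ} (hM : 0 < M) (hX : 1 ≤ X) (hZ : X ≤ Z) :
    Nm Z (X ^ (1 + aa)) X ≤ 2 ^ 11 * Nm Z M X := by
  have hX0 : 0 < X := by linarith
  have h1 : X ^ (1 + aa) ≤ Z ^ 2 := by
    calc X ^ (1 + aa) ≤ X ^ ((2 : ℕ) : ℝ) :=
          Real.rpow_le_rpow_of_exponent_le hX (by push_cast; linarith [aa_lt])
      _ = X ^ 2 := Real.rpow_natCast X 2
      _ ≤ Z ^ 2 := by gcongr
  have h2 : X ^ (1 + aa) / Z ^ 2 ≤ 1 := div_le_one_of_le₀ h1 (by positivity)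
  have h3 := le_Nm (Z := Z) hM.le hX0
  calc Nm Z (X ^ (1 + aa)) X ≤ (X ^ (1 + aa) + X ^ (1 + aa)) * X ^ (1 + ka) * (1 + 1) ^ 10 := by
        unfold Nm; gcongr
    _ = 2 ^ 11 * ((0 + X ^ (1 + aa)) * X ^ (1 + ka)) := by ring
    _ ≤ 2 ^ 11 * Nm Z M X := by
        refine mul_le_mul_of_nonneg_left (le_trans ?_ h3) (by norm_num)
        gcongr

lemma Hyp.mono {Q : O} {Z b b' : ℝ} (h : Hyp Q Z b) (hb : b ≤ b') : Hyp Q Z b' :=
  fun ν hν M X t hM hX hZ => (h ν hν M X t hM hX hZ).mono hM le_rfl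
    (by have := Nm_pos (Z := Z) hM hX; gcongr)

end Boot

open Boot

theorem triv (hb : Base) : S_Triv := by
  obtain ⟨C₁, hC₁, h1⟩ := norm_Wsum_le one_lt_two
  obtain ⟨C₂, hC₂, h2⟩ := hb.gau
  refine ⟨1 + C₁ ^ 2 * C₂, le_add_of_nonneg_right (by positivity),
    fun Q ν Z M X t hν hZ hM hX hXZ => ?_⟩
  have key : ML (fun m => A ν 1 m X t) M ((1 + C₁ ^ 2 * C₂) * ((1 + M) * X ^ 4)) := fun s => by
    have a : ∀ m, ‖A ν 1 m X t‖ ≤ C₁ * X ^ 2 := fun m => by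
      simpa [A] using h1 _ X t (bd1_uA hν 1 m).2 hX
    calc ∑ m ∈ s, G (N m / M) * ‖A ν 1 m X t‖ ^ 2 ≤ ∑ m ∈ s, G (N m / M) * (C₁ * X ^ 2) ^ 2 :=
          sum_le_sum fun m _ => by have := G_pos (N m / M); have := a m; gcongr
      _ ≤ C₂ * (1 + M) * (C₁ * X ^ 2) ^ 2 := by rw [← sum_mul]; gcongr; exact h2 M s hM
      _ = (0 + C₁ ^ 2 * C₂) * ((1 + M) * X ^ 4) := by ring
      _ ≤ _ := by gcongr; norm_num
  have hN := le_Nm (Z := Z) hM.le hX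
  have hZ3 : 1 ≤ Z ^ 3 := one_le_pow₀ hZ
  have hp : 0 ≤ (M + X ^ (1 + aa)) * X ^ (1 + ka) := by positivity
  have all : (1 + M) * X ^ 4 ≤ Z ^ 3 * ((M + X ^ (1 + aa)) * X ^ (1 + ka)) := by
    rcases le_total X 1 with h | h
    · exact (small hM.le hX h).trans (le_mul_of_one_le_left hp hZ3)
    · exact large hM.le h hXZ
  refine ⟨key.mono hM le_rfl ?_, fun h => key.mono hM le_rfl ?_⟩
  · rw [mul_assoc _ (Z ^ 3)]
    exact mul_le_mul_of_nonneg_left (all.trans (by gcongr)) (by positivity)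
  · refine mul_le_mul_of_nonneg_left ?_ (by positivity)
    rcases h with h | h
    · exact (small hM.le hX h).trans hN
    · refine all.trans ?_
      rw [Nm, mul_comm]
      refine mul_le_mul_of_nonneg_left ?_ hp
      have : Z ≤ 1 + M / Z ^ 2 := by
        have : Z ≤ M / Z ^ 2 := by rw [le_div_iff₀ (by positivity)]; linarith
        linarith
      exact (pow_le_pow_right₀ hZ (by norm_num)).trans (pow_le_pow_left₀ (by linarith) this 10)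

theorem boot {Q : O} (hQ : 36 ∣ Q) (h1 : S_I) (h2 : S_SB Q) (h3 : S_Triv) : S_Boot Q := by
  have hk := ka_pos
  have hk1 := ka_lt
  set δ : ℝ := ka / 2000 with hδ
  have hδ0 : 0 < δ := by positivity
  obtain ⟨C, hC, hs⟩ := step hQ h1 h2 (ε := δ * ka / 8) (by positivity)
  obtain ⟨C₃, hC₃, h3⟩ := h3
  have t1 : ∀ᶠ Z : ℝ in atTop, Real.exp 6 ≤ Z ^ δ := (tendsto_rpow_atTop hδ0).eventually_ge_atTop _
  have t2 : ∀ᶠ Z : ℝ in atTop, 2 ^ 12 * C ≤ Z ^ (δ * ka / 4) :=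
    (tendsto_rpow_atTop (by positivity)).eventually_ge_atTop _
  obtain ⟨Z₀, hZ₀⟩ := eventually_atTop.1 ((t1.and t2).and (eventually_ge_atTop 1))
  refine ⟨3 * (2 ^ 11 * C + C₃), Z₀, by positivity, fun Z hZ => ?_⟩
  obtain ⟨⟨z1, z2⟩, z3⟩ := hZ₀ Z hZ
  have z0 : 0 < Z := by linarith
  have hu : 1 ≤ Z ^ ka := Real.one_le_rpow z3 hk.le
  set K : ℝ := (2 ^ 11 * C + C₃) * Z ^ ka with hK
  have hK1 : C₃ ≤ K := by rw [hK]; nlinarith [mul_nonneg hC.le (zero_le_one.trans hu)]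
  have hK0 : 0 < K := by linarith
  have e1 : Z ^ (δ * ka / 8) * Z ^ (δ * ka / 8) * (Z ^ δ) ^ 1707 ≤ Z ^ ka := by
    rw [← Real.rpow_natCast _ 1707, ← Real.rpow_mul z0.le, ← Real.rpow_add z0, ← Real.rpow_add z0]
    refine Real.rpow_le_rpow_of_exponent_le z3 ?_
    push_cast; rw [hδ]; nlinarith
  have e2 : 2 ^ 11 * C * (Z ^ (δ * ka / 8) * Z ^ (δ * ka / 8) * (Z ^ δ) ^ (-(ka / 2))) ≤ 1 / 2 := by
    rw [← Real.rpow_mul z0.le, ← Real.rpow_add z0, ← Real.rpow_add z0,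
      show δ * ka / 8 + δ * ka / 8 + δ * -(ka / 2) = -(δ * ka / 4) by ring, Real.rpow_neg z0.le,
      ← div_eq_mul_inv, div_le_iff₀ (by positivity)]
    linarith
  have hstep : ∀ b, 2 * K ≤ b → Hyp Q Z b → Hyp Q Z (K + b / 2) := by
    intro b hb hH ν hν M X t hM hX hXZ
    have hb1 : 1 ≤ b := by linarith
    have hN := (Nm_pos (Z := Z) hM hX).le
    have ht : 1 ≤ (1 + |t|) ^ 16 := one_le_pow₀ (le_add_of_nonneg_right (abs_nonneg t))
    by_cases hc : X ≤ 1 ∨ Z ^ 3 ≤ M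
    · refine ((h3 Q ν Z M X t hν z3 hM hX hXZ).2 hc).mono hM le_rfl ?_
      refine mul_le_mul_of_nonneg_right ?_ hN
      exact le_trans (by linarith) (le_mul_of_one_le_right (by linarith) ht)
    rw [not_or, not_le, not_le] at hc
    have c1 : 2 ^ 11 * (C * (Z ^ (δ * ka / 8) * Z ^ (δ * ka / 8) *
        ((Z ^ δ) ^ 1707 + (Z ^ δ) ^ (-(ka / 2)) * b))) ≤ K + b / 2 := by
      have a1 := mul_le_mul_of_nonneg_left e1 (show 0 ≤ 2 ^ 11 * C by positivity)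
      have a2 := mul_le_mul_of_nonneg_right e2 (show 0 ≤ b by linarith)
      have a3 : 0 ≤ C₃ * Z ^ ka := by positivity
      rw [hK]
      generalize (Z ^ δ) ^ 1707 = F at *
      linarith
    have c0 : 0 ≤ C * (Z ^ (δ * ka / 8) * Z ^ (δ * ka / 8) *
        ((Z ^ δ) ^ 1707 + (Z ^ δ) ^ (-(ka / 2)) * b)) := by positivity
    rcases le_total (X ^ (1 + aa)) M with hM1 | hM1
    · refine (hs ν Z b _ M X t hν hH hb1 z1 hc.1.le hXZ hM1 hc.2.le).mono hM le_rfl ?_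
      gcongr
      linarith
    · have hM2 : X ^ (1 + aa) ≤ Z ^ 3 := by
        calc X ^ (1 + aa) ≤ X ^ ((3 : ℕ) : ℝ) :=
              Real.rpow_le_rpow_of_exponent_le hc.1.le (by push_cast; linarith [aa_lt])
          _ = X ^ 3 := Real.rpow_natCast X 3
          _ ≤ Z ^ 3 := by gcongr
      refine (hs ν Z b _ _ X t hν hH hb1 z1 hc.1.le hXZ le_rfl hM2).mono hM hM1 ?_
      have := Nm_crit hM hc.1.le hXZ
      generalize C * (Z ^ (δ * ka / 8) * Z ^ (δ * ka / 8) *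
        ((Z ^ δ) ^ 1707 + (Z ^ δ) ^ (-(ka / 2)) * b)) = y at *
      calc y * (1 + |t|) ^ 16 * Nm Z (X ^ (1 + aa)) X
          ≤ y * (1 + |t|) ^ 16 * (2 ^ 11 * Nm Z M X) := by gcongr
        _ = 2 ^ 11 * y * (1 + |t|) ^ 16 * Nm Z M X := by ring
        _ ≤ _ := by gcongr
  have h0 : Hyp Q Z (2 * K + C₃ * Z ^ 3) := fun ν hν M X t hM hX hXZ => by
    have hN := (Nm_pos (Z := Z) hM hX).le
    have ht : 1 ≤ (1 + |t|) ^ 16 := one_le_pow₀ (le_add_of_nonneg_right (abs_nonneg t))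
    refine (h3 Q ν Z M X t hν z3 hM hX hXZ).1.mono hM le_rfl (mul_le_mul_of_nonneg_right ?_ hN)
    exact le_trans (by linarith) (le_mul_of_one_le_right (by positivity) ht)
  obtain ⟨n, hn⟩ := pow_unbounded_of_one_lt (C₃ * Z ^ 3 / K) (one_lt_two : (1 : ℝ) < 2)
  refine Hyp.mono (contract (by positivity) h0 hstep n) ?_
  have : C₃ * Z ^ 3 / 2 ^ n ≤ K := by
    rw [div_le_iff₀ (by positivity)]
    rw [div_lt_iff₀ hK0] at hn
    linarith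
  rw [mul_assoc, ← hK]
  linarith

end Pool.Agent.P.MP_26a8c3_nt.QB
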