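import Pool.Agent.P.MP_26a8c3_nt.QB.Bas

/-! Removal of a coprimality condition and the maximal inequality in the scale. -/

namespace Pool.Agent.P.MP_26a8c3_nt.QB

open QO QA Finset
open scoped Classical ComplexConjugate

namespace CopMax

/-- the moment bound with coprimality condition `r` and constant `b` -/
def PP (ν : O → ℂ) (s : Finset O) (wt : O → ℝ) (X₀ t : ℝ) (r : O) (b : ℝ) : Prop :=
  ∀ ξ : ℝ, 0 < ξ → ξ ≤ X₀ → ∑ m ∈ s, wt m * ‖A ν r m ξ t‖ ^ 2 ≤ b * ξ ^ (1 + ka)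

lemma start {Q : O} {ν : O → ℂ} (h : IsNu Q ν) {s : Finset O} {wt : O → ℝ}
    (hw : ∀ m ∈ s, 0 ≤ wt m) (X₀ t : ℝ) (r : O) {K : ℝ} (hK : 0 ≤ K) :
    ∃ T : ℝ, 0 ≤ T ∧ PP ν s wt X₀ t r (K + T) := by
  obtain ⟨C, hC, hb⟩ := norm_Wsum_le (σ := 2) one_lt_two
  have hS : 0 ≤ ∑ m ∈ s, wt m := sum_nonneg hw
  refine ⟨(∑ m ∈ s, wt m) * C ^ 2 * |X₀| ^ (3 - ka), by positivity, fun ξ h0 h1 => ?_⟩
  have h2 : ξ ^ (3 - ka) ≤ |X₀| ^ (3 - ka) :=
    Real.rpow_le_rpow h0.le (h1.trans (le_abs_self _)) (by linarith [ka_lt])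
  have h3 : (ξ ^ (2 : ℝ)) ^ 2 = ξ ^ (3 - ka) * ξ ^ (1 + ka) := by
    rw [← Real.rpow_add h0, ← Real.rpow_natCast, ← Real.rpow_mul h0.le]; norm_num
  have h4 : 0 < ξ ^ (1 + ka) := by positivity
  calc ∑ m ∈ s, wt m * ‖A ν r m ξ t‖ ^ 2 ≤ ∑ m ∈ s, wt m * (C * ξ ^ (2 : ℝ)) ^ 2 := by
        refine sum_le_sum fun m hm => mul_le_mul_of_nonneg_left ?_ (hw m hm)
        exact pow_le_pow_left₀ (norm_nonneg _) (hb _ ξ t (bd1_uA h r m).2 h0) 2
    _ = (∑ m ∈ s, wt m) * C ^ 2 * ξ ^ (3 - ka) * ξ ^ (1 + ka) := by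
        rw [← sum_mul, mul_pow, h3]; ring
    _ ≤ (∑ m ∈ s, wt m) * C ^ 2 * |X₀| ^ (3 - ka) * ξ ^ (1 + ka) := by gcongr
    _ ≤ _ := by gcongr; linarith

lemma step (hr : S_Rx) {Q : O} {ν : O → ℂ} (h : IsNu Q ν) {s : Finset O} {wt : O → ℝ}
    (hw : ∀ m ∈ s, 0 ≤ wt m) {X₀ t b g : ℝ} {p a : O} (hp : Prime p) (hp' : Primary p)
    (hpa : ¬ p ∣ a) (hg : 0 ≤ g) (ha : PP ν s wt X₀ t a b) (hq : PP ν s wt X₀ t (p * a) g) :
    PP ν s wt X₀ t (p * a) (2 * b + g / 2) := fun ξ h0 h1 => by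
  have h4 : (4 : ℝ) ≤ N p := by
    have e1 := two_le_N hp
    have e2 := hp'.N_mod
    exact_mod_cast (by omega : 4 ≤ N p)
  have h5 : 0 < ξ / N p := by positivity
  have h6 : ξ / N p ≤ X₀ := (div_le_self h0.le (by linarith)).trans h1
  have h7 : (ξ / N p) ^ (1 + ka) ≤ ξ ^ (1 + ka) / 4 := by
    rw [Real.div_rpow h0.le (by linarith)]
    refine div_le_div_of_nonneg_left (by positivity) (by norm_num) (h4.trans ?_)
    exact Real.self_le_rpow_of_one_le (by linarith) (by linarith [ka_pos])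
  have h8 := ha ξ h0 h1
  have h9 := (hq _ h5 h6).trans (mul_le_mul_of_nonneg_left h7 hg)
  have h10 : ∑ m ∈ s, wt m * ‖A ν (p * a) m ξ t‖ ^ 2 ≤
      ∑ m ∈ s, (2 * (wt m * ‖A ν a m ξ t‖ ^ 2) +
        2 * (wt m * ‖A ν (p * a) m (ξ / N p) t‖ ^ 2)) := by
    refine sum_le_sum fun m hm => ?_
    obtain ⟨z, hz, e⟩ := hr.2.1 Q ν p a m ξ t h hp hp' hpa h0
    have e1 : ‖A ν (p * a) m ξ t‖ ≤ ‖A ν a m ξ t‖ + ‖A ν (p * a) m (ξ / N p) t‖ := by
      rw [eq_sub_of_add_eq e.symm]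
      refine (norm_sub_le _ _).trans (add_le_add le_rfl ?_)
      rw [norm_mul]
      exact mul_le_of_le_one_left (norm_nonneg _) hz
    have e2 : ‖A ν (p * a) m ξ t‖ ^ 2 ≤
        2 * ‖A ν a m ξ t‖ ^ 2 + 2 * ‖A ν (p * a) m (ξ / N p) t‖ ^ 2 :=
      (pow_le_pow_left₀ (norm_nonneg _) e1 2).trans
        (by nlinarith [sq_nonneg (‖A ν a m ξ t‖ - ‖A ν (p * a) m (ξ / N p) t‖)])
    have := mul_le_mul_of_nonneg_left e2 (hw m hm)
    linarith
  rw [sum_add_distrib, ← mul_sum, ← mul_sum] at h10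
  linarith

lemma four (hr : S_Rx) {Q : O} {ν : O → ℂ} (h : IsNu Q ν) {s : Finset O} {wt : O → ℝ}
    (hw : ∀ m ∈ s, 0 ≤ wt m) {X₀ t b : ℝ} {p a : O} (hp : Prime p) (hp' : Primary p)
    (hpa : ¬ p ∣ a) (hb : 0 ≤ b) (ha : PP ν s wt X₀ t a b) :
    PP ν s wt X₀ t (p * a) (4 * b) := fun ξ h0 h1 => by
  obtain ⟨T, hT, hs⟩ := start h hw X₀ t (p * a) (K := 2 * (2 * b)) (by positivity)
  have h2 := contract (P := PP ν s wt X₀ t (p * a)) hT hs fun g hg hq =>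
    step hr h hw hp hp' hpa (by linarith) ha hq
  have h3 : Filter.Tendsto (fun n : ℕ => (2 * (2 * b) + T / 2 ^ n) * ξ ^ (1 + ka)) Filter.atTop
      (nhds ((2 * (2 * b) + 0) * ξ ^ (1 + ka))) :=
    ((tendsto_const_nhds.div_atTop (tendsto_pow_atTop_atTop_of_one_lt one_lt_two)).const_add
      _).mul_const _
  have h4 := ge_of_tendsto' h3 fun n => h2 n ξ h0 h1
  linarith

lemma block {s : Finset (O × O)} {wt ξ : O × O → ℝ} {u : O × O → O → ℂ} {X₀ t β Y : ℝ}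
    (hβ : 0 ≤ β) (hs : ∀ j ∈ s, 0 ≤ wt j ∧ 0 < ξ j ∧ ξ j ≤ X₀ ∧ Bd1 (u j))
    (hb : ∀ X' t' : ℝ, 0 < X' → X' ≤ Real.exp 2 * X₀ → |t' - t| ≤ 4 →
      ∑ j ∈ s, wt j * ‖Wsum (u j) X' t'‖ ^ 2 ≤ β * X' ^ (1 + ka))
    (hY : 0 < Y) (hY' : Y ≤ X₀) {T : Finset (O × O)} (hT : T ⊆ s)
    (hξ : ∀ j ∈ T, Y / 2 ≤ ξ j ∧ ξ j ≤ Y) :
    ∑ j ∈ T, wt j * (ξ j)⁻¹ * ‖Wsum (u j) (ξ j) t‖ ^ 2 ≤
      4 * Real.exp 8 * Real.exp 2 ^ (1 + ka) * β * Y ^ ka := by
  have h1 : ∑ j ∈ T, wt j * ‖Wsum (u j) (ξ j) t‖ ^ 2 ≤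
      2 * Real.exp 8 * (β * (Real.exp 2 * Y) ^ (1 + ka)) := by
    refine sup_W (X0 := Y) T (fun j hj => (hs j (hT hj)).1) nr_pos
      (fun j hj => summable_bd (hs j (hT hj)).2.2.2.2) (fun j hj => (hs j (hT hj)).2.1)
      (fun j hj => ?_) fun X' t' h0 h2 h3 => ?_
    · have e1 := Real.log_le_log (hs j (hT hj)).2.1 (hξ j hj).2
      have e2 := Real.log_le_log (by positivity) (hξ j hj).1
      rw [Real.log_div hY.ne' two_ne_zero] at e2
      rw [abs_le]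
      constructor <;> linarith [Real.log_two_lt_d9]
    · have e1 : X' ≤ Real.exp 2 * Y := by
        rw [← Real.log_le_log_iff h0 (by positivity),
          Real.log_mul (Real.exp_pos _).ne' hY.ne', Real.log_exp]
        linarith [(abs_le.1 h2).2]
      have e2 := hb X' t' h0 (e1.trans (by gcongr)) h3
      refine le_trans (sum_le_sum_of_subset_of_nonneg hT fun j hj _ =>
        mul_nonneg (hs j hj).1 (by positivity)) (e2.trans ?_)
      have := ka_pos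
      gcongr
  calc ∑ j ∈ T, wt j * (ξ j)⁻¹ * ‖Wsum (u j) (ξ j) t‖ ^ 2
      ≤ ∑ j ∈ T, 2 / Y * (wt j * ‖Wsum (u j) (ξ j) t‖ ^ 2) := by
        refine sum_le_sum fun j hj => ?_
        have e1 : (ξ j)⁻¹ ≤ 2 / Y := by
          rw [← inv_div]; exact inv_anti₀ (by positivity) (hξ j hj).1
        have e2 := (hs j (hT hj)).1
        rw [mul_comm (wt j), mul_assoc]
        gcongr
    _ ≤ 2 / Y * (2 * Real.exp 8 * (β * (Real.exp 2 * Y) ^ (1 + ka))) := by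
        rw [← mul_sum]; gcongr
    _ = _ := by
        rw [Real.mul_rpow (Real.exp_pos _).le hY.le, Real.rpow_add hY, Real.rpow_one]
        field_simp
        ring

end CopMax

open CopMax

theorem cop (hb : Base) (hr : S_Rx) : S_Cop := by
  intro Q ν s wt X₀ t β h hw hβ h1 r hr'
  refine primary_ind (P := fun r => SQ r → PP ν s wt X₀ t r (dv r ^ 2 * β)) (fun _ ξ h0 h2 => ?_)
    (fun p a hp hp' ha ih hq => ?_) hr'.1 hr'
  · refine (h1 ξ h0 h2).trans (mul_le_mul_of_nonneg_right ?_ (by positivity))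
    exact le_mul_of_one_le_left hβ (one_le_pow₀ (one_le_dv one_ne_zero))
  · have hpa : ¬ p ∣ a := hp.coprime_iff_not_dvd.1 hq.coprime
    have := four hr h hw hp hp' hpa (by positivity) (ih (hq.right hp'))
    rw [hb.dv_prime p a hp hp' ha hpa]
    convert this using 1
    ring

theorem max : S_Max := by
  set K : ℝ := 4 * Real.exp 8 * Real.exp 2 ^ (1 + ka) with hK
  set q : ℝ := (2 : ℝ) ^ (-ka) with hq
  have hK0 : 0 < K := by positivity
  have hq0 : 0 < q := by positivity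
  have hq1 : q < 1 := Real.rpow_lt_one_of_one_lt_of_neg one_lt_two (by linarith [ka_pos])
  have hq2 : 0 < 1 - q := by linarith
  refine ⟨K * (1 + (1 - q)⁻¹), by positivity, fun s wt ξ u X₀ t β hX hβ hs hb => ?_⟩
  have h := sum_dyadic_le s (fun j => X₀ / ξ j)
    (fun j => wt j * (ξ j)⁻¹ * ‖Wsum (u j) (ξ j) t‖ ^ 2) (V := 1) (b0 := K * β * X₀ ^ ka)
    (b := fun j => K * β * X₀ ^ ka * q ^ j) one_pos (fun T hT h0 => ?_) (fun n T hT h0 => ?_)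
    ((summable_geometric_of_lt_one hq0.le hq1).mul_left _)
  · rw [tsum_mul_left, tsum_geometric_of_lt_one hq0.le hq1] at h
    refine h.trans (le_of_eq ?_)
    ring
  · refine block hβ hs hb hX le_rfl hT fun j hj => ⟨?_, (hs j (hT hj)).2.2.1⟩
    have := (div_le_one (hs j (hT hj)).2.1).1 (h0 j hj)
    linarith
  · have hp : (0 : ℝ) < 2 ^ n := by positivity
    have h1 := block (Y := X₀ / 2 ^ n) hβ hs hb (by positivity)
      (div_le_self hX.le (one_le_pow₀ one_le_two)) hT fun j hj => ?_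
    · refine h1.trans (le_of_eq ?_)
      rw [Real.div_rpow hX.le hp.le, hq, ← Real.rpow_natCast, ← Real.rpow_natCast,
        ← Real.rpow_mul zero_le_two, ← Real.rpow_mul zero_le_two, neg_mul,
        Real.rpow_neg zero_le_two, mul_comm (n : ℝ) ka, hK]
      ring
    · have e0 := (hs j (hT hj)).2.1
      obtain ⟨e1, e2⟩ := h0 j hj
      rw [mul_one, lt_div_iff₀ e0] at e1
      rw [mul_one, div_le_iff₀ e0, pow_succ] at e2
      constructor
      · rw [div_div, div_le_iff₀ (by positivity)]; linarith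
      · rw [le_div_iff₀ hp]; linarith

end Pool.Agent.P.MP_26a8c3_nt.QB
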