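import Pool.Agent.P.MP_26a8c3_nt.QB.Bas

/-! Truncated removal of the cubes, pointwise. -/

namespace Pool.Agent.P.MP_26a8c3_nt.QB

open QO QA Finset
open scoped Classical ComplexConjugate

namespace Cube1

/-- the coefficient of a cube -/
noncomputable def cf (ν : O → ℂ) (h : O) (t : ℝ) (d : O) : ℂ :=
  (ab d : ℂ) * Phi ν h (d ^ 3) * (((N d : ℝ) ^ 3 : ℝ) : ℂ) ^ ((t : ℂ) * Complex.I)

/-- the term of a cube -/
noncomputable def tm (ν : O → ℂ) (h : O) (t X : ℝ) (d : O) : ℂ :=
  if Primary d then cf ν h t d * B ν h (X / (N d : ℝ) ^ 3) t else 0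

variable {Q : O} {ν : O → ℂ}

lemma Phi_mul (hν : IsNu Q ν) (h : O) {a b : O} (ha : a ≠ 0) (hb : b ≠ 0) :
    Phi ν h (a * b) = Phi ν h a * Phi ν h b := by
  simp only [Phi, ang_mul, hν.mul, psi_mul_left ha hb, map_mul]; ring

lemma cf_mul (hν : IsNu Q ν) (h : O) (t : ℝ) {a b : O} (ha : a ≠ 0) (hb : b ≠ 0) :
    cf ν h t (a * b) = cf ν h t a * cf ν h t b := by
  rw [cf, cf, cf, mul_pow, Phi_mul hν h (pow_ne_zero _ ha) (pow_ne_zero _ hb), ab_mul, map_mul,
    Nat.cast_mul, mul_pow, Complex.ofReal_mul (_ ^ 3),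
    Complex.mul_cpow_ofReal_nonneg (by positivity) (by positivity)]
  push_cast; ring

lemma norm_cf (hν : IsNu Q ν) (h : O) (t : ℝ) {d : O} (hd : d ≠ 0) : ‖cf ν h t d‖ ≤ ab d := by
  have := N_pos_real hd
  rw [cf, norm_mul, norm_cpow_I (by positivity), mul_one, norm_mul, Complex.norm_real,
    Real.norm_of_nonneg (ab_nonneg d)]
  exact mul_le_of_le_one_right (ab_nonneg d) (norm_Phi_le hν _ _)

lemma ab_le {d : O} (hd : d ≠ 0) : ab d ≤ N d := by
  have h1 := one_le_N hd
  have h2 := ab_sq d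
  have h3 := ab_nonneg d
  nlinarith

lemma pw (y : ℝ) : y ^ (-(2 : ℝ)) = (y ^ 2)⁻¹ := by
  rw [← Real.rpow_natCast y 2, Real.rpow_neg_eq_inv_rpow, Real.rpow_natCast, Real.rpow_ofNat,
    inv_pow]

lemma s2 : Summable fun c : O => (nr c ^ 2)⁻¹ := by simpa only [pw] using summable_nr one_lt_two

lemma bs_eq (hA : Alg) (hν : IsNu Q ν) (h : O) {X : ℝ} (hX : 0 < X) (t : ℝ) :
    Bs ν h X t = ∑' d, tm ν h t X d := by
  set f : O × O → ℂ := fun x => if SQ x.2 ∧ Primary x.1 then
    (ab x.1 : ℂ) * tau x.2 * Phi ν h (x.2 * x.1 ^ 3) * W X t (nr (x.2 * x.1 ^ 3)) else 0 with hf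
  have e : Bs ν h X t = ∑' x, f x := ((Equiv.prodComm O O).tsum_eq f)
  have hs : Summable f := by
    refine Summable.of_norm_bounded ((s2.mul_of_nonneg s2 (fun c => by positivity)
      fun c => by positivity).mul_left (Real.exp (2 ^ 2 / 4) * X ^ (2 : ℝ))) fun x => ?_
    simp only [hf]
    split_ifs with hx
    · have c0 := hx.1.ne_zero
      have d0 := hx.2.ne_zero
      have c1 := one_le_N c0
      have d1 := one_le_N d0
      have w := norm_W_le hX (nr_pos (x.2 * x.1 ^ 3)) t 2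
      rw [pw, nr_eq (mul_ne_zero c0 (pow_ne_zero _ d0)), map_mul, map_pow] at w
      rw [nr_eq (mul_ne_zero c0 (pow_ne_zero _ d0)), map_mul, map_pow, nr_eq c0, nr_eq d0, norm_mul,
        norm_mul, norm_mul, hA.r4.2.1 _ hx.1, Complex.norm_real, Real.norm_of_nonneg (ab_nonneg _)]
      have a := ab_le d0
      have p := norm_Phi_le hν h (x.2 * x.1 ^ 3)
      calc _ ≤ (N x.1 : ℝ) * 1 * 1 * (Real.exp (2 ^ 2 / 4) * X ^ (2 : ℝ) *
            (((N x.2 * N x.1 ^ 3 : ℕ) : ℝ) ^ 2)⁻¹) := by gcongr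
        _ = Real.exp (2 ^ 2 / 4) * X ^ (2 : ℝ) * (((N x.1 : ℝ) ^ 5)⁻¹ * ((N x.2 : ℝ) ^ 2)⁻¹) := by
            push_cast; field_simp
        _ ≤ _ := by gcongr; norm_num
    · simp only [norm_zero]; positivity
  rw [e, hs.tsum_prod]
  refine tsum_congr fun d => ?_
  unfold tm
  split_ifs with hd
  · rw [B, Wsum, ← tsum_mul_left]
    refine tsum_congr fun c => ?_
    simp only [hf, uB, hd, and_true]
    split_ifs with hc
    · have d0 := N_pos_real hd.ne_zero
      rw [mul_comm c, nr_mul (pow_ne_zero _ hd.ne_zero) hc.ne_zero, map_pow, Nat.cast_pow,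
        W_mul hX (by positivity) (nr_pos c), Phi_mul hν h (pow_ne_zero _ hd.ne_zero) hc.ne_zero, cf]
      ring
    · simp
  · simp [hf, hd]

lemma cf_bs (hA : Alg) (hν : IsNu Q ν) (h : O) {X : ℝ} (hX : 0 < X) (t : ℝ) {d : O}
    (hd : Primary d) : cf ν h t d * Bs ν h (X / (N d : ℝ) ^ 3) t =
      ∑' e, if d ∣ e then tm ν h t X e else 0 := by
  have d0 := N_pos_real hd.ne_zero
  rw [bs_eq hA hν h (by positivity), ← tsum_mul_left,
    ← (mul_right_injective₀ hd.ne_zero).tsum_eq (f := fun e => if d ∣ e then tm ν h t X e else 0)]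
  · refine tsum_congr fun e => ?_
    rw [if_pos (dvd_mul_right d e), tm, tm]
    by_cases he : Primary e
    · rw [if_pos he, if_pos (hd.mul he), cf_mul hν h t hd.ne_zero he.ne_zero, map_mul, Nat.cast_mul,
        mul_pow, div_div, mul_assoc]
    · rw [if_neg he, if_neg fun h' => he (h'.of_mul hd), mul_zero]
  · intro e he
    obtain ⟨c, rfl⟩ : d ∣ e := by_contra fun h' => he (if_neg h')
    exact ⟨c, rfl⟩

end Cube1

open Cube1

theorem cube1 (hA : Alg) (hb : Base) : S_Cube1 := by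
  intro Q ν h X t D hν hX hD
  obtain ⟨C, hC, h1⟩ := norm_Wsum_le one_lt_two
  obtain ⟨K, hK, h2⟩ := hb.dv_le
  set g : O → ℝ := fun d => if Primary d then dv d * ab d * ‖B ν h (X / (N d : ℝ) ^ 3) t‖ else 0
    with hg
  have g0 : ∀ d, 0 ≤ g d := fun d => by
    have := dv_nonneg d; have := ab_nonneg d
    simp only [hg]; split_ifs <;> positivity
  have sg : Summable g := by
    refine Summable.of_nonneg_of_le g0 (fun d => ?_) (s2.mul_left (K * C * X ^ 2))
    simp only [hg]
    split_ifs with hd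
    · have d0 := hd.ne_zero
      have d1 := one_le_N d0
      have a := ab_le d0
      have a0 := ab_nonneg d
      have b := h1 _ (X / (N d : ℝ) ^ 3) t (bd1_uB hA hν h).2 (by positivity)
      rw [Real.rpow_ofNat] at b
      rw [nr_eq d0]
      calc _ ≤ K * N d * N d * (C * (X / (N d : ℝ) ^ 3) ^ 2) := by gcongr; exacts [h2 d d0, b]
        _ = K * C * X ^ 2 * ((N d : ℝ) ^ 4)⁻¹ := by field_simp
        _ ≤ _ := by gcongr; norm_num
    · positivity
  have tg : ∀ (z : ℂ) (d : O), (Primary d → ‖z‖ ≤ dv d) → ‖z * tm ν h t X d‖ ≤ g d := by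
    intro z d hz
    simp only [hg, tm]
    split_ifs with hd
    · rw [norm_mul, norm_mul, mul_assoc]
      have := norm_cf hν h t hd.ne_zero
      have := hz hd
      have := dv_nonneg d
      gcongr
    · simp
  have sg' : Summable fun d : O => if Primary d ∧ D < (N d : ℝ) then
      dv d * ab d * ‖B ν h (X / (N d : ℝ) ^ 3) t‖ else 0 := by
    refine Summable.of_nonneg_of_le (fun d => ?_) (fun d => ?_) sg
    · have := dv_nonneg d; have := ab_nonneg d
      split_ifs <;> positivity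
    · split_ifs with hd
      · simp only [hg, hd.1, if_true, le_refl]
      · exact g0 d
  refine ⟨sg', ?_⟩
  set S := (ball D).filter Primary with hS
  set c : O → ℂ := fun e => ∑ d ∈ S.filter (· ∣ e), mu d with hc
  have hsub : ∀ e, Primary e → S.filter (· ∣ e) ⊆ pdiv e := fun e he d hd =>
    (mem_pdiv he.ne_zero).2 ⟨(mem_filter.1 (mem_filter.1 hd).1).2, (mem_filter.1 hd).2⟩
  have c1 : ∀ e, Primary e → ‖c e‖ ≤ dv e := fun e he => by
    refine (norm_sum_le_of_le _ fun d _ => norm_mu_le d).trans ?_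
    rw [sum_const, nsmul_eq_mul, mul_one, dv]
    exact_mod_cast card_le_card (hsub e he)
  have c2 : ∀ e, Primary e → (N e : ℝ) ≤ D → c e = if e = 1 then 1 else 0 := fun e he hN => by
    rw [← hb.mu_sum e he]
    refine sum_congr (Subset.antisymm (hsub e he) fun d hd => ?_) fun _ _ => rfl
    obtain ⟨a, b⟩ := (mem_pdiv he.ne_zero).1 hd
    refine mem_filter.2 ⟨mem_filter.2 ⟨mem_ball.2 (le_trans ?_ hN), a⟩, b⟩
    exact_mod_cast N_le_of_dvd b he.ne_zero
  have st : Summable (tm ν h t X) := Summable.of_norm_bounded sg fun d => by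
    simpa using tg 1 d fun hd => by simpa using one_le_dv hd.ne_zero
  have sc : Summable fun e => c e * tm ν h t X e :=
    Summable.of_norm_bounded sg fun d => tg _ d (c1 d)
  have key : ∑ d ∈ S, mu d * (cf ν h t d * Bs ν h (X / (N d : ℝ) ^ 3) t) =
      ∑' e, c e * tm ν h t X e := by
    rw [sum_congr rfl fun d hd => by
      rw [cf_bs hA hν h hX t (mem_filter.1 hd).2, ← tsum_mul_left], ← Summable.tsum_finsetSum]
    · refine tsum_congr fun e => ?_
      simp only [hc, sum_filter, sum_mul]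
      exact sum_congr rfl fun d _ => by split_ifs <;> simp
    · intro d _
      refine Summable.mul_left _ (Summable.of_norm_bounded st.norm fun e => ?_)
      split_ifs <;> simp
  have t1 : c 1 * tm ν h t X 1 = B ν h X t := by
    rw [c2 1 primary_one (by simpa using hD), if_pos rfl, tm, if_pos primary_one]
    simp [cf, Phi, hν.one]
  rw [sc.tsum_eq_add_tsum_ite 1, t1] at key
  rw [eq_sub_of_add_eq key.symm]
  refine (norm_sub_le _ _).trans (add_le_add (norm_sum_le_of_le _ fun d hd => ?_)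
    (tsum_of_norm_bounded sg'.hasSum fun e => ?_))
  · rw [norm_mul, norm_mul]
    have := norm_cf hν h t (mem_filter.1 hd).2.ne_zero
    refine (mul_le_of_le_one_left (by positivity) (norm_mu_le d)).trans (by gcongr)
  · have := dv_nonneg e
    have := ab_nonneg e
    by_cases he : Primary e ∧ D < (N e : ℝ)
    · rw [if_pos he]
      split_ifs
      · rw [norm_zero]; positivity
      · simpa only [hg, he.1, if_true] using tg _ e (c1 e)
    · rw [if_neg he]
      split_ifs with e1
      · simp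
      · by_cases hp : Primary e
        · rw [c2 e hp (not_lt.1 fun h' => he ⟨hp, h'⟩), if_neg e1]; simp
        · simp [tm, hp]

end Pool.Agent.P.MP_26a8c3_nt.QB
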