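import Pool.Agent.P.MP_26a8c3_nt.QB.Bas

/-! Truncated removal of the cubes: from the pointwise bound to moments. -/

namespace Pool.Agent.P.MP_26a8c3_nt.QB

open QO QA Finset
open scoped Classical ComplexConjugate

namespace Cube2

lemma ab_sq' (x : O) : ab x ^ 2 = N x := norm_toC_sq x

/-- Cauchy-Schwarz for an infinite sum inside a finite weighted sum -/
lemma cs (s : Finset O) (ω u : O → ℝ) (v : O → O → ℝ) {W₁ W₂ : ℝ} (hω : ∀ h ∈ s, 0 ≤ ω h)
    (hs : ∀ h ∈ s, Summable fun d => u d * v h d) (h1 : ∀ T : Finset O, ∑ d ∈ T, u d ^ 2 ≤ W₁)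
    (h2 : ∀ T : Finset O, ∑ d ∈ T, ∑ h ∈ s, ω h * v h d ^ 2 ≤ W₂) :
    ∑ h ∈ s, ω h * (∑' d, u d * v h d) ^ 2 ≤ W₁ * W₂ := by
  have hW : 0 ≤ W₁ := by simpa using h1 ∅
  have ht : Filter.Tendsto (fun T : Finset O => ∑ h ∈ s, ω h * (∑ d ∈ T, u d * v h d) ^ 2)
      Filter.atTop (nhds (∑ h ∈ s, ω h * (∑' d, u d * v h d) ^ 2)) :=
    tendsto_finsetSum _ fun h hh => (((hs h hh).hasSum).pow 2).const_mul _
  refine le_of_tendsto' ht fun T => ?_
  calc ∑ h ∈ s, ω h * (∑ d ∈ T, u d * v h d) ^ 2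
      ≤ ∑ h ∈ s, ω h * (W₁ * ∑ d ∈ T, v h d ^ 2) := by
        refine sum_le_sum fun h hh => mul_le_mul_of_nonneg_left ?_ (hω h hh)
        exact (sum_mul_sq_le_sq_mul_sq T u (v h)).trans
          (mul_le_mul_of_nonneg_right (h1 T) (sum_nonneg fun _ _ => sq_nonneg _))
    _ = W₁ * ∑ d ∈ T, ∑ h ∈ s, ω h * v h d ^ 2 := by
        rw [sum_comm, mul_sum]
        refine sum_congr rfl fun h _ => ?_
        rw [← mul_sum]; ring
    _ ≤ _ := mul_le_mul_of_nonneg_left (h2 T) hW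

lemma sum_pow {σ : ℝ} (h : 1 < σ) : ∃ C : ℝ, 0 < C ∧ ∀ T : Finset O, ∑ d ∈ T, (N d : ℝ) ^ (-σ) ≤ C := by
  have hs := summable_N' h
  have h0 : ∀ c : O, 0 ≤ (N c : ℝ) ^ (-σ) := fun c => by positivity
  have h1 : 0 ≤ ∑' c : O, (N c : ℝ) ^ (-σ) := tsum_nonneg h0
  exact ⟨1 + ∑' c : O, (N c : ℝ) ^ (-σ), by positivity,
    fun T => (hs.sum_le_tsum T fun c _ => h0 c).trans (by linarith)⟩

/-- the finite part -/
lemma fin (hb : Base) : ∃ C : ℝ, 0 < C ∧ ∀ (F : O → O → ℂ) (P D b : ℝ) (s : Finset O), 1 ≤ D →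
    0 ≤ b → 0 ∉ s → (∀ d, Primary d → (N d : ℝ) ≤ D → ML0 (fun h => F h d) P b) →
    ∑ h ∈ s, G (N h / P) * (∑ d ∈ (ball D).filter Primary, ab d * ‖F h d‖) ^ 2 ≤ C * D ^ 3 * b := by
  obtain ⟨C, hC, hc⟩ := hb.cnt
  refine ⟨C ^ 2, by positivity, fun F P D b s hD h0 hs H => ?_⟩
  have hD0 : 0 < D := by linarith
  set K := (ball D).filter Primary with hK
  have hm : ∀ d ∈ K, Primary d ∧ (N d : ℝ) ≤ D := fun d hd =>
    ⟨(mem_filter.1 hd).2, mem_ball.1 (mem_filter.1 hd).1⟩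
  have hcard : (K.card : ℝ) ≤ C * D := hc D K hD0 fun d hd => ⟨(hm d hd).1.ne_zero, (hm d hd).2⟩
  have h1 : ∑ d ∈ K, ab d ^ 2 ≤ C * D * D := by
    refine (sum_le_card_nsmul _ _ D fun d hd => by rw [ab_sq']; exact (hm d hd).2).trans ?_
    rw [nsmul_eq_mul]; gcongr
  calc ∑ h ∈ s, G (N h / P) * (∑ d ∈ K, ab d * ‖F h d‖) ^ 2
      ≤ ∑ h ∈ s, G (N h / P) * (C * D * D * ∑ d ∈ K, ‖F h d‖ ^ 2) := by
        refine sum_le_sum fun h _ => mul_le_mul_of_nonneg_left ?_ (G_pos _).le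
        exact (sum_mul_sq_le_sq_mul_sq K ab fun d => ‖F h d‖).trans
          (mul_le_mul_of_nonneg_right h1 (sum_nonneg fun _ _ => sq_nonneg _))
    _ = C * D * D * ∑ d ∈ K, ∑ h ∈ s, G (N h / P) * ‖F h d‖ ^ 2 := by
        rw [sum_comm, mul_sum]
        refine sum_congr rfl fun h _ => ?_
        rw [← mul_sum]; ring
    _ ≤ C * D * D * (C * D * b) := by
        refine mul_le_mul_of_nonneg_left ?_ (by positivity)
        refine (sum_le_card_nsmul _ _ b fun d hd => H d (hm d hd).1 (hm d hd).2 s hs).trans ?_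
        rw [nsmul_eq_mul]; gcongr
    _ = _ := by ring

/-- the infinite part -/
lemma inf (hb : Base) : ∃ C : ℝ, 0 < C ∧ ∀ (F : O → O → ℂ) (P D b : ℝ) (s : Finset O), 1 ≤ D →
    0 ≤ b → 0 ∉ s →
    (∀ h, Summable fun d : O => if Primary d ∧ D < (N d : ℝ) then dv d * ab d * ‖F h d‖ else 0) →
    (∀ d, Primary d → D < (N d : ℝ) →
      ML0 (fun h => F h d) P (b * (N d : ℝ) ^ (-(3 * (1 + aa))))) →
    ∑ h ∈ s, G (N h / P) *
      (∑' d : O, if Primary d ∧ D < (N d : ℝ) then dv d * ab d * ‖F h d‖ else 0) ^ 2 ≤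
        C * (D ^ (-(1 / 2 : ℝ)) * b) := by
  obtain ⟨C₀, hC₀, hd⟩ := hb.dvb (1 / 100) (by norm_num)
  obtain ⟨C₁, hC₁, h₁⟩ := sum_pow (σ := 21 / 20) (by norm_num)
  obtain ⟨C₂, hC₂, h₂⟩ := sum_pow (σ := 409 / 400) (by norm_num)
  refine ⟨C₁ * (C₀ ^ 2 * C₂), by positivity, fun F P D b s hD h0 hs hsum H => ?_⟩
  have hD0 : 0 < D := by linarith
  set u : O → ℝ := fun d => if Primary d ∧ D < (N d : ℝ) then (N d : ℝ) ^ (-(31 / 40 : ℝ)) else 0
    with hu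
  set v : O → O → ℝ := fun h d => if Primary d ∧ D < (N d : ℝ) then
    dv d * ab d * ‖F h d‖ * (N d : ℝ) ^ (31 / 40 : ℝ) else 0 with hv
  have e : ∀ h, (fun d : O => if Primary d ∧ D < (N d : ℝ) then dv d * ab d * ‖F h d‖ else 0) =
      fun d => u d * v h d := by
    intro h
    funext d
    simp only [hu, hv]
    split_ifs with hp
    · have : (0 : ℝ) < N d := hD0.trans hp.2
      rw [mul_left_comm, ← Real.rpow_add this]; simp
    · simp
  have key := cs s (fun h => G (N h / P)) u v (W₁ := D ^ (-(1 / 2 : ℝ)) * C₁)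
    (W₂ := C₀ ^ 2 * b * C₂) (fun h _ => (G_pos _).le) (fun h _ => e h ▸ hsum h) (fun T => ?_)
    fun T => ?_
  · simp only [e]
    exact key.trans (le_of_eq (by ring))
  · refine le_trans ?_ (mul_le_mul_of_nonneg_left (h₁ T) (by positivity))
    rw [mul_sum]
    refine sum_le_sum fun d _ => ?_
    simp only [hu]
    split_ifs with hp
    · have hN : (0 : ℝ) < N d := hD0.trans hp.2
      rw [← Real.rpow_natCast, ← Real.rpow_mul hN.le,
        show -(31 / 40 : ℝ) * (2 : ℕ) = -(1 / 2) + -(21 / 20) by norm_num, Real.rpow_add hN]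
      exact mul_le_mul_of_nonneg_right
        (Real.rpow_le_rpow_of_nonpos hD0 hp.2.le (by norm_num)) (by positivity)
    · rw [zero_pow two_ne_zero]; positivity
  · refine le_trans ?_ (mul_le_mul_of_nonneg_left (h₂ T) (by positivity))
    rw [mul_sum]
    refine sum_le_sum fun d _ => ?_
    simp only [hv]
    split_ifs with hp
    · have hN : (0 : ℝ) < N d := hD0.trans hp.2
      have h3 := H d hp.1 hp.2 s hs
      have h4 : dv d ^ 2 ≤ (C₀ * (N d : ℝ) ^ (1 / 100 : ℝ)) ^ 2 :=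
        pow_le_pow_left₀ (dv_nonneg d) (hd d hp.1.ne_zero) 2
      calc ∑ h ∈ s, G (N h / P) * (dv d * ab d * ‖F h d‖ * (N d : ℝ) ^ (31 / 40 : ℝ)) ^ 2
          = dv d ^ 2 * (N d * ((N d : ℝ) ^ (31 / 40 : ℝ)) ^ 2) *
              ∑ h ∈ s, G (N h / P) * ‖F h d‖ ^ 2 := by
            rw [mul_sum, ← ab_sq']
            exact sum_congr rfl fun h _ => by ring
        _ ≤ (C₀ * (N d : ℝ) ^ (1 / 100 : ℝ)) ^ 2 * (N d * ((N d : ℝ) ^ (31 / 40 : ℝ)) ^ 2) *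
              (b * (N d : ℝ) ^ (-(3 * (1 + aa)))) := by
            refine mul_le_mul (by gcongr) h3
              (sum_nonneg fun h _ => mul_nonneg (G_pos _).le (sq_nonneg _)) (by positivity)
        _ = C₀ ^ 2 * b * (N d : ℝ) ^ (-(409 / 400 : ℝ)) := by
            rw [show -(409 / 400 : ℝ) = 1 / 100 + 1 / 100 + (1 + (31 / 40 + 31 / 40)) +
              -(3 * (1 + aa)) by norm_num [aa]]
            simp only [Real.rpow_add hN, Real.rpow_one]
            ring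
    · simp only [zero_pow two_ne_zero, mul_zero, sum_const_zero]; positivity

end Cube2

theorem cube2 (hb : Base) (h : S_Cube1) : S_Cube2 := by
  obtain ⟨C₁, hC₁, h₁⟩ := Cube2.fin hb
  obtain ⟨C₂, hC₂, h₂⟩ := Cube2.inf hb
  refine ⟨2 * (C₁ + C₂), by positivity, fun Q ν P X t D b₁ b₂ hν hX hD hb₁ hb₂ H₁ H₂ s hs => ?_⟩
  have hD0 : 0 < D := by linarith
  have k₁ := h₁ (fun h d => Bs ν h (X / (N d : ℝ) ^ 3) t) P D b₁ s hD hb₁ hs H₁
  have k₂ := h₂ (fun h d => B ν h (X / (N d : ℝ) ^ 3) t) P D b₂ s hD hb₂ hs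
    (fun k => (h Q ν k X t D hν hX hD).1) H₂
  have p₁ : 0 ≤ D ^ 3 * b₁ := by positivity
  have p₂ : 0 ≤ D ^ (-(1 / 2 : ℝ)) * b₂ := by positivity
  refine le_trans (sum_le_sum (g := fun k => 2 * (G (N k / P) *
    (∑ d ∈ (ball D).filter Primary, ab d * ‖Bs ν k (X / (N d : ℝ) ^ 3) t‖) ^ 2) +
      2 * (G (N k / P) * (∑' d : O, if Primary d ∧ D < (N d : ℝ) then
        dv d * ab d * ‖B ν k (X / (N d : ℝ) ^ 3) t‖ else 0) ^ 2)) fun k _ => ?_) ?_
  · have h3 := pow_le_pow_left₀ (norm_nonneg _) (h Q ν k X t D hν hX hD).2 2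
    have h4 := mul_le_mul_of_nonneg_left (h3.trans add_sq_le) (G_pos (N k / P)).le
    exact h4.trans (le_of_eq (by ring))
  · rw [sum_add_distrib, ← mul_sum, ← mul_sum]
    nlinarith [mul_nonneg hC₁.le p₂, mul_nonneg hC₂.le p₁]

end Pool.Agent.P.MP_26a8c3_nt.QB
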