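import Pool.Agent.P.MP_26a8c3_nt.QB.Bas

/-! Separation of variables in the dual sum. -/

namespace Pool.Agent.P.MP_26a8c3_nt.QB

open QO QA Finset
open scoped Classical ComplexConjugate

namespace DL

/-- the normalised coefficient -/
noncomputable def ga (u : O → ℂ) (X t : ℝ) (c : O) : ℂ := u c * W X t (nr c) / (ab c : ℂ)

lemma DS_ga {u : O → ℂ} (hu : u 0 = 0) (X t σ v : ℝ) :
    DS (ga u X t) nr σ v = DS (fun c => u c * W X t (nr c)) nr (σ - 1 / 2) v := by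
  refine tsum_congr fun c => ?_
  rcases eq_or_ne c 0 with rfl | hc
  · simp [ga, hu]
  have h0 : ((nr c : ℝ) : ℂ) ≠ 0 := by exact_mod_cast (nr_pos c).ne'
  have e : ((σ - 1 / 2 : ℝ) : ℂ) + v * Complex.I = (σ + v * Complex.I) - ((1 / 2 : ℝ) : ℂ) := by
    push_cast; ring
  have e2 : ((nr c : ℝ) : ℂ) ^ ((1 / 2 : ℝ) : ℂ) = (ab c : ℂ) := by
    rw [← Complex.ofReal_cpow (nr_pos c).le, ab_eq, Real.sqrt_eq_rpow, nr_eq hc]
  simp only [ga]
  rw [e, Complex.cpow_sub _ _ h0, e2]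
  ring

lemma norm_DS_conj (g : O → ℂ) (σ v : ℝ) :
    ‖DS (fun c => conj (g c)) nr σ v‖ = ‖DS g nr σ (-v)‖ := by
  rw [← Complex.norm_conj (DS g nr σ (-v)), DS, DS, Complex.conj_tsum]
  congr 1
  refine tsum_congr fun c => ?_
  rw [map_mul, cpow_eq (nr_pos c), cpow_eq (nr_pos c), ← Complex.exp_conj]
  congr 2
  simp only [map_mul, map_add, Complex.conj_ofReal, Complex.conj_I]
  push_cast; ring

lemma DS_mul (a : ℂ) (g : O → ℂ) (σ v : ℝ) :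
    DS (fun c => a * g c) nr σ v = a * DS g nr σ v := by
  rw [DS, DS, ← tsum_mul_left]
  exact tsum_congr fun c => mul_assoc _ _ _

lemma summable_ga {u : O → ℂ} (hu : Bd1 u) {X : ℝ} (hX : 0 < X) (t σ : ℝ) :
    Summable fun c => ‖ga u X t c‖ * nr c ^ σ := by
  refine Summable.of_nonneg_of_le (fun c => by have := nr_pos c; positivity) (fun c => ?_)
    (summable_Wr hu.2 hX t σ)
  have := nr_pos c
  refine mul_le_mul_of_nonneg_right ?_ (by positivity)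
  rcases eq_or_ne c 0 with rfl | hc
  · simp [ga, hu.1]
  rw [ga, norm_div, Complex.norm_real, Real.norm_of_nonneg (ab_nonneg c)]
  refine div_le_self (norm_nonneg _) ?_
  rw [ab_eq]; exact Real.one_le_sqrt.2 (one_le_N hc)

lemma KD_eq (u : O → ℂ) (X t P n ω : ℝ) (hω : 0 ≤ ω) :
    ω * ‖KD u X t (P * n)‖ =
      ‖KS (fun c => (ω : ℂ) * ga u X t c) (fun c => conj (ga u X t c)) nr nr (a0 * P * n)‖ := by
  have : KS (fun c => (ω : ℂ) * ga u X t c) (fun c => conj (ga u X t c)) nr nr (a0 * P * n) =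
      (ω : ℂ) * KD u X t (P * n) := by
    rw [KS, KD, ← tsum_mul_left]
    refine tsum_congr fun x => ?_
    rw [G, show a0 * (P * n / (nr x.1 * nr x.2)) = a0 * P * n / (nr x.1 * nr x.2) by ring]
    simp only [ga]; ring
  rw [this, norm_mul, Complex.norm_real, Real.norm_of_nonneg hω]

lemma one_add_le (t v : ℝ) : 1 + |t + v| ≤ (1 + |t|) * (1 + |v|) := by
  have := abs_add_le t v
  nlinarith [abs_nonneg t, abs_nonneg v, mul_nonneg (abs_nonneg t) (abs_nonneg v)]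

lemma amgm {ω : ℝ} (h : 0 ≤ ω) (K x y : ℝ) :
    ω * (K * x) * (K * y) ≤ K ^ 2 * ((ω * x ^ 2 + ω * y ^ 2) / 2) := by
  nlinarith [mul_nonneg (mul_nonneg h (sq_nonneg K)) (sq_nonneg (x - y))]

/-- the estimate on one line -/
lemma line {s T : Finset (O × O)} {ω n : O × O → ℝ} {u : O × O → O → ℂ} {X t V b σ y : ℝ}
    (hX : 0 < X) (hV : 0 < V) (hb : 0 ≤ b) (hs : ∀ h ∈ s, 0 ≤ ω h ∧ 1 ≤ n h ∧ Bd1 (u h))
    (H : ∀ y X' t' : ℝ, V ≤ y → Real.exp (-1) * X ≤ X' → X' ≤ Real.exp 7 * X →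
      ∑ h ∈ s.filter (fun h => n h ≤ y), ω h * ‖Wsum (u h) X' t'‖ ^ 2 ≤
        b * (y / V) ^ 12 * (1 + |t'|) ^ 16)
    (h0 : 0 < σ) (h1 : σ ≤ 13) (hT : T ⊆ s) (hy : V ≤ y) (hn : ∀ h ∈ T, n h ≤ y) (v : ℝ) :
    ∑ h ∈ T, ‖DS (fun c => (ω h : ℂ) * ga (u h) X t c) nr σ v‖ *
        ‖DS (fun c => conj (ga (u h) X t c)) nr σ v‖ ≤
      (X ^ (σ - 1 / 2) * Real.exp ((σ - 1 / 2) ^ 2 / 4)) ^ 2 * (b * (y / V) ^ 12 * (1 + |t|) ^ 16) *
        (1 + |v|) ^ 16 := by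
  set K := X ^ (σ - 1 / 2) * Real.exp ((σ - 1 / 2) ^ 2 / 4) with hK
  set X' := X * Real.exp ((σ - 1 / 2) / 2) with hX'
  have a1 : Real.exp (-1) * X ≤ X' := by
    rw [hX', mul_comm]; gcongr; linarith
  have a2 : X' ≤ Real.exp 7 * X := by
    rw [hX', mul_comm]; gcongr; linarith
  have hy0 : 0 ≤ y / V := div_nonneg (hV.le.trans hy) hV.le
  have key : ∀ r : ℝ, |r| = |v| → ∑ h ∈ T, ω h * ‖Wsum (u h) X' (t + r)‖ ^ 2 ≤
      b * (y / V) ^ 12 * (1 + |t|) ^ 16 * (1 + |v|) ^ 16 := fun r hr => by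
    refine le_trans (sum_le_sum_of_subset_of_nonneg
      (fun h hh => mem_filter.2 ⟨hT hh, hn h hh⟩) fun h hh _ =>
        mul_nonneg (hs h (mem_filter.1 hh).1).1 (by positivity)) ((H y X' _ hy a1 a2).trans ?_)
    rw [mul_assoc (b * _), ← mul_pow, ← hr]
    have := one_add_le t r
    gcongr
  have k1 := key v rfl
  have k2 := key (-v) (abs_neg v)
  calc _ ≤ ∑ h ∈ T, K ^ 2 * ((ω h * ‖Wsum (u h) X' (t + v)‖ ^ 2 +
        ω h * ‖Wsum (u h) X' (t + -v)‖ ^ 2) / 2) := by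
        refine sum_le_sum fun h hh => ?_
        obtain ⟨c1, -, c2⟩ := hs h (hT hh)
        rw [DS_mul, norm_mul, Complex.norm_real, Real.norm_of_nonneg c1, norm_DS_conj,
          DS_ga c2.1, DS_ga c2.1, norm_DS_W _ nr_pos hX, norm_DS_W _ nr_pos hX]
        exact amgm c1 K _ _
    _ = K ^ 2 * ((∑ h ∈ T, ω h * ‖Wsum (u h) X' (t + v)‖ ^ 2 +
        ∑ h ∈ T, ω h * ‖Wsum (u h) X' (t + -v)‖ ^ 2) / 2) := by
        rw [← mul_sum, ← sum_div, sum_add_distrib]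
    _ ≤ _ := by
        rw [mul_assoc (K ^ 2)]
        exact mul_le_mul_of_nonneg_left (by linarith) (sq_nonneg K)

lemma sq_K {X : ℝ} (hX : 0 < X) (σ : ℝ) :
    (X ^ (σ - 1 / 2) * Real.exp ((σ - 1 / 2) ^ 2 / 4)) ^ 2 =
      (X ^ 2) ^ σ * X⁻¹ * Real.exp ((σ - 1 / 2) ^ 2 / 2) := by
  rw [mul_pow, ← Real.exp_nat_mul, ← Real.rpow_natCast, ← Real.rpow_mul hX.le,
    ← Real.rpow_natCast X 2, ← Real.rpow_mul hX.le, ← Real.rpow_neg_one, ← Real.rpow_add hX]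
  congr 2 <;> push_cast <;> ring

lemma scale {A B c σ : ℝ} (hA : 0 ≤ A) (hc : 0 < c) (hB : 0 ≤ B) (hσ : 0 ≤ σ) (h : A ≤ c * B) :
    c ^ (-σ) * A ^ σ ≤ B ^ σ := by
  rw [Real.rpow_neg hc.le, inv_mul_le_iff₀ (by positivity), ← Real.mul_rpow hc.le hB]
  exact Real.rpow_le_rpow hA h hσ

lemma geo (j : ℕ) {V : ℝ} (hV : 0 < V) (K L : ℝ) :
    ((2 : ℝ) ^ j) ^ (-(13 : ℝ)) * (K * (L * (2 ^ (j + 1) * V / V) ^ 12 * 1)) =
      K * L * 2 ^ 12 * (1 / 2) ^ j := by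
  have hp : (0 : ℝ) < 2 ^ j := by positivity
  rw [Real.rpow_neg hp.le, show (13 : ℝ) = ((13 : ℕ) : ℝ) by norm_num, Real.rpow_natCast,
    mul_div_assoc, div_self hV.ne', one_div, inv_pow]
  field_simp
  ring

end DL

open DL in
theorem dl : S_DL := by
  intro ε hε
  set η := min ε 1 with hη
  have h0 : 0 < η := lt_min hε one_pos
  have h1 : η ≤ 1 := min_le_right _ _
  have g1 := GK_nonneg η 16
  have g2 := GK_nonneg 13 16
  refine ⟨GK η 16 * Real.exp 1 + GK 13 16 * (Real.exp 79 * 2 ^ 13) + 1, by positivity,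
    fun s ω n u X t P V b hX hP hV hXV hb hs H => ?_⟩
  have ha := one_le_a0
  have hc : 0 < a0 * P := by positivity
  set L := b * (1 + |t|) ^ 16 with hL
  have hL0 : 0 ≤ L := by positivity
  set K := (X ^ ((13 : ℝ) - 1 / 2) * Real.exp (((13 : ℝ) - 1 / 2) ^ 2 / 4)) ^ 2 with hK
  have hg : HasSum (fun j : ℕ => ((2 : ℝ) ^ j) ^ (-(13 : ℝ)) *
      (K * (L * (2 ^ (j + 1) * V / V) ^ 12 * 1))) (K * L * 2 ^ 12 * 2) := by
    simp_rw [geo _ hV]
    exact hasSum_geometric_two.mul_left _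
  have sm : ∀ σ : ℝ, ∀ h ∈ s, Summable fun c => ‖(ω h : ℂ) * ga (u h) X t c‖ * nr c ^ σ :=
    fun σ h hh => by
      simpa only [norm_mul, mul_assoc] using
        (summable_ga (hs h hh).2.2 hX t σ).mul_left ‖(ω h : ℂ)‖
  have sc : ∀ σ : ℝ, ∀ h ∈ s, Summable fun c => ‖conj (ga (u h) X t c)‖ * nr c ^ σ :=
    fun σ h hh => by simpa only [Complex.norm_conj] using summable_ga (hs h hh).2.2 hX t σ
  have main := sep_dyadic (α := fun h c => (ω h : ℂ) * ga (u h) X t c)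
    (β := fun h c => conj (ga (u h) X t c)) (x := nr) (y := nr) nr_pos nr_pos (k := 16)
    (b0 := (X ^ (η - 1 / 2) * Real.exp ((η - 1 / 2) ^ 2 / 4)) ^ 2 * L)
    (b := fun j => K * (L * (2 ^ (j + 1) * V / V) ^ 12 * 1)) h0 (by norm_num : (0 : ℝ) < 13) hc hV s
    (fun h hh => (hs h hh).2.1) (sm η) (sc η) (sm 13) (sc 13)
    (fun T hT hn v => by
      have := line (t := t) hX hV hb hs H h0 (by linarith) hT le_rfl hn v
      rwa [div_self hV.ne', one_pow, mul_one] at this)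
    (fun j T hT hn v => by
      have hj : V ≤ 2 ^ (j + 1) * V := le_mul_of_one_le_left hV.le (one_le_pow₀ one_le_two)
      have := line (t := t) hX hV hb hs H (by norm_num : (0 : ℝ) < 13) le_rfl hT hj
        (fun h hh => (hn h hh).2) v
      refine this.trans (le_of_eq ?_)
      rw [hK, hL]; ring) hg.summable
  rw [hg.tsum_eq] at main
  rw [sum_congr rfl fun h hh => KD_eq (u h) X t P (n h) (ω h) (hs h hh).1]
  refine main.trans ?_
  have hPV : X ^ 2 ≤ a0 * P * V := hXV.trans (by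
    rw [mul_assoc]; exact le_mul_of_one_le_left (mul_pos hP hV).le ha)
  have s1 := scale (sq_nonneg X) hc hV.le h0.le hPV
  have s2 := scale (B := 1) (σ := 13) (sq_nonneg X) (mul_pos hc hV) zero_le_one (by norm_num)
    (by rwa [mul_one])
  rw [Real.one_rpow] at s2
  have v1 : (1 : ℝ) ≤ 1 + V := by linarith
  have s3 : V ^ η ≤ (1 + V) ^ ε := (Real.rpow_le_rpow hV.le (by linarith) h0.le).trans
    (Real.rpow_le_rpow_of_exponent_le v1 (min_le_left _ _))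
  have s4 : 1 ≤ (1 + V) ^ ε := Real.one_le_rpow v1 hε.le
  have e1 : Real.exp ((η - 1 / 2) ^ 2 / 2) ≤ Real.exp 1 := Real.exp_le_exp.2 (by
    have : (η - 1 / 2) ^ 2 ≤ 1 := by rw [sq_le_one_iff_abs_le_one, abs_le]; constructor <;> linarith
    linarith)
  have e2 : Real.exp (((13 : ℝ) - 1 / 2) ^ 2 / 2) ≤ Real.exp 79 := Real.exp_le_exp.2 (by norm_num)
  have hR : 0 ≤ (1 + V) ^ ε * X⁻¹ * L := by positivity
  have t1 : (a0 * P) ^ (-η) * ((X ^ (η - 1 / 2) * Real.exp ((η - 1 / 2) ^ 2 / 4)) ^ 2 * L) ≤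
      Real.exp 1 * ((1 + V) ^ ε * X⁻¹ * L) := by
    rw [sq_K hX]
    calc _ = Real.exp ((η - 1 / 2) ^ 2 / 2) * ((a0 * P) ^ (-η) * (X ^ 2) ^ η * X⁻¹ * L) := by ring
      _ ≤ _ := by have := s1.trans s3; gcongr
  have t2 : (a0 * P * V) ^ (-(13 : ℝ)) * (K * L * 2 ^ 12 * 2) ≤
      Real.exp 79 * 2 ^ 13 * ((1 + V) ^ ε * X⁻¹ * L) := by
    rw [hK, sq_K hX]
    calc _ = Real.exp (((13 : ℝ) - 1 / 2) ^ 2 / 2) * 2 ^ 13 *
          ((a0 * P * V) ^ (-(13 : ℝ)) * (X ^ 2) ^ (13 : ℝ) * X⁻¹ * L) := by ring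
      _ ≤ _ := by have := s2.trans s4; gcongr
  calc _ ≤ GK η 16 * (Real.exp 1 * ((1 + V) ^ ε * X⁻¹ * L)) +
        GK 13 16 * (Real.exp 79 * 2 ^ 13 * ((1 + V) ^ ε * X⁻¹ * L)) := by gcongr
    _ ≤ _ := (le_add_of_nonneg_right hR).trans (le_of_eq (by rw [hL]; ring))

end Pool.Agent.P.MP_26a8c3_nt.QB
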