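import Pool.Agent.P.MP_26a8c3_nt.QB.Bas

/-! The head of the first step: Poisson summation to the theta side. -/

namespace Pool.Agent.P.MP_26a8c3_nt.QB

open QO QA Finset
open scoped Classical ComplexConjugate

namespace Head

noncomputable section

/-- the coefficient after the common factor is removed -/
def uu (ν : O → ℂ) (e f : O) (t : ℝ) (c : O) : ℂ :=
  al ν (e * c) * chi c f * ((N e : ℝ) : ℂ) ^ ((t : ℂ) * Complex.I)

/-- the twisted character -/
def nk (ν : O → ℂ) (k c : O) : ℂ := ν c * xi k c * conj (chi c 2)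

/-- the coefficient on the theta side -/
def vv (ν : O → ℂ) (e f : O) (t : ℝ) (k h c : O) : ℂ :=
  mu e * ν e * ((N e : ℝ) : ℂ) ^ ((t : ℂ) * Complex.I) * uB (nk ν k) (h * (f ^ 4 * e ^ 6)) c

/-- the summand of `KD` -/
def kd (u : O → ℂ) (X t β : ℝ) (x : O × O) : ℂ :=
  u x.1 * W X t (nr x.1) / (ab x.1 : ℂ) * conj (u x.2 * W X t (nr x.2) / (ab x.2 : ℂ)) *
    (G (β / (nr x.1 * nr x.2)) : ℝ)

end

variable {Q e f : O} {ν : O → ℂ} {X t : ℝ}

lemma norm_uu (hν : IsNu Q ν) (he : e ≠ 0) (c : O) : ‖uu ν e f t c‖ ≤ 1 :=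
  norm_mul_le_one (norm_mul_le_one ((bd1_al hν).2 _) (norm_chi_le _ _))
    (norm_cpow_I (N_pos_real he) t).le

lemma uu_zero (hν : IsNu Q ν) : uu ν e f t 0 = 0 := by simp [uu, (bd1_al hν).1]

lemma sqo_uu (hQ : 36 ∣ Q) (hν : IsNu Q ν) (he : SQ e) {c : O} (h : uu ν e f t c ≠ 0) : SQO c := by
  have h1 := sqo_of_al hQ hν (left_ne_zero_of_mul (left_ne_zero_of_mul h))
  exact ⟨h1.1.right he.1, (od_mul.1 h1.2).2⟩

lemma sq_of_al {c : O} (h : al ν c ≠ 0) : SQ c := by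
  by_contra hc
  exact h (if_neg hc)

/-- the head term as a double sum over the quotients -/
lemma HH_eq (hA : Alg) (he : SQ e) (hf : f ∣ e) (hX : 0 < X) (m : O) :
    HH ν e (f ^ 2 * m) X t = ∑' x : O × O, uu ν e f t x.1 * W (X / N e) t (nr x.1) *
      conj (uu ν e f t x.2 * W (X / N e) t (nr x.2)) * KK x.1 x.2 m := by
  have he0 := he.ne_zero
  have hinj : Function.Injective fun x : O × O => ((e * x.1, e * x.2) : O × O) := fun x y h =>
    Prod.ext (mul_left_cancel₀ he0 (congrArg Prod.fst h))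
      (mul_left_cancel₀ he0 (congrArg Prod.snd h))
  rw [HH, ← hinj.tsum_eq]
  · refine tsum_congr fun x => ?_
    obtain ⟨a, c⟩ := x
    simp only [dvd_mul_right, and_self, if_true, quo_mul he0]
    by_cases h1 : al ν (e * a) = 0
    · simp [uu, h1]
    by_cases h2 : al ν (e * c) = 0
    · simp [uu, h2]
    have s1 := sq_of_al h1
    have s2 := sq_of_al h2
    have a1 := s1.right he.1
    have a2 := s2.right he.1
    rw [hA.k.2.2.2.1 a c f m a1 a2
      ((s1.coprime.mul_right s2.coprime).of_isCoprime_of_dvd_left hf),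
      nr_mul he0 a1.ne_zero, nr_mul he0 a2.ne_zero, W_mul hX (N_pos_real he0) (nr_pos _),
      W_mul hX (N_pos_real he0) (nr_pos _)]
    simp only [uu, map_mul]
    ring
  · intro x hx
    have h1 := right_ne_zero_of_mul hx
    by_cases h : e ∣ x.1 ∧ e ∣ x.2
    · obtain ⟨⟨a, ha⟩, c, hc⟩ := h
      exact ⟨(a, c), Prod.ext ha.symm hc.symm⟩
    · exact absurd (if_neg h) h1

/-- the coefficient after Poisson summation -/
lemma key (hν : IsNu Q ν) (he : SQ e) (k h a : O) :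
    uu ν e f t a * mu a * bb a * conj (psi a h) * xi k a = vv ν e f t k h a := by
  unfold uu vv uB al
  by_cases h1 : SQ (e * a)
  · have a1 := h1.right he.1
    have a0 := a1.ne_zero
    have e1 : psi a f ^ 4 = conj (chi a f) := by
      rw [conj_chi, ← psi_sq a0]; ring
    rw [if_pos h1, if_pos a1, mu_mul h1.coprime, hν.mul, Phi, nk, bb, psi_mul, psi_mul, psi_pow,
      psi_pow, psi_six a0, cop_of h1.coprime, e1]
    simp only [map_mul, map_one, Complex.conj_conj]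
    linear_combination (mu e * ν e * ν a * chi a f * ((N e : ℝ) : ℂ) ^ ((t : ℂ) * Complex.I) *
      conj (chi a 2) * ang a * tau a * conj (psi a h) * xi k a) * mu_sq a1.2
  · rw [if_neg h1]
    by_cases a1 : SQ a
    · have e1 : psi a e = 0 := (psi_eq_zero a1.ne_zero).2 fun hc => h1 (he.mul a1 hc)
      rw [if_pos a1, Phi, psi_mul, psi_mul, psi_pow a e, e1]
      simp
    · simp [if_neg a1]

lemma conj_xi (hA : Alg) {k : O} (hk : Od k) (c : O) : conj (xi k c) = xi k c := by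
  by_cases hc : Od c
  · rcases hA.gam.2.2.2.2.2.1 k c hk hc with h | h <;> simp [h]
  · have : xi k c = 0 := if_neg fun h => hc (od_mul.1 h).2
    simp [this]

lemma norm_bb (hA : Alg) {a : O} (ha : SQ a) : ‖bb a‖ ≤ 1 :=
  norm_mul_le_one (norm_mul_le_one (by rw [Complex.norm_conj]; exact norm_chi_le _ _)
    (norm_ang_le a)) (hA.r4.2.1 a ha).le

lemma norm_div_ab (z : ℂ) (c : O) : ‖z / (ab c : ℂ)‖ ≤ ‖z‖ := by
  by_cases hc : c = 0
  · simp [hc, ab]
  rw [norm_div, Complex.norm_real, Real.norm_of_nonneg (ab_nonneg c)]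
  refine div_le_self (norm_nonneg _) ?_
  rw [ab_eq]
  exact Real.one_le_sqrt.2 (one_le_N hc)

lemma norm_kd_le (u : O → ℂ) {β : ℝ} (hβ : 0 ≤ β) (x : O × O) :
    ‖kd u X t β x‖ ≤ ‖u x.1 * W X t (nr x.1)‖ * ‖u x.2 * W X t (nr x.2)‖ := by
  have h1 := nr_pos x.1
  have h2 := nr_pos x.2
  rw [kd, norm_mul, norm_mul, Complex.norm_conj, Complex.norm_real,
    Real.norm_of_nonneg (G_pos _).le]
  refine (mul_le_of_le_one_right (by positivity) (G_le_one (by positivity))).trans ?_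
  exact mul_le_mul (norm_div_ab _ _) (norm_div_ab _ _) (norm_nonneg _) (norm_nonneg _)

lemma summable_kd {u : O → ℂ} (hu : ∀ c, ‖u c‖ ≤ 1) (hX : 0 < X) {β : ℝ} (hβ : 0 ≤ β) :
    Summable (kd u X t β) :=
  Summable.of_norm_bounded ((summable_W1 hu hX t).mul_of_nonneg (summable_W1 hu hX t)
    (fun _ => norm_nonneg _) fun _ => norm_nonneg _) (norm_kd_le u hβ)

lemma norm_ze (hν : IsNu Q ν) (he : e ≠ 0) :
    ‖mu e * ν e * ((N e : ℝ) : ℂ) ^ ((t : ℂ) * Complex.I)‖ ≤ 1 :=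
  norm_mul_le_one (norm_mul_le_one (norm_mu_le e) (hν.le e)) (norm_cpow_I (N_pos_real he) t).le

lemma bd1_vv (hA : Alg) (hν : IsNu Q ν) (he : e ≠ 0) {k : O} (hk : IsNu Q (nk ν k)) (h : O) :
    Bd1 (vv ν e f t k h) :=
  ⟨by rw [vv, (bd1_uB hA hk _).1, mul_zero],
    fun c => norm_mul_le_one (norm_ze hν he) ((bd1_uB hA hk _).2 c)⟩

/-- the zero frequency -/
lemma norm_KD_zero (hA : Alg) (hν : IsNu Q ν) (he : e ≠ 0) {k : O} (hk : IsNu Q (nk ν k))
    {β : ℝ} (hβ : 0 ≤ β) : ‖KD (vv ν e f t k 0) X t β‖ ≤ 1 := by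
  have h0 : ∀ c, c ≠ 1 → vv ν e f t k 0 c = 0 := fun c hc => by
    unfold vv uB
    split_ifs with h
    · have : psi c 0 = 0 := (psi_eq_zero h.ne_zero).2 fun hc' =>
        hc (h.1.eq_one_of_isUnit (isCoprime_zero_left.1 hc'))
      simp [Phi, this]
    · simp
  have h1 : KD (vv ν e f t k 0) X t β = kd (vv ν e f t k 0) X t β (1, 1) := by
    refine tsum_eq_single (1, 1) fun x hx => ?_
    by_cases h : x.1 = 1
    · have : x.2 ≠ 1 := fun h' => hx (Prod.ext h h')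
      simp [h0 _ this]
    · simp [h0 _ h]
  have h2 : ‖vv ν e f t k 0 1 * W X t (nr 1)‖ ≤ 1 :=
    norm_mul_le_one ((bd1_vv hA hν he hk 0).2 1) (norm_W_le_one _ _ _)
  rw [h1]
  exact (norm_kd_le _ hβ _).trans (mul_le_one₀ h2 (norm_nonneg _) h2)

/-- the dual sum, class by class -/
lemma dual_eq (hA : Alg) (hQ : 36 ∣ Q) (hν : IsNu Q ν) (he : SQ e) {κ : O → ℂ}
    (hκ : ∀ a, Od a → gam a = ∑ k ∈ cls, κ k * xi k a) (X P : ℝ) (h : O) (x : O × O) :
    uu ν e f t x.1 * W X t (nr x.1) / (ab x.1 : ℂ) *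
      conj (uu ν e f t x.2 * W X t (nr x.2) / (ab x.2 : ℂ)) *
      (mu x.1 * mu x.2 * gam (x.1 * x.2) * bb x.1 * conj (bb x.2)) *
      (conj (psi x.1 h) * psi x.2 h) * (G (P * N h / (N x.1 * N x.2)) : ℝ) =
      ∑ k ∈ cls, κ k * kd (vv ν e f t k h) X t (P * N h) x := by
  obtain ⟨a, c⟩ := x
  simp only [kd, ← key hν he]
  by_cases h1 : uu ν e f t a = 0
  · simp [h1]
  by_cases h2 : uu ν e f t c = 0
  · simp [h2]
  have s1 := sqo_uu hQ hν he h1
  have s2 := sqo_uu hQ hν he h2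
  rw [hκ _ (od_mul.2 ⟨s1.2, s2.2⟩), nr_eq s1.1.ne_zero, nr_eq s2.1.ne_zero]
  simp only [mul_sum, sum_mul]
  refine sum_congr rfl fun k hk => ?_
  have hk' := hA.gam.2.2.2.2.2.2.2.1 k hk
  rw [(hA.gam.2.2.2.2.2.2.1 k hk').mul]
  simp only [map_mul, map_div₀, conj_xi hA hk', conj_mu, Complex.conj_conj]
  ring

/-- the moment bound for the dual coefficients -/
lemma moment (hν : IsNu Q ν) (he : SQ e) (hf : f ∈ pdiv e) {E b : ℝ} (hE : (N e : ℝ) ≤ E)
    (hX : 1 ≤ X) (hb : 0 ≤ b) (hS : SB Q X (3 * E) b) {k : O} (hk : IsNu Q (nk ν k))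
    (s : Finset O) (hs : 0 ∉ s) {y X' : ℝ} (t' : ℝ) (hy : X ^ (1 - aa) ≤ y)
    (h1 : Real.exp (-1) * (X / N e) ≤ X') (h2 : X' ≤ Real.exp 7 * (X / N e)) :
    ∑ h ∈ s.filter (fun h => (N h : ℝ) ≤ y), ‖Wsum (vv ν e f t k h) X' t'‖ ^ 2 ≤
      Real.exp a0 * b * E ^ 50 * (y / X ^ (1 - aa)) ^ 12 * (1 + |t'|) ^ 16 := by
  have he0 := he.ne_zero
  obtain ⟨hf1, hf2⟩ := (mem_pdiv he0).1 hf
  have e1 := one_le_N he0
  have hE1 : 1 ≤ E := e1.trans hE
  have hV : 0 < X ^ (1 - aa) := by positivity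
  set V := X ^ (1 - aa) with hVd
  have hyV : 1 ≤ y / V := (one_le_div hV).2 hy
  have hz : 1 ≤ y / V * E ^ 10 := one_le_mul_of_one_le_of_one_le hyV (one_le_pow₀ hE1)
  have t0 : f ^ 4 * e ^ 6 ≠ 0 := mul_ne_zero (pow_ne_zero _ hf1.ne_zero) (pow_ne_zero _ he0)
  have tN : (N (f ^ 4 * e ^ 6) : ℝ) ≤ E ^ 10 := by
    have : (N f : ℝ) ≤ E := le_trans (by exact_mod_cast N_le_of_dvd hf2 he0) hE
    rw [map_mul, map_pow, map_pow]
    push_cast
    calc (N f : ℝ) ^ 4 * (N e : ℝ) ^ 6 ≤ E ^ 4 * E ^ 6 := by gcongr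
      _ = E ^ 10 := by ring
  have l1 : X / (3 * E) ≤ X' := by
    refine le_trans ?_ h1
    have e3 : Real.exp 1 ≤ 3 := Real.exp_one_lt_three.le
    rw [Real.exp_neg, inv_mul_eq_div, div_div, mul_comm (N e : ℝ)]
    gcongr
  have l2 : X' ≤ Real.exp 7 * X :=
    h2.trans (mul_le_mul_of_nonneg_left (div_le_self (by linarith) e1) (Real.exp_pos _).le)
  have hm := (hS _ hk _ X' t' hz l1 l2).sharp (by positivity)
    ((s.filter fun h => (N h : ℝ) ≤ y).image (· * (f ^ 4 * e ^ 6))) (fun h0 => by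
      obtain ⟨h, hh, e0⟩ := mem_image.1 h0
      exact hs (((mul_eq_zero.1 e0).resolve_right t0) ▸ (mem_filter.1 hh).1)) fun m hm => by
      obtain ⟨h, hh, rfl⟩ := mem_image.1 hm
      rw [map_mul, Nat.cast_mul, ← hVd, mul_right_comm, div_mul_cancel₀ _ hV.ne']
      exact mul_le_mul (mem_filter.1 hh).2 tN (Nat.cast_nonneg _) (hV.le.trans hy)
  rw [sum_image fun a _ c _ h => mul_right_cancel₀ t0 h] at hm
  refine le_trans (sum_le_sum fun h _ => ?_) (hm.trans ?_)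
  · have : Wsum (vv ν e f t k h) X' t' = mu e * ν e * ((N e : ℝ) : ℂ) ^ ((t : ℂ) * Complex.I) *
        B (nk ν k) (h * (f ^ 4 * e ^ 6)) X' t' := by
      rw [B, Wsum, Wsum, ← tsum_mul_left]
      exact tsum_congr fun c => by rw [vv, mul_assoc]
    rw [this, norm_mul]
    exact pow_le_pow_left₀ (by positivity)
      (mul_le_of_le_one_left (norm_nonneg _) (norm_ze hν he0)) 2
  · have : (y / V) ^ 5 ≤ (y / V) ^ 12 := pow_le_pow_right₀ hyV (by norm_num)
    calc Real.exp a0 * (b * (y / V * E ^ 10) ^ 5 * (1 + |t'|) ^ 16)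
        = Real.exp a0 * b * E ^ 50 * (y / V) ^ 5 * (1 + |t'|) ^ 16 := by ring
      _ ≤ _ := by gcongr

end Head

open Head

theorem head (hA : Alg) (hb : Base) (hp : S_PT) (hd : S_DL) : S_Head := by
  intro ε hε
  obtain ⟨C, hC, hd⟩ := hd ε hε
  obtain ⟨κ, hκ1, hκ⟩ := hA.gam.2.2.2.2.2.2.2.2.2.2.2
  refine ⟨2 + 2 * (C * 2 ^ ε * Real.exp a0), by positivity, ?_⟩
  intro Q ν e f E M X t b hQ hν he hf hE hX hM hb0 hS
  have he0 := he.ne_zero
  obtain ⟨hf1, hf2⟩ := (mem_pdiv he0).1 hf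
  have e1 := one_le_N he0
  have f1 := one_le_N hf1.ne_zero
  have fe : (N f : ℝ) ≤ N e := by exact_mod_cast N_le_of_dvd hf2 he0
  have hX0 : 0 < X := by linarith
  have hM0 : 0 < M := lt_of_lt_of_le (by positivity) hM
  have hP : 0 < M / (N f : ℝ) ^ 2 := by positivity
  have hXe : 0 < X / N e := by positivity
  have hV : 0 < X ^ (1 - aa) := by positivity
  have hk : ∀ k ∈ cls, IsNu Q (nk ν k) := fun k hk => (hb.nu Q ν k hQ hν hk).1
  have hPV : (X / N e) ^ 2 ≤ M / (N f : ℝ) ^ 2 * X ^ (1 - aa) := by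
    have : X ^ 2 = X ^ (1 + aa) * X ^ (1 - aa) := by
      rw [← Real.rpow_add hX0, ← Real.rpow_two]; congr 1; ring
    rw [div_pow, this, div_mul_eq_mul_div]
    gcongr
  set P := M / (N f : ℝ) ^ 2 with hPd
  set T := E ^ 51 * X ^ (ε - 1) * b * (1 + |t|) ^ 16 with hT
  have hE0 : 0 < E := by linarith
  have hT0 : 0 ≤ T := mul_nonneg (mul_nonneg (mul_nonneg (pow_nonneg hE0.le _)
    (Real.rpow_nonneg hX0.le _)) hb0) (pow_nonneg (add_nonneg zero_le_one (abs_nonneg t)) _)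
  have c0 : 0 ≤ C * 2 ^ ε * Real.exp a0 := by positivity
  -- one class
  have one : ∀ k ∈ cls, ∀ s : Finset O, 0 ∉ s →
      ∑ h ∈ s, ‖KD (vv ν e f t k h) (X / N e) t (P * N h)‖ ≤ C * 2 ^ ε * Real.exp a0 * T := by
    intro k hk' s hs
    have h1 := hd (s.map ⟨fun h => (h, 0), fun _ _ h => congrArg Prod.fst h⟩) (fun _ => 1)
      (fun j => N j.1) (fun j => vv ν e f t k j.1) (X / N e) t P (X ^ (1 - aa))
      (Real.exp a0 * b * E ^ 50) hXe hP hV hPV (by positivity) (fun j hj => by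
        obtain ⟨h, hh, rfl⟩ := mem_map.1 hj
        exact ⟨zero_le_one, one_le_N fun e0 : h = 0 => hs (e0 ▸ hh),
          bd1_vv hA hν he0 (hk k hk') _⟩) fun y X' t' hy l1 l2 => by
        rw [filter_map, sum_map]
        simpa using moment (t := t) hν he hf hE hX hb0 hS (hk k hk') s hs t' hy l1 l2
    rw [sum_map] at h1
    simp only [Function.Embedding.coeFn_mk, one_mul] at h1
    refine h1.trans ?_
    have v1 : X ^ (1 - aa) ≤ X := by
      conv_rhs => rw [← Real.rpow_one X]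
      exact Real.rpow_le_rpow_of_exponent_le hX (by linarith [aa_pos])
    have v2 : (1 + X ^ (1 - aa)) ^ ε ≤ 2 ^ ε * X ^ ε := by
      rw [← Real.mul_rpow (by norm_num) hX0.le]
      exact Real.rpow_le_rpow (by positivity) (by linarith) hε.le
    have v3 : (X / N e)⁻¹ ≤ E * X⁻¹ := by
      rw [inv_div, div_eq_mul_inv]
      gcongr
    calc C * (1 + X ^ (1 - aa)) ^ ε * (X / N e)⁻¹ * (Real.exp a0 * b * E ^ 50) * (1 + |t|) ^ 16
        ≤ C * (2 ^ ε * X ^ ε) * (E * X⁻¹) * (Real.exp a0 * b * E ^ 50) * (1 + |t|) ^ 16 := by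
          gcongr
      _ = _ := by rw [hT, Real.rpow_sub_one hX0.ne']; ring
  set D : O → ℂ := fun h => ∑ k ∈ cls, κ k * KD (vv ν e f t k h) (X / N e) t (P * N h) with hD
  have hDn : ∀ h, ‖D h‖ ≤ ∑ k ∈ cls, ‖κ k‖ * ‖KD (vv ν e f t k h) (X / N e) t (P * N h)‖ :=
    fun h => norm_sum_le_of_le _ fun k _ => (norm_mul _ _).le
  have hsq : ∀ a, uu ν e f t a * W (X / N e) t (nr a) ≠ 0 → SQO a := fun a ha =>
    sqo_uu hQ hν he (left_ne_zero_of_mul ha)
  obtain ⟨r1, r2⟩ := hp (fun a => uu ν e f t a * W (X / N e) t (nr a)) KK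
    (fun a c h => conj (psi a h) * psi c h)
    (fun a c => mu a * mu c * gam (a * c) * bb a * conj (bb c)) P
    (2 * (C * 2 ^ ε * Real.exp a0 * T)) hP (by simp [uu_zero hν])
    (summable_Wn (norm_uu hν he0) hXe t 3)
    (fun a c m ha hc => by
      have s1 := hsq a ha
      have s2 := hsq c hc
      refine ⟨hA.k.2.2.2.2.1 a c m s1.1 s2.1, le_trans (norm_mul_le_one ?_ (norm_psi_le _ _))
        (one_le_N s1.1.ne_zero), norm_mul_le_one (norm_mul_le_one (norm_mul_le_one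
          (norm_mul_le_one (norm_mu_le _) (norm_mu_le _))
          (hA.gam.2.2.1 _ (od_mul.2 ⟨s1.2, s2.2⟩)).le) (norm_bb hA s1.1)) ?_⟩
      · rw [Complex.norm_conj]; exact norm_psi_le _ _
      · rw [Complex.norm_conj]; exact norm_bb hA s2.1)
    (fun a c ha hc => by
      have s1 := hsq a ha
      have s2 := hsq c hc
      have h1 := hA.p2 a c P s1 s2 hP
      have m1 := mu_sq s1.1.2
      have m2 := mu_sq s2.1.2
      generalize (∑' m : O, KK a c m * ((G (N m / P) : ℝ) : ℂ)) = S at h1 ⊢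
      linear_combination (mu a * mu c) * h1 - (mu c ^ 2 * S) * m1 - S * m2)
    D (fun h => by
      simp only [dual_eq hA hQ hν he hκ]
      rw [Summable.tsum_finsetSum fun k hk' => (summable_kd (bd1_vv hA hν he0 (hk k hk') h).2 hXe
        (by positivity)).mul_left _]
      exact sum_congr rfl fun k _ => tsum_mul_left.symm)
    (fun s hs => by
      refine (sum_le_sum fun h _ => hDn h).trans ?_
      rw [sum_comm]
      refine le_trans (sum_le_sum fun k hk' => ?_)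
        ((sum_mul _ _ _).symm.le.trans (mul_le_mul_of_nonneg_right hκ1 (mul_nonneg c0 hT0)))
      rw [← mul_sum]
      exact mul_le_mul_of_nonneg_left (one k hk' s hs) (norm_nonneg _))
  have d0 : ‖D 0‖ ≤ 2 := (hDn 0).trans (le_trans (sum_le_sum fun k hk' =>
    mul_le_of_le_one_right (norm_nonneg _)
      (norm_KD_zero hA hν he0 (hk k hk') (by positivity))) hκ1)
  simp only [HH_eq hA he hf2 hX0]
  refine ⟨r1, r2.trans ?_⟩
  generalize C * 2 ^ ε * Real.exp a0 = c at c0 ⊢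
  rw [mul_right_comm, mul_comm _ P]
  refine mul_le_mul_of_nonneg_left ?_ hP.le
  nlinarith [mul_nonneg c0 hT0]

end Pool.Agent.P.MP_26a8c3_nt.QB
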