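import Pool.Agent.P.MP_26a8c3_nt.QB.Bas

/-! Poisson summation from the theta side back to the Moebius side. -/

namespace Pool.Agent.P.MP_26a8c3_nt.QB

open QO QA Finset
open scoped Classical ComplexConjugate

namespace IIIa

/-- theta side coefficient without the symbol -/
noncomputable def vv (ν : O → ℂ) (c : O) : ℂ := if SQ c then tau c * ang c * ν c else 0

/-- the unimodular factor of the inverted Poisson identity -/
noncomputable def ph (a c : O) : ℂ := mu a * mu c * conj (gam (a * c)) * conj (bb a) * bb c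

/-- the coefficient of the dual double sum -/
noncomputable def FF (ν : O → ℂ) (X t P : ℝ) (m : O) (x : O × O) : ℂ :=
  al ν x.1 * W X t (nr x.1) / (ab x.1 : ℂ) * conj (al ν x.2 * W X t (nr x.2) / (ab x.2 : ℂ)) *
    (G (P * N m / (nr x.1 * nr x.2)) : ℝ)

variable {Q : O} {ν : O → ℂ}

lemma mul_conj_one {z : ℂ} (h : ‖z‖ = 1) : z * conj z = 1 := by
  rw [Complex.mul_conj, Complex.normSq_eq_norm_sq, h]; simp

lemma vv_le (hA : Alg) (h : IsNu Q ν) (c : O) : ‖vv ν c‖ ≤ 1 := by
  unfold vv; split_ifs with hc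
  · exact norm_mul_le_one (norm_mul_le_one (hA.r4.2.1 c hc).le (norm_ang_le c)) (h.le c)
  · simp

lemma sqo_of_vv (hQ : 36 ∣ Q) (h : IsNu Q ν) {c : O} (hc : vv ν c ≠ 0) : SQO c := by
  unfold vv at hc
  split_ifs at hc with h1
  · exact ⟨h1, od_of_nu hQ h (right_ne_zero_of_mul hc)⟩
  · exact absurd rfl hc

lemma norm_bb (hA : Alg) {a : O} (ha : SQO a) : ‖bb a‖ = 1 := by
  rw [bb, norm_mul, norm_mul, Complex.norm_conj, norm_chi ha.1.ne_zero ha.2.symm,
    norm_ang ha.1.ne_zero, hA.r4.2.1 a ha.1]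
  simp

lemma norm_ph (hA : Alg) {a c : O} (ha : SQO a) (hc : SQO c) : ‖ph a c‖ ≤ 1 :=
  norm_mul_le_one (norm_mul_le_one (norm_mul_le_one (norm_mul_le_one (norm_mu_le a) (norm_mu_le c))
    (by rw [Complex.norm_conj, hA.gam.2.2.1 _ (od_mul.2 ⟨ha.2, hc.2⟩)]))
    (by rw [Complex.norm_conj, norm_bb hA ha])) (norm_bb hA hc).le

lemma poi (hA : Alg) {a c : O} (ha : SQO a) (hc : SQO c) {P : ℝ} (hP : 0 < P) :
    ∑' m : O, conj (psi a m) * psi c m * (G (N m / P) : ℝ) =
      (P / (ab a * ab c) : ℝ) * ph a c * ∑' h : O, KK a c h * (G (P * N h / (N a * N c)) : ℝ) := by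
  have ha0 := N_pos_real ha.1.ne_zero
  have hc0 := N_pos_real hc.1.ne_zero
  have h := hA.p2 a c (N a * N c / P) ha hc (by positivity)
  have e1 : ∀ m : O, (N m : ℝ) / (N a * N c / P) = P * N m / (N a * N c) := fun m => by field_simp
  have e2 : ∀ m : O, (N a * N c / P : ℝ) * N m / (N a * N c) = N m / P := fun m => by field_simp
  simp only [e1, e2] at h
  have g1 := mul_conj_one (hA.gam.2.2.1 _ (od_mul.2 ⟨ha.2, hc.2⟩))
  have g2 := mul_conj_one (norm_bb hA ha)
  have g3 := mul_conj_one (norm_bb hA hc)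
  have g4 : ((P / (ab a * ab c) : ℝ) : ℂ) * ((N a * N c / P / (ab a * ab c) : ℝ) : ℂ) = 1 := by
    rw [← Complex.ofReal_mul, ← ab_sq, ← ab_sq]
    have := ab_pos ha.1.ne_zero
    have := ab_pos hc.1.ne_zero
    norm_cast
    field_simp
  rw [ph]
  set S := ∑' m : O, conj (psi a m) * psi c m * (G (N m / P) : ℝ)
  set x := ((P / (ab a * ab c) : ℝ) : ℂ)
  set y := ((N a * N c / P / (ab a * ab c) : ℝ) : ℂ)
  calc S = (x * y) * (gam (a * c) * conj (gam (a * c))) * (bb a * conj (bb a)) *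
        (bb c * conj (bb c)) * S := by rw [g1, g2, g3, g4]; ring
    _ = _ := by linear_combination (-(x * conj (gam (a * c)) * conj (bb a) * bb c)) * h

lemma conj_xi (hA : Alg) {k : O} (hk : Od k) {a : O} (ha : Od a) : conj (xi k a) = xi k a := by
  rcases hA.gam.2.2.2.2.2.1 k a hk ha with h | h <;> simp [h]

lemma vv_mul (hA : Alg) {a : O} (ha : SQO a) (k : O) :
    vv ν a * mu a * conj (bb a) * xi k a = al (fun c => ν c * xi k c * chi c 2) a := by
  have g1 := mul_conj_one (norm_ang ha.1.ne_zero)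
  have g2 := mul_conj_one (hA.r4.2.1 a ha.1)
  rw [vv, al, if_pos ha.1, if_pos ha.1, bb, map_mul, map_mul, Complex.conj_conj]
  calc _ = (ang a * conj (ang a)) * (tau a * conj (tau a)) * (mu a * (ν a * xi k a * chi a 2)) := by
        ring
    _ = _ := by rw [g1, g2]; ring

lemma FF_sq {X t P : ℝ} {m : O} {x : O × O} (h : FF ν X t P m x ≠ 0) : SQ x.1 ∧ SQ x.2 := by
  by_contra hc
  rcases not_and_or.1 hc with e | e <;> simp [FF, al, e] at h

lemma norm_div_ab (h : IsNu Q ν) (X t : ℝ) (c : O) :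
    ‖al ν c * W X t (nr c) / (ab c : ℂ)‖ ≤ ‖al ν c * W X t (nr c)‖ := by
  rcases eq_or_ne c 0 with rfl | hc
  · simp [(bd1_al h).1]
  · rw [norm_div, Complex.norm_real, Real.norm_of_nonneg (ab_nonneg c)]
    refine div_le_self (norm_nonneg _) ?_
    rw [ab_eq]; exact Real.one_le_sqrt.2 (one_le_N hc)

lemma summable_FF (h : IsNu Q ν) {X P : ℝ} (hX : 0 < X) (hP : 0 < P) (t : ℝ) (m : O) :
    Summable fun x : O × O => ‖FF ν X t P m x‖ * (N x.1 : ℝ) ^ 4 := by
  have h1 := (summable_Wn (bd1_al h).2 hX t 4).mul_of_nonneg (summable_W1 (bd1_al h).2 hX t)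
    (fun _ => by positivity) (fun _ => by positivity)
  refine Summable.of_nonneg_of_le (fun _ => by positivity) (fun x => ?_) h1
  have h2 := norm_div_ab h X t x.1
  have h3 := norm_div_ab h X t x.2
  have h4 : G (P * N m / (nr x.1 * nr x.2)) ≤ 1 :=
    G_le_one (by have := nr_pos x.1; have := nr_pos x.2; positivity)
  rw [FF, norm_mul, norm_mul, Complex.norm_conj, Complex.norm_real,
    Real.norm_of_nonneg (G_pos _).le]
  have h5 := (G_pos (P * N m / (nr x.1 * nr x.2))).le
  calc _ ≤ ‖al ν x.1 * W X t (nr x.1)‖ * ‖al ν x.2 * W X t (nr x.2)‖ * 1 * (N x.1 : ℝ) ^ 4 := by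
        gcongr
    _ = _ := by ring

lemma summable_FK (hA : Alg) (h : IsNu Q ν) {X P : ℝ} (hX : 0 < X) (hP : 0 < P) (t : ℝ) (m : O) :
    Summable fun x : O × O => FF ν X t P m x * KK x.1 x.2 m := by
  refine Summable.of_norm_bounded (summable_FF h hX hP t m) fun x => ?_
  by_cases e : FF ν X t P m x = 0
  · simp [e]
  obtain ⟨h1, h2⟩ := FF_sq e
  rw [norm_mul]
  refine mul_le_mul_of_nonneg_left ((hA.k.2.2.2.2.1 _ _ m h1 h2).trans ?_) (norm_nonneg _)
  exact le_self_pow₀ (one_le_N h1.ne_zero) (by norm_num)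

/-- the nonzero frequencies, for one class -/
lemma main (hA : Alg) (hb : Base) (hs : S_SW) (h : IsNu Q ν) {X P b : ℝ} (hX : 0 < X) (hP : 0 < P)
    (t : ℝ) (s : Finset O) (H : ∀ T : Finset O, (∀ e ∈ T, SQ e) → ∑ m ∈ s, ∑ e ∈ T,
      ‖jj e m‖ * ‖KD (fun c => al ν c * ps e c m) X t (P * N m)‖ ≤ b) :
    ∑ m ∈ s, ‖∑' x : O × O, FF ν X t P m x * KK x.1 x.2 m‖ ≤ b := by
  obtain ⟨C, hC, hd⟩ := hb.dv_le
  have := hs s (fun _ => 1) (FF ν X t P) (fun m e => mu e * jj e m) C b (fun _ _ => zero_le_one)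
    (fun m _ => summable_FF h hX hP t m) (fun m _ x => FF_sq) (fun m _ e he => ?_) fun T hT => ?_
  · refine le_trans (le_of_eq (sum_congr rfl fun m _ => ?_)) this
    rw [one_mul]
    congr 1
    refine tsum_congr fun x => ?_
    by_cases e : FF ν X t P m x = 0
    · simp [e]
    obtain ⟨h1, h2⟩ := FF_sq e
    rw [hA.k.2.1 _ _ m h1 h2, cd]
  · have h1 := one_le_N he.ne_zero
    rw [norm_mul]
    calc _ ≤ 1 * (dv e * N e) :=
          mul_le_mul (norm_mu_le e) (norm_jj_le' he.ne_zero m) (norm_nonneg _) zero_le_one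
      _ ≤ 1 * (C * N e * N e) := by gcongr; exact hd e he.ne_zero
      _ ≤ _ := by nlinarith [mul_pos hC (mul_pos (zero_lt_one.trans_le h1) (zero_lt_one.trans_le h1))]
  · refine le_trans (sum_le_sum fun m _ => sum_le_sum fun e _ => ?_) (H T hT)
    have e1 : ∑' x : O × O, FF ν X t P m x * (ps e x.1 m * conj (ps e x.2 m)) =
        KD (fun c => al ν c * ps e c m) X t (P * N m) := by
      refine tsum_congr fun x => ?_
      simp only [FF, map_mul, map_div₀]
      ring
    rw [e1, one_mul, norm_mul]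
    exact mul_le_mul_of_nonneg_right (mul_le_of_le_one_left (norm_nonneg _) (norm_mu_le e))
      (norm_nonneg _)

/-- the zero frequency, for one class -/
lemma zero (hA : Alg) (h : IsNu Q ν) {X P : ℝ} (hX : 0 < X) (t : ℝ) :
    ‖∑' x : O × O, FF ν X t P 0 x * KK x.1 x.2 0‖ ≤ ∑' c : O, ‖1 * W X t (nr c)‖ := by
  have h1 := (summable_W1 (u := fun _ => 1) (fun _ => by simp) hX t).hasSum
  have h2 : HasSum (fun x : O × O => if x.1 = x.2 then ‖1 * W X t (nr x.1)‖ else 0)
      (∑' c : O, ‖1 * W X t (nr c)‖) := by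
    refine (Function.Injective.hasSum_iff (g := fun c : O => (c, c))
      (fun a b e => congrArg Prod.fst e) fun x hx => if_neg fun e => hx ⟨x.1, Prod.ext rfl e⟩).1 ?_
    simpa [Function.comp_def] using h1
  refine tsum_of_norm_bounded h2 fun x => ?_
  by_cases e : FF ν X t P 0 x = 0
  · rw [e, zero_mul, norm_zero]; positivity
  obtain ⟨a, c⟩ := x
  obtain ⟨h3, h4⟩ := FF_sq e
  by_cases hac : a = c
  · subst hac
    have h5 := hA.k.2.2.2.2.1 a a 0 h3 h3
    have h6 := ab_pos h3.ne_zero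
    have h7 := (bd1_al h).2 a
    have h8 := norm_W_le_one X t (nr a)
    have h9 : G 0 = 1 := by simp [G]
    simp only [FF, if_true, one_mul, map_zero, Nat.cast_zero, mul_zero, zero_div, h9, norm_mul,
      Complex.norm_conj, norm_div, Complex.norm_real, Real.norm_of_nonneg h6.le, norm_one, mul_one]
    rw [← ab_sq] at h5
    calc _ ≤ 1 * ‖W X t (nr a)‖ / ab a * (1 * 1 / ab a) * ab a ^ 2 := by gcongr
      _ = _ := by field_simp
  · rw [hA.k.2.2.1 a c h3 h4, if_neg hac, if_neg hac]; simp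

end IIIa

open IIIa in
theorem iiia (hA : Alg) (hb : Base) (hp : S_PT) (hs : S_SW) : S_IIIa := by
  obtain ⟨C, hC, hW⟩ := sum_W_pow (σ := 1 + aa + ka) (ρ := 0) (by linarith [aa_pos, ka_pos])
  obtain ⟨κ, hκ, hg⟩ := hA.gam.2.2.2.2.2.2.2.2.2.2.2
  refine ⟨2 * (C + 1), by positivity, fun Q ν P X t b hQ hν hP hX H => ?_⟩
  have hb0 : 0 ≤ b := by simpa using H ν hν ∅ ∅ (by simp) (by simp)
  have hsq : ∀ a, vv ν a * W X t (nr a) ≠ 0 → SQO a := fun a ha =>
    sqo_of_vv hQ hν (left_ne_zero_of_mul ha)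
  have hk : ∀ k ∈ cls, IsNu Q fun c => ν c * xi k c * chi c 2 := fun k hk => (hb.nu Q ν k hQ hν hk).2
  have key := hp (fun c => vv ν c * W X t (nr c)) (fun a c m => conj (psi a m) * psi c m) KK ph P
    (2 * b) hP (by simp [vv, not_sq_zero]) (summable_Wn (vv_le hA hν) hX t 3)
    (fun a c m ha hc => ⟨(norm_mul_le_one (by rw [Complex.norm_conj]; exact norm_psi_le _ _)
      (norm_psi_le _ _)).trans (one_le_N (hsq a ha).1.ne_zero),
      hA.k.2.2.2.2.1 a c m (hsq a ha).1 (hsq c hc).1, norm_ph hA (hsq a ha) (hsq c hc)⟩)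
    (fun a c ha hc => poi hA (hsq a ha) (hsq c hc) hP)
    (fun m => ∑ k ∈ cls, conj (κ k) *
      ∑' x : O × O, FF (fun c => ν c * xi k c * chi c 2) X t P m x * KK x.1 x.2 m)
    (fun m => ?_) fun s h0 => ?_
  · obtain ⟨k1, k2⟩ := key
    have e : ∀ m : O, ((G (N m / P) : ℝ) : ℂ) * ∑' x : O × O, vv ν x.1 * W X t (nr x.1) *
        conj (vv ν x.2 * W X t (nr x.2)) * (conj (psi x.1 m) * psi x.2 m) =
        ((G (N m / P) * ‖B ν m X t‖ ^ 2 : ℝ) : ℂ) := fun m => by
      rw [Complex.ofReal_mul, B, Wsum, norm_sq_tsum (summable_W1 (bd1_uB hA hν m).2 hX t)]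
      congr 1
      refine tsum_congr fun x => ?_
      by_cases h1 : SQ x.1 <;> by_cases h2 : SQ x.2 <;> simp [vv, uB, Phi, h1, h2]
      ring
    simp only [e] at k1 k2
    rw [← Complex.ofReal_tsum, Complex.norm_real] at k2
    have k3 := Complex.summable_ofReal.1 k1
    intro s
    refine (k3.sum_le_tsum s fun m _ => mul_nonneg (G_pos _).le (by positivity)).trans
      ((le_abs_self _).trans (k2.trans ?_))
    have k4 : ∑' c : O, ‖1 * W X t (nr c)‖ ≤ C * X ^ (1 + aa + ka) :=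
      (summable_W1 (u := fun _ => 1) (fun _ => by simp) hX t).tsum_le_of_sum_le fun s => by
        simpa using hW X t s hX
    have k5 : 0 ≤ X ^ (1 + aa + ka) := by positivity
    have k6 : ‖∑ k ∈ cls, conj (κ k) * ∑' x : O × O,
        FF (fun c => ν c * xi k c * chi c 2) X t P 0 x * KK x.1 x.2 0‖ ≤
        2 * (C * X ^ (1 + aa + ka)) := by
      refine (norm_sum_le_of_le (n := fun k => ‖κ k‖ * (C * X ^ (1 + aa + ka))) _
        fun k h => ?_).trans ?_
      · rw [norm_mul, Complex.norm_conj]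
        exact mul_le_mul_of_nonneg_left ((zero hA (hk k h) hX t).trans k4) (norm_nonneg _)
      · rw [← sum_mul]; gcongr
    calc _ ≤ P * (2 * (C * X ^ (1 + aa + ka)) + 2 * b) := by gcongr
      _ ≤ _ := by nlinarith [mul_nonneg hP.le k5, mul_nonneg hP.le (mul_nonneg hC.le hb0)]
  · simp only [← tsum_mul_left]
    rw [← Summable.tsum_finsetSum fun k h => (summable_FK hA (hk k h) hX hP t m).mul_left _]
    refine tsum_congr fun x => ?_
    by_cases h1 : vv ν x.1 = 0
    · have : ∀ k, al (fun c => ν c * xi k c * chi c 2) x.1 = 0 := fun k => by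
        by_cases h : SQ x.1
        · have h2 := hA.r4.2.1 _ h
          have h3 := norm_ang h.ne_zero
          have : ν x.1 = 0 := by
            rw [vv, if_pos h] at h1
            rcases mul_eq_zero.1 h1 with h1 | h1
            · rcases mul_eq_zero.1 h1 with h1 | h1
              · simp [h1] at h2
              · simp [h1] at h3
            · exact h1
          simp [al, this]
        · simp [al, h]
      simp [FF, h1, this]
    by_cases h2 : vv ν x.2 = 0
    · have : ∀ k, al (fun c => ν c * xi k c * chi c 2) x.2 = 0 := fun k => by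
        by_cases h : SQ x.2
        · have h3 := hA.r4.2.1 _ h
          have h4 := norm_ang h.ne_zero
          have : ν x.2 = 0 := by
            rw [vv, if_pos h] at h2
            rcases mul_eq_zero.1 h2 with h2 | h2
            · rcases mul_eq_zero.1 h2 with h2 | h2
              · simp [h2] at h3
              · simp [h2] at h4
            · exact h2
          simp [al, this]
        · simp [al, h]
      simp [FF, h2, this]
    have s1 := sqo_of_vv hQ hν h1
    have s2 := sqo_of_vv hQ hν h2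
    rw [ph, hg _ (od_mul.2 ⟨s1.2, s2.2⟩), map_sum]
    simp only [mul_sum, sum_mul]
    refine sum_congr rfl fun k h => ?_
    have hko := hA.gam.2.2.2.2.2.2.2.1 k h
    rw [FF, ← vv_mul hA s1, ← vv_mul hA s2, (hA.gam.2.2.2.2.2.2.1 k hko).mul, nr_eq s1.1.ne_zero,
      nr_eq s2.1.ne_zero]
    simp only [map_mul, map_div₀, Complex.conj_conj, conj_mu, conj_xi hA hko s1.2,
      conj_xi hA hko s2.2]
    ring
  · calc _ ≤ ∑ m ∈ s, ∑ k ∈ cls, ‖κ k‖ * ‖∑' x : O × O,
          FF (fun c => ν c * xi k c * chi c 2) X t P m x * KK x.1 x.2 m‖ :=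
          sum_le_sum fun m _ => norm_sum_le_of_le _ fun k _ => by rw [norm_mul, Complex.norm_conj]
      _ ≤ ∑ k ∈ cls, ‖κ k‖ * b := by
          rw [sum_comm]
          refine sum_le_sum fun k h => ?_
          rw [← mul_sum]
          exact mul_le_mul_of_nonneg_left
            (main hA hb hs (hk k h) hX hP t s fun T hT => H _ (hk k h) s T h0 hT) (norm_nonneg _)
      _ ≤ _ := by rw [← sum_mul]; gcongr

end Pool.Agent.P.MP_26a8c3_nt.QB
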