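import Pool.Agent.P.MP_26a8c3_nt.QB.Bas

/-! The dual sums on the Moebius side. -/

namespace Pool.Agent.P.MP_26a8c3_nt.QB

open QO QA Finset
open scoped Classical ComplexConjugate

namespace IIIb

/-- the moment with divisor weights, over a sharp range -/
lemma mom {Q : O} {ν : O → ℂ} {Z Bd Cd η y X ξ t t' : ℝ} {s : Finset O} (hν : IsNu Q ν)
    (hH : Hyp Q Z Bd) (hBd : 0 ≤ Bd) (hCd : 0 < Cd) (hη : 0 < η)
    (hdv : ∀ c : O, c ≠ 0 → dv c ≤ Cd * (N c : ℝ) ^ η) (hy : 0 < y) (hξ : 0 < ξ)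
    (hξX : ξ ≤ X) (hXZ : X ≤ Z) (ht : |t' - t| ≤ 4) (hs : ∀ m ∈ s, m ≠ 0 ∧ (N m : ℝ) ≤ y) :
    ∑ m ∈ s, 1 * dv m ^ 2 * ‖A ν 1 m ξ t'‖ ^ 2 ≤
      (Cd * y ^ η) ^ 2 * (Real.exp a0 * (Bd * (5 * (1 + |t|)) ^ 16 *
        ((y + X ^ (1 + aa)) * (1 + y / Z ^ 2) ^ 10))) * ξ ^ (1 + ka) := by
  have h1 := (hH ν hν y ξ t' hy hξ (hξX.trans hXZ)).sharp hy s fun m hm => (hs m hm).2
  have h2 : 1 + |t'| ≤ 5 * (1 + |t|) := by
    have := abs_sub_abs_le_abs_sub t' t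
    have := abs_nonneg t
    linarith
  have h3 : ξ ^ (1 + aa) ≤ X ^ (1 + aa) :=
    Real.rpow_le_rpow hξ.le hξX (by linarith [aa_pos])
  calc ∑ m ∈ s, 1 * dv m ^ 2 * ‖A ν 1 m ξ t'‖ ^ 2
      ≤ ∑ m ∈ s, (Cd * y ^ η) ^ 2 * ‖A ν 1 m ξ t'‖ ^ 2 := by
        refine sum_le_sum fun m hm => ?_
        have h4 : dv m ≤ Cd * y ^ η := (hdv m (hs m hm).1).trans (by
          have := (hs m hm).2
          gcongr)
        have h5 := dv_nonneg m
        rw [one_mul]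
        gcongr
    _ ≤ (Cd * y ^ η) ^ 2 * (Real.exp a0 * (Bd * (1 + |t'|) ^ 16 * Nm Z y ξ)) := by
        rw [← mul_sum]
        gcongr
    _ ≤ (Cd * y ^ η) ^ 2 * (Real.exp a0 * (Bd * (5 * (1 + |t|)) ^ 16 *
        ((y + X ^ (1 + aa)) * ξ ^ (1 + ka) * (1 + y / Z ^ 2) ^ 10))) := by
        unfold Nm
        gcongr
    _ = _ := by ring

lemma exp_rpow {a p X : ℝ} (ha : 0 ≤ a) (hp : p ≤ 2) (hX : 0 < X) :
    (Real.exp a * X) ^ p ≤ Real.exp (2 * a) * X ^ p := by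
  rw [Real.mul_rpow (Real.exp_pos a).le hX.le, ← Real.exp_mul]
  exact mul_le_mul_of_nonneg_right (Real.exp_le_exp.2 (by nlinarith)) (by positivity)

/-- the real inequality -/
lemma num {Z V y X η ε : ℝ} (hZ : 1 ≤ Z) (hV : 0 < V) (hVZ : V ≤ Z ^ 2) (hy : V ≤ y) (hX : 0 < X)
    (hη : 0 < η) (hη1 : 2 * η ≤ 1) (hε : 4 * η ≤ ε) :
    (y ^ η) ^ 2 * ((y + (Real.exp 9 * X) ^ (1 + aa)) * (1 + y / Z ^ 2) ^ 10) ≤
      Real.exp 18 * 2 ^ 10 * Z ^ ε * (V + X ^ (1 + aa)) * (y / V) ^ 12 := by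
  have hy0 : 0 < y := hV.trans_le hy
  have hZ0 : 0 < Z := by linarith
  have hq : 1 ≤ y / V := (one_le_div hV).2 hy
  have hyq : y = y / V * V := by field_simp
  have h1 : (y ^ η) ^ 2 ≤ y / V * Z ^ ε := by
    calc (y ^ η) ^ 2 = (y / V * V) ^ (2 * η) := by
          rw [← hyq, mul_comm 2 η, Real.rpow_mul hy0.le, Real.rpow_two]
      _ = (y / V) ^ (2 * η) * V ^ (2 * η) := Real.mul_rpow (by positivity) hV.le
      _ ≤ y / V * Z ^ ε := by
          gcongr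
          · simpa using Real.rpow_le_rpow_of_exponent_le hq hη1
          · calc V ^ (2 * η) ≤ (Z ^ 2) ^ (2 * η) := by gcongr
              _ = Z ^ (4 * η) := by
                  rw [← Real.rpow_two, ← Real.rpow_mul hZ0.le]; congr 1; ring
              _ ≤ Z ^ ε := Real.rpow_le_rpow_of_exponent_le hZ hε
  have h2 : y + (Real.exp 9 * X) ^ (1 + aa) ≤ Real.exp 18 * (y / V * (V + X ^ (1 + aa))) := by
    have e1 := exp_rpow (a := 9) (p := 1 + aa) (by norm_num) (by linarith [aa_lt]) hX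
    rw [show (2 * 9 : ℝ) = 18 by norm_num] at e1
    have e2 : (1 : ℝ) ≤ Real.exp 18 := Real.one_le_exp (by norm_num)
    have e3 : 0 ≤ X ^ (1 + aa) := by positivity
    have e4 : X ^ (1 + aa) ≤ y / V * X ^ (1 + aa) := le_mul_of_one_le_left e3 hq
    have e5 : y ≤ Real.exp 18 * y := le_mul_of_one_le_left hy0.le e2
    rw [mul_add, ← hyq, mul_add]
    have e6 : Real.exp 18 * X ^ (1 + aa) ≤ Real.exp 18 * (y / V * X ^ (1 + aa)) := by gcongr
    linarith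
  have h3 : 1 + y / Z ^ 2 ≤ 2 * (y / V) := by
    have : y / Z ^ 2 ≤ y / V := by gcongr
    linarith
  calc (y ^ η) ^ 2 * ((y + (Real.exp 9 * X) ^ (1 + aa)) * (1 + y / Z ^ 2) ^ 10)
      ≤ y / V * Z ^ ε * (Real.exp 18 * (y / V * (V + X ^ (1 + aa))) * (2 * (y / V)) ^ 10) := by
        gcongr
    _ = _ := by ring

end IIIb

theorem iiib (hb : Base) (hr : S_Rx) (ht : S_Tail) (hd : S_DL) : S_IIIb := by
  intro ε hε
  obtain ⟨C₁, hC₁, hd⟩ := hd (ε / 4) (by linarith)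
  obtain ⟨Ct, hCt, ht⟩ := ht
  have hη : 0 < min (ε / 8) (1 / 2) := lt_min (by linarith) (by norm_num)
  have hη1 : 2 * min (ε / 8) (1 / 2) ≤ 1 := by linarith [min_le_right (ε / 8) (1 / 2)]
  have hη2 : 4 * min (ε / 8) (1 / 2) ≤ ε / 2 := by linarith [min_le_left (ε / 8) (1 / 2)]
  generalize min (ε / 8) (1 / 2) = η at hη hη1 hη2
  obtain ⟨Cd, hCd, hdv⟩ := hb.dvb η hη
  set K : ℝ := Ct * Cd ^ 2 * Real.exp a0 * 5 ^ 16 * (Real.exp 18 * 2 ^ 10) * Real.exp 14 with hK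
  have hK0 : 0 < K := by positivity
  refine ⟨C₁ * 2 ^ (ε / 4) * K, by positivity, ?_⟩
  intro Q ν Z Bd P X t s T hν hH hBd hZ hP hX hXZ h0 hT
  have hZ0 : 0 < Z := by linarith
  have hP0 : 0 < P := by linarith
  have hXZ' : X ≤ Z :=
    (le_mul_of_one_le_left hX.le (Real.one_le_exp (by norm_num))).trans hXZ
  have hV : 0 < X ^ 2 / P := by positivity
  have hVZ : X ^ 2 / P ≤ Z ^ 2 := (div_le_self (by positivity) hP).trans (by gcongr)
  have hPV : X ^ 2 ≤ P * (X ^ 2 / P) := le_of_eq (by field_simp)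
  generalize X ^ 2 / P = V at hV hVZ hPV
  have hs0 : ∀ m ∈ s, m ≠ 0 := fun m hm e => h0 (e ▸ hm)
  have key := hd (s ×ˢ T) (fun h => ‖jj h.2 h.1‖) (fun h => (N h.1 : ℝ))
    (fun h c => al ν c * ps h.2 c h.1) X t P V
    (K * Z ^ (ε / 2) * Bd * ((V + X ^ (1 + aa)) * X ^ (1 + ka))) hX hP0 hV hPV (by positivity)
    (fun h hh => ⟨norm_nonneg _, one_le_N (hs0 _ (mem_product.1 hh).1), bd1_alps hν _ _⟩) ?_
  · rw [sum_product] at key
    refine key.trans ?_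
    have e1 : (1 + V) ^ (ε / 4) ≤ 2 ^ (ε / 4) * Z ^ (ε / 2) := by
      have : 1 + V ≤ 2 * Z ^ 2 := by nlinarith
      calc (1 + V) ^ (ε / 4) ≤ (2 * Z ^ 2) ^ (ε / 4) := by gcongr
        _ = _ := by
          rw [Real.mul_rpow (by norm_num) (by positivity), ← Real.rpow_two, ← Real.rpow_mul hZ0.le]
          congr 2; ring
    have e2 : X ^ (1 + ka) = X * X ^ ka := by rw [Real.rpow_add hX, Real.rpow_one]
    have e3 : Z ^ ε = Z ^ (ε / 2) * Z ^ (ε / 2) := by rw [← Real.rpow_add hZ0]; congr 1; ring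
    calc C₁ * (1 + V) ^ (ε / 4) * X⁻¹ *
          (K * Z ^ (ε / 2) * Bd * ((V + X ^ (1 + aa)) * X ^ (1 + ka))) * (1 + |t|) ^ 16
        ≤ C₁ * (2 ^ (ε / 4) * Z ^ (ε / 2)) * X⁻¹ *
          (K * Z ^ (ε / 2) * Bd * ((V + X ^ (1 + aa)) * X ^ (1 + ka))) * (1 + |t|) ^ 16 := by
          gcongr
      _ = _ := by rw [e2, e3]; field_simp
  · intro y X' t' hy h1 h2
    have hy0 : 0 < y := hV.trans_le hy
    have hX' : 0 < X' := lt_of_lt_of_le (by positivity) h1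
    have hf : (s ×ˢ T).filter (fun h => (N h.1 : ℝ) ≤ y) =
        s.filter (fun m => (N m : ℝ) ≤ y) ×ˢ T := by
      ext h; simp only [mem_filter, mem_product]; tauto
    have h9 : Real.exp 2 * X' / 1 ≤ Real.exp 9 * X := by
      rw [div_one, show (9 : ℝ) = 2 + 7 by norm_num, Real.exp_add, mul_assoc]
      gcongr
    have k2 := ht Q ν (s.filter fun m => (N m : ℝ) ≤ y) T (fun _ => 1) X' t' 1
      ((Cd * y ^ η) ^ 2 * (Real.exp a0 * (Bd * (5 * (1 + |t'|)) ^ 16 *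
        ((y + (Real.exp 9 * X) ^ (1 + aa)) * (1 + y / Z ^ 2) ^ 10)))) hν hX' le_rfl
      (by positivity) (fun m hm => ⟨hs0 m (mem_filter.1 hm).1, zero_le_one⟩)
      (fun e he => ⟨hT e he, one_le_N (hT e he).ne_zero⟩)
      (fun ξ t'' hξ hξ' htt => IIIb.mom hν hH hBd hCd hη hdv hy0 hξ (hξ'.trans h9) hXZ htt
        fun m hm => ⟨hs0 m (mem_filter.1 hm).1, (mem_filter.1 hm).2⟩)
    rw [Real.one_rpow, mul_one] at k2
    have e1 := IIIb.num hZ hV hVZ hy hX hη hη1 hη2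
    have e2 : X' ^ (1 + ka) ≤ Real.exp 14 * X ^ (1 + ka) := by
      have := IIIb.exp_rpow (a := 7) (p := 1 + ka) (by norm_num) (by linarith [ka_lt]) hX
      rw [show (2 * 7 : ℝ) = 14 by norm_num] at this
      refine le_trans ?_ this
      have := ka_pos
      gcongr
    rw [hf, sum_product]
    refine le_trans (sum_le_sum fun m _ => sum_le_sum fun e he => ?_) (k2.trans ?_)
    · have h3 := hr.1 Q ν e m X' t' hν (hT e he) hX'
      have h4 : ‖jj e m‖ ≤ 1 * (dv e * ‖jj e m‖) := by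
        rw [one_mul]
        exact le_mul_of_one_le_left (norm_nonneg _) (one_le_dv (hT e he).ne_zero)
      have h5 := dv_nonneg e
      gcongr
    · calc Ct * ((Cd * y ^ η) ^ 2 * (Real.exp a0 * (Bd * (5 * (1 + |t'|)) ^ 16 *
            ((y + (Real.exp 9 * X) ^ (1 + aa)) * (1 + y / Z ^ 2) ^ 10)))) * X' ^ (1 + ka)
          = Ct * Cd ^ 2 * Real.exp a0 * 5 ^ 16 * Bd * (1 + |t'|) ^ 16 * ((y ^ η) ^ 2 *
            ((y + (Real.exp 9 * X) ^ (1 + aa)) * (1 + y / Z ^ 2) ^ 10)) * X' ^ (1 + ka) := by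
            rw [mul_pow 5, mul_pow Cd]
            generalize (1 + |t'|) ^ 16 = u
            generalize (1 + y / Z ^ 2) ^ 10 = v
            ring
        _ ≤ Ct * Cd ^ 2 * Real.exp a0 * 5 ^ 16 * Bd * (1 + |t'|) ^ 16 *
            (Real.exp 18 * 2 ^ 10 * Z ^ (ε / 2) * (V + X ^ (1 + aa)) * (y / V) ^ 12) *
            (Real.exp 14 * X ^ (1 + ka)) := by gcongr
        _ = _ := by
            rw [hK]
            generalize (1 + |t'|) ^ 16 = u
            generalize (y / V) ^ 12 = v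
            ring

end Pool.Agent.P.MP_26a8c3_nt.QB
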