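import Pool.Agent.P.MP_26a8c3_nt.QB.Bas

/-! The tail of the first step of the bootstrap. -/

namespace Pool.Agent.P.MP_26a8c3_nt.QB

open QO QA Finset
open scoped Classical ComplexConjugate

namespace ITail

/-- at `m = 0` only the term `c = 1` survives -/
lemma norm_A_zero {Q : O} {ν : O → ℂ} (h : IsNu Q ν) (e : O) (x t : ℝ) :
    ‖A ν e 0 x t‖ ≤ ‖W x t 1‖ := by
  have h1 : nr 1 = 1 := by simp [nr]
  rw [A, Wsum, tsum_eq_single 1, norm_mul, h1]
  · exact mul_le_of_le_one_left (norm_nonneg _) ((bd1_uA h e 0).2 1)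
  · intro c hc
    unfold uA
    split_ifs with hq
    · rw [(psi_eq_zero hq.1.ne_zero).2, mul_zero, zero_mul]
      intro hu
      exact hc (hq.1.1.eq_one_of_isUnit (isCoprime_zero_left.1 hu))
    · simp

lemma norm_W_one {X d : ℝ} (hX : 0 < X) (hd : 0 < d) (t : ℝ) : ‖W (X / d) t 1‖ = ‖W X t d‖ := by
  rw [norm_W, norm_W, Real.log_div hX.ne' hd.ne', Real.log_one]
  congr 2
  ring

/-- the term `m = 0` -/
lemma zero_term (hb : Base) : ∃ C : ℝ, 0 < C ∧ ∀ (Q : O) (ν : O → ℂ) (X t : ℝ) (T : Finset O),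
    IsNu Q ν → 0 < X → (∀ e ∈ T, SQ e) →
    ∑ e ∈ T, (dv e * ‖jj e 0‖) * ‖A ν e 0 (X / N e) t‖ ^ 2 ≤ C * X ^ (2 + aa) := by
  have ha := aa_pos
  obtain ⟨C1, hC1, h1⟩ := hb.dvb (aa / 4) (by positivity)
  obtain ⟨C2, hC2, h2⟩ := sum_W_pow (σ := 2 + aa) (ρ := 1 + aa / 2) (by linarith)
  refine ⟨C1 ^ 2 * C2, by positivity, fun Q ν X t T hν hX hT => ?_⟩
  rw [mul_assoc]
  refine le_trans ?_ (mul_le_mul_of_nonneg_left (h2 X t T hX) (by positivity))
  rw [mul_sum]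
  refine sum_le_sum fun e he => ?_
  have h0 := (hT e he).ne_zero
  have hN := N_pos_real h0
  have hd := dv_nonneg e
  have a1 : ‖A ν e 0 (X / N e) t‖ ≤ ‖W X t (N e)‖ :=
    (norm_A_zero hν e _ t).trans (norm_W_one hX hN t).le
  have a2 : ‖A ν e 0 (X / N e) t‖ ^ 2 ≤ ‖W X t (N e)‖ := by
    calc _ ≤ ‖W X t (N e)‖ ^ 2 := by gcongr
      _ ≤ _ := by
        rw [sq]; exact mul_le_of_le_one_left (norm_nonneg _) (norm_W_le_one _ _ _)
  have a3 : (N e : ℝ) ^ (1 + aa / 2) = (N e : ℝ) ^ (aa / 4) * ((N e : ℝ) ^ (aa / 4) * N e) := by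
    rw [show 1 + aa / 2 = aa / 4 + (aa / 4 + 1) by ring, Real.rpow_add hN, Real.rpow_add hN,
      Real.rpow_one]
  rw [nr_eq h0, a3]
  calc dv e * ‖jj e 0‖ * ‖A ν e 0 (X / N e) t‖ ^ 2
      ≤ dv e * (dv e * N e) * ‖W X t (N e)‖ := by
        gcongr
        exact norm_jj_le' h0 0
    _ ≤ (C1 * (N e : ℝ) ^ (aa / 4)) * ((C1 * (N e : ℝ) ^ (aa / 4)) * N e) * ‖W X t (N e)‖ := by
        gcongr <;> exact h1 e h0
    _ = _ := by ring

lemma rpow_mul_G {y η : ℝ} (hy : 0 ≤ y) (h0 : 0 ≤ η) (h1 : η ≤ 1) : y ^ η * G y ≤ 1 := by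
  have h2 : y ^ η ≤ Real.exp (a0 * y) := by
    have h3 : y + 1 ≤ Real.exp (a0 * y) :=
      (Real.add_one_le_exp y).trans (Real.exp_le_exp.2 (le_mul_of_one_le_left hy one_le_a0))
    rcases le_total y 1 with h | h
    · exact (Real.rpow_le_one hy h h0).trans (by linarith)
    · refine (Real.rpow_le_rpow_of_exponent_le h h1).trans ?_
      rw [Real.rpow_one]; linarith
  calc y ^ η * G y ≤ Real.exp (a0 * y) * G y := by have := G_pos y; gcongr
    _ = 1 := by rw [G, ← Real.exp_add]; simp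

/-- the divisor function is absorbed by half of the Gaussian -/
lemma dv_G (hb : Base) {ε : ℝ} (hε : 0 < ε) : ∃ C : ℝ, 0 < C ∧ ∀ (m : O) (M Z : ℝ), m ≠ 0 →
    0 < M → 1 ≤ Z → M ≤ Z ^ 3 → G (N m / M) * dv m ^ 2 ≤ C * Z ^ ε * G (N m / (2 * M)) := by
  set η := min (ε / 3) 1 with hη
  have h0 : 0 < η := lt_min (by positivity) one_pos
  have h1 : η ≤ 1 := min_le_right _ _
  have h3 : η ≤ ε / 3 := min_le_left _ _
  obtain ⟨C, hC, h⟩ := hb.dvb (η / 2) (by positivity)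
  refine ⟨C ^ 2 * 2, by positivity, fun m M Z hm hM hZ hMZ => ?_⟩
  have hN := N_pos_real hm
  have hG := G_pos (N m / (2 * M))
  have hd := dv_nonneg m
  have e1 : G (N m / M) = G (N m / (2 * M)) * G (N m / (2 * M)) := by
    rw [← G_add]; congr 1; field_simp; ring
  have e2 : dv m ^ 2 ≤ C ^ 2 * (N m : ℝ) ^ η := by
    calc dv m ^ 2 ≤ (C * (N m : ℝ) ^ (η / 2)) ^ 2 := by gcongr; exact h m hm
      _ = _ := by
        rw [mul_pow, ← Real.rpow_natCast ((N m : ℝ) ^ (η / 2)), ← Real.rpow_mul hN.le]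
        congr 2; push_cast; ring
  have e3 : (N m : ℝ) ^ η = (2 * M) ^ η * (N m / (2 * M)) ^ η := by
    rw [← Real.mul_rpow (by positivity) (by positivity)]; congr 1; field_simp
  have e4 : (2 * M) ^ η ≤ 2 * Z ^ ε := by
    rw [Real.mul_rpow (by norm_num) hM.le]
    have b1 : (2 : ℝ) ^ η ≤ 2 := by
      simpa using Real.rpow_le_rpow_of_exponent_le (one_le_two (α := ℝ)) h1
    have b2 : M ^ η ≤ Z ^ ε := by
      calc M ^ η ≤ (Z ^ 3) ^ η := Real.rpow_le_rpow hM.le hMZ h0.le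
        _ = Z ^ (3 * η) := by
          rw [← Real.rpow_natCast, ← Real.rpow_mul (by linarith)]; norm_num
        _ ≤ _ := Real.rpow_le_rpow_of_exponent_le hZ (by linarith)
    gcongr
  have e5 := rpow_mul_G (y := N m / (2 * M)) (by positivity) h0.le h1
  have hZ0 : 0 < Z := by linarith
  calc G (N m / M) * dv m ^ 2
      ≤ G (N m / (2 * M)) * G (N m / (2 * M)) * (C ^ 2 * ((2 * M) ^ η * (N m / (2 * M)) ^ η)) := by
        rw [e1, ← e3]; gcongr
    _ = C ^ 2 * (2 * M) ^ η * G (N m / (2 * M)) * ((N m / (2 * M)) ^ η * G (N m / (2 * M))) := by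
        ring
    _ ≤ C ^ 2 * (2 * Z ^ ε) * G (N m / (2 * M)) * 1 := by gcongr
    _ = _ := by ring

lemma Nm_two {Z M X ξ : ℝ} (hM : 0 < M) (h0 : 0 < ξ) (h : ξ ≤ X) :
    Nm Z (2 * M) ξ ≤ 2 ^ 11 * ((M + X ^ (1 + aa)) * (1 + M / Z ^ 2) ^ 10) * ξ ^ (1 + ka) := by
  have ha := aa_pos
  have h1 : ξ ^ (1 + aa) ≤ X ^ (1 + aa) := Real.rpow_le_rpow h0.le h (by linarith)
  have h2 : 0 < ξ ^ (1 + aa) := by positivity
  have h3 : 0 ≤ M / Z ^ 2 := by positivity
  have h4 : 1 + 2 * M / Z ^ 2 ≤ 2 * (1 + M / Z ^ 2) := by rw [mul_div_assoc]; linarith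
  calc Nm Z (2 * M) ξ ≤ (2 * (M + X ^ (1 + aa))) * ξ ^ (1 + ka) * (2 * (1 + M / Z ^ 2)) ^ 10 := by
        unfold Nm
        have : 0 < X := h0.trans_le h
        gcongr
        linarith
    _ = _ := by ring

lemma le_Nm {Z M X : ℝ} (hM : 0 < M) (hX : 1 ≤ X) : X ^ (2 + aa) ≤ Nm Z M X := by
  have hk := ka_pos
  have h0 : 0 < X := by linarith
  have h1 : (1 : ℝ) ≤ (1 + M / Z ^ 2) ^ 10 := one_le_pow₀ (le_add_of_nonneg_right (by positivity))
  calc X ^ (2 + aa) ≤ X ^ ((1 + aa) + (1 + ka)) :=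
        Real.rpow_le_rpow_of_exponent_le hX (by linarith)
    _ = X ^ (1 + aa) * X ^ (1 + ka) * 1 := by rw [Real.rpow_add h0, mul_one]
    _ ≤ _ := by
        unfold Nm
        gcongr
        linarith

end ITail

open ITail in
theorem itail (hb : Base) (hr : S_Rx) (ht : S_Tail) (hs : S_SW) : S_ITail := by
  intro ε hε
  obtain ⟨C0, hC0, h0⟩ := zero_term hb
  obtain ⟨C1, hC1, h1⟩ := dv_G hb hε
  obtain ⟨C2, hC2, h2⟩ := ht
  obtain ⟨C3, hC3, h3⟩ := hb.dv_le
  refine ⟨C0 + C2 * (C1 * 5 ^ 16 * 2 ^ 11), by positivity,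
    fun Q ν κ Z Bd E M X t s hν hH hBd hE hX hXZ hM hMZ hκ hκ0 => ?_⟩
  have hX0 : 0 < X := by linarith
  have hZ : 1 ≤ Z := hX.trans hXZ
  have hZ0 : 0 < Z := by linarith
  have hM0 : 0 < M := lt_of_lt_of_le (by positivity) hM
  have hE1 : 1 ≤ E := le_trans (Real.one_le_exp (by norm_num)) hE
  have hE0 : 0 < E := by linarith
  have hNm := Nm_pos (Z := Z) hM0 hX0
  have ht1 : (1 : ℝ) ≤ (1 + |t|) ^ 16 := one_le_pow₀ (le_add_of_nonneg_right (abs_nonneg _))
  refine hs s (fun m => G (N m / M))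
    (fun _ x => al ν x.1 * W X t (nr x.1) * conj (al ν x.2 * W X t (nr x.2)))
    (fun m e => κ e * jj e m) (C3 ^ 2) _ (fun m _ => (G_pos _).le) (fun m _ => ?_)
    (fun m _ x hx => ?_) (fun m _ e he => ?_) (fun T hT => ?_)
  · refine ((summable_Wn (bd1_al hν).2 hX0 t 4).mul_of_nonneg (summable_W1 (bd1_al hν).2 hX0 t)
      (fun _ => by positivity) (fun _ => norm_nonneg _)).congr fun x => ?_
    rw [norm_mul (al ν x.1 * W X t (nr x.1)), Complex.norm_conj]; ring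
  · constructor
    · by_contra hq; exact hx (by simp [al, hq])
    · by_contra hq; exact hx (by simp [al, hq])
  · have he0 := he.ne_zero
    have hd := dv_nonneg e
    rw [norm_mul]
    calc ‖κ e‖ * ‖jj e m‖ ≤ dv e * (dv e * N e) := by
          gcongr
          · exact hκ e he
          · exact norm_jj_le' he0 m
      _ ≤ (C3 * N e) * ((C3 * N e) * N e) := by gcongr <;> exact h3 e he0
      _ = _ := by ring
  set T' := T.filter fun e => E ≤ (N e : ℝ) with hT'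
  have hT1 : ∀ e ∈ T', SQ e ∧ E ≤ (N e : ℝ) := fun e he =>
    ⟨hT e (mem_filter.1 he).1, (mem_filter.1 he).2⟩
  set g : O → ℝ := fun m =>
    ∑ e ∈ T', G (N m / M) * (dv e * ‖jj e m‖) * ‖A ν e m (X / N e) t‖ ^ 2 with hg
  have hg0 : ∀ m, 0 ≤ g m := fun m => sum_nonneg fun e _ => by
    have := G_pos (N m / M); have := dv_nonneg e; positivity
  -- the terms `m ≠ 0`
  have hmain := h2 Q ν (s.erase 0) T' (fun m => G (N m / M)) X t E
    (C1 * Z ^ ε * (Bd * (5 * (1 + |t|)) ^ 16 *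
      (2 ^ 11 * ((M + X ^ (1 + aa)) * (1 + M / Z ^ 2) ^ 10)))) hν hX0 hE1 (by positivity)
    (fun m hm => ⟨ne_of_mem_erase hm, (G_pos _).le⟩) hT1 (fun ξ t' hξ hξ' htt => by
      have hξX : ξ ≤ X := hξ'.trans (by rw [div_le_iff₀ hE0]; nlinarith)
      have b1 := hH ν hν (2 * M) ξ t' (by positivity) hξ (hξX.trans hXZ) (s.erase 0)
      have b2 : 1 + |t'| ≤ 5 * (1 + |t|) := by
        have := abs_sub_abs_le_abs_sub t' t
        have := abs_nonneg t
        linarith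
      have b3 := Nm_two (Z := Z) hM0 hξ hξX
      have b4 := Nm_pos (Z := Z) (M := 2 * M) (by positivity) hξ
      calc ∑ m ∈ s.erase 0, G (N m / M) * dv m ^ 2 * ‖A ν 1 m ξ t'‖ ^ 2
          ≤ ∑ m ∈ s.erase 0, C1 * Z ^ ε * (G (N m / (2 * M)) * ‖A ν 1 m ξ t'‖ ^ 2) := by
            refine sum_le_sum fun m hm => ?_
            rw [← mul_assoc]
            exact mul_le_mul_of_nonneg_right (h1 m M Z (ne_of_mem_erase hm) hM0 hZ hMZ)
              (by positivity)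
        _ ≤ C1 * Z ^ ε * (Bd * (1 + |t'|) ^ 16 * Nm Z (2 * M) ξ) := by
            rw [← mul_sum]; gcongr
        _ ≤ C1 * Z ^ ε * (Bd * (5 * (1 + |t|)) ^ 16 *
            (2 ^ 11 * ((M + X ^ (1 + aa)) * (1 + M / Z ^ 2) ^ 10) * ξ ^ (1 + ka))) := by gcongr
        _ = _ := by ring)
  have hzero : g 0 ≤ C0 * Nm Z M X := by
    refine le_trans ?_ ((h0 Q ν X t T' hν hX0 fun e he => (hT1 e he).1).trans
      (mul_le_mul_of_nonneg_left (le_Nm hM0 hX) hC0.le))
    refine sum_le_sum fun e _ => le_of_eq ?_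
    simp [G]
  have hY : 0 ≤ Z ^ ε * E ^ (-(ka / 2)) * Bd := by positivity
  calc _ ≤ ∑ m ∈ s, g m := by
        refine sum_le_sum fun m _ => ?_
        rw [hg, hT']
        simp only
        rw [sum_filter]
        refine sum_le_sum fun e he => ?_
        split_ifs with hc
        · have c1 := norm_sq_tsum (summable_W1 (bd1_alps hν e m).2 hX0 t)
          have c2 : (∑' x : O × O, al ν x.1 * W X t (nr x.1) * conj (al ν x.2 * W X t (nr x.2)) *
              (ps e x.1 m * conj (ps e x.2 m))) =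
              ((‖Wsum (fun c => al ν c * ps e c m) X t‖ ^ 2 : ℝ) : ℂ) := by
            rw [Wsum, c1]
            refine tsum_congr fun x => ?_
            simp only [map_mul]; ring
          rw [c2, Complex.norm_real, Real.norm_of_nonneg (by positivity), norm_mul]
          have := G_pos (N m / M)
          have := dv_nonneg e
          gcongr
          · exact hκ e (hT e he)
          · exact hr.1 Q ν e m X t hν (hT e he) hX0
        · simp [hκ0 e (le_of_not_ge hc)]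
    _ ≤ g 0 + ∑ m ∈ s.erase 0, g m := by
        by_cases h : (0 : O) ∈ s
        · rw [add_sum_erase _ _ h]
        · rw [erase_eq_of_notMem h]; linarith [hg0 0]
    _ ≤ C0 * Nm Z M X + C2 * (C1 * 5 ^ 16 * 2 ^ 11) *
          ((Z ^ ε * E ^ (-(ka / 2)) * Bd) * (1 + |t|) ^ 16 * Nm Z M X) := by
        refine add_le_add hzero (hmain.trans (le_of_eq ?_))
        unfold Nm; ring
    _ ≤ C0 * ((1 + Z ^ ε * E ^ (-(ka / 2)) * Bd) * (1 + |t|) ^ 16 * Nm Z M X) +
          C2 * (C1 * 5 ^ 16 * 2 ^ 11) *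
          ((1 + Z ^ ε * E ^ (-(ka / 2)) * Bd) * (1 + |t|) ^ 16 * Nm Z M X) := by
        gcongr
        · exact le_mul_of_one_le_left hNm.le (one_le_mul_of_one_le_of_one_le (by linarith) ht1)
        · linarith
    _ = _ := by ring

end Pool.Agent.P.MP_26a8c3_nt.QB
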