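import Pool.Agent.P.MP_26a8c3_nt.QB.Bas

/-! Transfer of a Poisson identity through a double sum. -/

namespace Pool.Agent.P.MP_26a8c3_nt.QB

open QO QA Finset
open scoped Classical ComplexConjugate

namespace PT

lemma one_le_ab {a : O} (h : a ≠ 0) : 1 ≤ ab a := by
  rw [ab_eq]; exact Real.one_le_sqrt.2 (one_le_N h)

lemma sum_le {D : O → ℂ} {b : ℝ} (h : ∀ s : Finset O, 0 ∉ s → ∑ x ∈ s, ‖D x‖ ≤ b)
    (s : Finset O) : ∑ x ∈ s, ‖D x‖ ≤ ‖D 0‖ + b := by
  have h1 := h (s.erase 0) (notMem_erase _ _)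
  by_cases h0 : (0 : O) ∈ s
  · rw [← add_sum_erase s (fun x => ‖D x‖) h0]; linarith
  · rw [erase_eq_of_notMem h0] at h1; linarith [norm_nonneg (D 0)]

end PT

theorem pt (hb : Base) : S_PT := by
  intro α K₁ K₂ φ P b hP h0 hs hK hPo D hD hb'
  obtain ⟨C, hC, hg⟩ := hb.gau
  have hne : ∀ a, α a ≠ 0 → a ≠ 0 := fun a ha e => ha (e ▸ h0)
  set w : O → ℝ := fun c => ‖α c‖ * (N c : ℝ) ^ 3 with hw
  have hw0 : ∀ c, 0 ≤ w c := fun c => by positivity
  have hww : Summable fun x : O × O => w x.1 * w x.2 := hs.mul_of_nonneg hs hw0 hw0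
  -- first family
  set F₁ : O × (O × O) → ℂ := fun z =>
    ((G (N z.1 / P) : ℝ) : ℂ) * (α z.2.1 * conj (α z.2.2) * K₁ z.2.1 z.2.2 z.1) with hF₁
  have s₁ : Summable F₁ := by
    have hm : Summable fun z : O × (O × O) => G (N z.1 / P) * (w z.2.1 * w z.2.2) :=
      Summable.mul_of_nonneg (f := fun m : O => G (N m / P)) (g := fun x : O × O => w x.1 * w x.2)
        (hb.summable_G hP) hww (fun m => (G_pos _).le) fun x => mul_nonneg (hw0 _) (hw0 _)
    refine Summable.of_norm_bounded hm ?_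
    rintro ⟨m, a, c⟩
    simp only [hF₁, norm_mul, Complex.norm_real, Real.norm_eq_abs, abs_of_pos (G_pos _),
      Complex.norm_conj]
    refine mul_le_mul_of_nonneg_left ?_ (G_pos _).le
    by_cases ha : α a = 0
    · simp only [ha, norm_zero, zero_mul]; exact mul_nonneg (hw0 _) (hw0 _)
    by_cases hc : α c = 0
    · simp only [hc, norm_zero, zero_mul, mul_zero]; exact mul_nonneg (hw0 _) (hw0 _)
    have h1 := one_le_N (hne a ha)
    have h2 := one_le_N (hne c hc)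
    have h3 : ‖K₁ a c m‖ ≤ (N a : ℝ) ^ 3 * (N c : ℝ) ^ 3 :=
      (hK a c m ha hc).1.trans ((le_self_pow₀ h1 (by norm_num)).trans
        (le_mul_of_one_le_right (by positivity) (one_le_pow₀ h2)))
    calc ‖α a‖ * ‖α c‖ * ‖K₁ a c m‖ ≤ ‖α a‖ * ‖α c‖ * ((N a : ℝ) ^ 3 * (N c : ℝ) ^ 3) := by gcongr
      _ = _ := by simp only [hw]; ring
  -- second family
  set F₂ : (O × O) × O → ℂ := fun z =>
    α z.1.1 / (ab z.1.1 : ℂ) * conj (α z.1.2 / (ab z.1.2 : ℂ)) * φ z.1.1 z.1.2 *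
      K₂ z.1.1 z.1.2 z.2 * (G (P * N z.2 / (N z.1.1 * N z.1.2)) : ℝ) with hF₂
  set M₂ : (O × O) × O → ℝ := fun z =>
    ‖α z.1.1‖ * N z.1.1 * ‖α z.1.2‖ * G (P * N z.2 / (N z.1.1 * N z.1.2)) with hM₂
  have hM0 : ∀ z, 0 ≤ M₂ z := fun z => by have := G_pos (P * N z.2 / (N z.1.1 * N z.1.2)); positivity
  have hrow : ∀ (x : O × O) (s : Finset O),
      ∑ h ∈ s, M₂ (x, h) ≤ C * (1 + P⁻¹) * (w x.1 * w x.2) := by
    rintro ⟨a, c⟩ s
    have hpos : 0 ≤ C * (1 + P⁻¹) * (w a * w c) := by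
      have := hw0 a; have := hw0 c; positivity
    by_cases ha : α a = 0
    · simpa [hM₂, ha] using hpos
    by_cases hc : α c = 0
    · simpa [hM₂, hc] using hpos
    have h1 := one_le_N (hne a ha)
    have h2 := one_le_N (hne c hc)
    have hU : 0 < (N a : ℝ) * N c / P := by positivity
    have h3 := hg _ s hU
    have e : ∀ h : O, P * N h / (N a * N c) = (N h : ℝ) / (N a * N c / P) := fun h => by
      field_simp
    simp only [hM₂, e, ← mul_sum]
    have h4 : 1 + (N a : ℝ) * N c / P ≤ (1 + P⁻¹) * ((N a : ℝ) ^ 2 * (N c : ℝ) ^ 3) := by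
      have h5 : (N a : ℝ) * N c ≤ (N a : ℝ) ^ 2 * (N c : ℝ) ^ 3 :=
        mul_le_mul (le_self_pow₀ h1 (by norm_num)) (le_self_pow₀ h2 (by norm_num))
          (by positivity) (by positivity)
      have h6 : (1 : ℝ) ≤ (N a : ℝ) ^ 2 * (N c : ℝ) ^ 3 :=
        one_le_mul_of_one_le_of_one_le (one_le_pow₀ h1) (one_le_pow₀ h2)
      rw [add_mul, one_mul, div_eq_inv_mul]
      gcongr
    calc ‖α a‖ * N a * ‖α c‖ * ∑ h ∈ s, G ((N h : ℝ) / (N a * N c / P))
        ≤ ‖α a‖ * N a * ‖α c‖ * (C * ((1 + P⁻¹) * ((N a : ℝ) ^ 2 * (N c : ℝ) ^ 3))) := by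
          gcongr
          exact h3.trans (by gcongr)
      _ = _ := by simp only [hw]; ring
  have sM : Summable M₂ := by
    rw [summable_prod_of_nonneg hM0]
    have hr : ∀ x : O × O, Summable fun h : O => M₂ (x, h) := fun x =>
      summable_of_sum_le (fun h => hM0 _) (hrow x)
    refine ⟨hr, Summable.of_nonneg_of_le (fun x => tsum_nonneg fun h => hM0 _)
      (fun x => (hr x).tsum_le_of_sum_le (hrow x)) (hww.mul_left _)⟩
  have s₂ : Summable F₂ := by
    refine Summable.of_norm_bounded sM ?_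
    rintro ⟨⟨a, c⟩, h⟩
    by_cases ha : α a = 0
    · simpa [hF₂, ha] using hM0 ((a, c), h)
    by_cases hc : α c = 0
    · simpa [hF₂, hc] using hM0 ((a, c), h)
    have h1 := PT.one_le_ab (hne a ha)
    have h2 := PT.one_le_ab (hne c hc)
    obtain ⟨-, k2, k3⟩ := hK a c h ha hc
    simp only [hF₂, hM₂, norm_mul, norm_div, Complex.norm_real, Real.norm_eq_abs,
      abs_of_pos (G_pos _), Complex.norm_conj, abs_of_nonneg (ab_nonneg _)]
    refine mul_le_mul_of_nonneg_right ?_ (G_pos _).le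
    calc ‖α a‖ / ab a * (‖α c‖ / ab c) * ‖φ a c‖ * ‖K₂ a c h‖
        ≤ ‖α a‖ * ‖α c‖ * 1 * N a := by
          gcongr
          · exact div_le_self (norm_nonneg _) h1
          · exact div_le_self (norm_nonneg _) h2
      _ = _ := by ring
  have e₁ : ∀ m : O, ((G (N m / P) : ℝ) : ℂ) *
      ∑' x : O × O, α x.1 * conj (α x.2) * K₁ x.1 x.2 m = ∑' x : O × O, F₁ (m, x) := fun m => by
    rw [← tsum_mul_left]
  have e₂ : ∀ x : O × O, ∑' m : O, F₁ (m, x) = (P : ℂ) * ∑' h : O, F₂ (x, h) := by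
    rintro ⟨a, c⟩
    by_cases ha : α a = 0
    · simp [hF₁, hF₂, ha]
    by_cases hc : α c = 0
    · simp [hF₁, hF₂, hc]
    have k1 : ∑' m : O, F₁ (m, (a, c)) =
        α a * conj (α c) * ∑' m : O, K₁ a c m * (G (N m / P) : ℝ) := by
      rw [← tsum_mul_left]; exact tsum_congr fun m => by simp only [hF₁]; ring
    have k2 : ∑' h : O, F₂ ((a, c), h) = α a / (ab a : ℂ) * conj (α c / (ab c : ℂ)) * φ a c *
        ∑' h : O, K₂ a c h * (G (P * N h / (N a * N c)) : ℝ) := by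
      rw [← tsum_mul_left]; exact tsum_congr fun m => by simp only [hF₂]; ring
    rw [k1, k2, hPo a c ha hc, map_div₀, Complex.conj_ofReal]
    push_cast
    ring
  have sD : Summable fun h => ‖D h‖ := summable_of_sum_le (fun _ => norm_nonneg _) (PT.sum_le hb')
  simp only [e₁]
  refine ⟨s₁.prod, ?_⟩
  have c₁ : ∑' m : O, ∑' x : O × O, F₁ (m, x) = ∑' x : O × O, ∑' m : O, F₁ (m, x) :=
    (Summable.tsum_comm (f := fun m x => F₁ (m, x)) s₁).symm
  have c₂ : ∑' x : O × O, ∑' h : O, F₂ (x, h) = ∑' h : O, D h := by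
    rw [← Summable.tsum_comm (f := fun x h => F₂ (x, h)) s₂]
    exact tsum_congr fun h => (hD h).symm
  rw [c₁]
  simp only [e₂]
  rw [tsum_mul_left, c₂, norm_mul, Complex.norm_real, Real.norm_eq_abs, abs_of_pos hP]
  exact mul_le_mul_of_nonneg_left ((norm_tsum_le_tsum_norm sD).trans
    (sD.tsum_le_of_sum_le (PT.sum_le hb'))) hP.le

end Pool.Agent.P.MP_26a8c3_nt.QB
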