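import Pool.Agent.P.MP_26a8c3_nt.QB.Bas

/-! Reindexing of the Moebius side sums, the one prime recursion and the divisor expansion. -/

namespace Pool.Agent.P.MP_26a8c3_nt.QB

open QO QA Finset
open scoped Classical ComplexConjugate

namespace Rx

variable {Q : O} {ν : O → ℂ}

/-- a sum supported on the multiples of `d` -/
lemma Wsum_dvd {d : O} (hd : d ≠ 0) {u v : O → ℂ} {z : ℂ} (h0 : ∀ c, ¬ d ∣ c → u c = 0)
    (h1 : ∀ c, u (d * c) = z * v c) (hv : v 0 = 0) {X : ℝ} (hX : 0 < X) (t : ℝ) :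
    Wsum u X t = z * ((N d : ℝ) : ℂ) ^ ((t : ℂ) * Complex.I) * Wsum v (X / N d) t := by
  rw [Wsum, Wsum, ← tsum_mul_left,
    ← (mul_right_injective₀ hd).tsum_eq (f := fun c => u c * W X t (nr c)) fun c hc => ?_]
  · refine tsum_congr fun c => ?_
    rw [h1]
    rcases eq_or_ne c 0 with rfl | hc
    · simp [hv]
    · rw [nr_mul hd hc, W_mul hX (N_pos_real hd) (nr_pos c)]
      ring
  · by_contra hn
    exact hc (mul_eq_zero_of_left (h0 c fun ⟨x, hx⟩ => hn ⟨x, hx.symm⟩) _)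

lemma norm_coef {z : ℂ} (hz : ‖z‖ ≤ 1) {d : O} (hd : d ≠ 0) (t : ℝ) :
    ‖z * ((N d : ℝ) : ℂ) ^ ((t : ℂ) * Complex.I)‖ ≤ 1 :=
  norm_mul_le_one hz (norm_cpow_I (N_pos_real hd) t).le

lemma sq_mul_iff {e c : O} (he : SQ e) : SQ (e * c) ↔ SQ c ∧ IsCoprime c e :=
  ⟨fun h => ⟨h.right he.1, h.coprime.symm⟩, fun h => he.mul h.1 h.2.symm⟩

lemma one (hν : IsNu Q ν) {e : O} (he : SQ e) (m : O) {X : ℝ} (hX : 0 < X) (t : ℝ) :
    ‖Wsum (fun c => al ν c * ps e c m) X t‖ ≤ ‖A ν e m (X / N e) t‖ := by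
  rw [Wsum_dvd he.ne_zero (v := uA ν e m) (z := mu e * ν e)
    (fun c hc => by rw [ps, if_neg hc, mul_zero]) (fun c => ?_) (bd1_uA hν e m).1 hX, norm_mul]
  · exact mul_le_of_le_one_left (norm_nonneg _)
      (norm_coef (norm_mul_le_one (norm_mu_le e) (hν.le e)) he.ne_zero t)
  · rw [ps, if_pos (dvd_mul_right e c), quo_mul he.ne_zero, al, uA]
    by_cases h : SQ c ∧ IsCoprime c e
    · rw [if_pos h, if_pos ((sq_mul_iff he).2 h), mu_mul h.2.symm, hν.mul]
      ring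
    · rw [if_neg h, if_neg (mt (sq_mul_iff he).1 h), zero_mul, mul_zero]

lemma two (hν : IsNu Q ν) {p r : O} (hp : Prime p) (h1 : Primary p) (hr : ¬ p ∣ r) (m : O)
    {X : ℝ} (hX : 0 < X) (t : ℝ) :
    ∃ z : ℂ, ‖z‖ ≤ 1 ∧ A ν r m X t = A ν (p * r) m X t + z * A ν (p * r) m (X / N p) t := by
  have hs : SQ p := ⟨h1, hp.squarefree⟩
  have hpr : IsCoprime p r := hp.coprime_iff_not_dvd.2 hr
  refine ⟨_, norm_coef (norm_mul_le_one (norm_mul_le_one (norm_mu_le p) (hν.le p))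
    (norm_psi_le p m)) hp.ne_zero t, ?_⟩
  rw [A, A, A, ← Wsum_dvd hp.ne_zero (u := fun c => if p ∣ c then uA ν r m c else 0)
    (fun c hc => if_neg hc) (fun c => ?_) (bd1_uA hν _ m).1 hX, Wsum, Wsum, Wsum,
    ← (summable_Wc (bd1_uA hν _ m).2 hX t).tsum_add (summable_Wc (fun c => ?_) hX t)]
  · refine tsum_congr fun c => ?_
    rw [← add_mul]
    congr 1
    by_cases hc : p ∣ c
    · rw [if_pos hc, uA.eq_1 ν (p * r), if_neg, zero_add]
      exact fun h => hp.not_isUnit (h.2.isUnit_of_dvd' hc (dvd_mul_right p r))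
    · rw [if_neg hc, add_zero, uA, uA]
      refine if_congr (and_congr_right fun _ => ?_) rfl rfl
      rw [IsCoprime.mul_right_iff]
      exact ⟨fun h => ⟨(hp.coprime_iff_not_dvd.2 hc).symm, h⟩, fun h => h.2⟩
  · split_ifs
    · exact (bd1_uA hν r m).2 c
    · simp
  · rw [if_pos (dvd_mul_right p c), uA, uA]
    by_cases h : SQ c ∧ IsCoprime c (p * r)
    · have h2 := IsCoprime.mul_right_iff.1 h.2
      rw [if_pos h, if_pos ⟨(sq_mul_iff hs).2 ⟨h.1, h2.1⟩, hpr.mul_left h2.2⟩, mu_mul h2.1.symm,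
        hν.mul, psi_mul_left hp.ne_zero h.1.ne_zero]
      ring
    · rw [if_neg h, mul_zero, if_neg]
      rintro ⟨h2, h3⟩
      have h4 := (sq_mul_iff hs).1 h2
      exact h ⟨h4.1, h4.2.mul_right h3.of_mul_left_right⟩

lemma uA_six (k c : O) :
    uA ν 1 (k ^ 6) c = if SQ c ∧ IsCoprime k c then mu c * ν c else 0 := by
  unfold uA
  by_cases h : SQ c
  · rw [if_pos ⟨h, isCoprime_one_right⟩, psi_pow, psi_six h.ne_zero, QO.cop]
    by_cases h' : IsCoprime k c <;> simp [h, h']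
  · simp [h]

lemma uA_split (hν : IsNu Q ν) {k : O} (hk : k ≠ 0) (c : O) :
    uA ν 1 1 c = ∑ d ∈ pdiv k,
      if d ∣ c then mu d * ν d * uA ν 1 (k ^ 6) (quo c d) else 0 := by
  simp only [uA_six]
  by_cases hc : SQ c
  · have hgc : gcd c k ∣ c := gcd_dvd_left c k
    have hgk : gcd c k ∣ k := gcd_dvd_right c k
    have hg : Primary (gcd c k) := by
      rw [← _root_.normalize_gcd]
      exact primary_normalize fun h => hc.1.not_lam_dvd (h.trans hgc)
    rw [sum_eq_single_of_mem (gcd c k) ((mem_pdiv hk).2 ⟨hg, hgk⟩)]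
    · have e := mul_quo hgc
      have hc' : SQ (gcd c k * quo c (gcd c k)) := by rwa [e]
      have h1 := hc'.right hg
      have h2 : IsCoprime k (quo c (gcd c k)) := by
        by_contra hn
        obtain ⟨p, hp, -, p1, p2⟩ := (not_coprime_iff h1.ne_zero).1 hn
        exact hp.not_isUnit (hc'.coprime.isUnit_of_dvd'
          (dvd_gcd (p1.trans (Dvd.intro_left _ e)) p2) p1)
      rw [if_pos hgc, if_pos ⟨h1, h2⟩, uA, if_pos ⟨hc, isCoprime_one_right⟩, psi_one, mul_one]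
      conv_lhs => rw [← e, mu_mul hc'.coprime, hν.mul]
      ring
    · intro d hd hne
      obtain ⟨d1, d2⟩ := (mem_pdiv hk).1 hd
      split_ifs with h1 h2
      · refine absurd (d1.eq_of_associated hg (associated_of_dvd_dvd (dvd_gcd h1 d2) ?_)) hne
        refine (h2.2.of_isCoprime_of_dvd_left hgk).dvd_of_dvd_mul_right ?_
        rwa [mul_quo h1]
      · rw [mul_zero]
      · rfl
  · rw [uA, if_neg fun h => hc h.1]
    refine (sum_eq_zero fun d hd => ?_).symm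
    obtain ⟨d1, d2⟩ := (mem_pdiv hk).1 hd
    split_ifs with h1 h2
    · rw [mu_of_not fun hs => hc ?_, zero_mul, zero_mul]
      rw [← mul_quo h1]
      exact SQ.mul ⟨d1, hs⟩ h2.1 (h2.2.of_isCoprime_of_dvd_left d2)
    · rw [mul_zero]
    · rfl

lemma three (hν : IsNu Q ν) {k : O} (hk : k ≠ 0) {X : ℝ} (hX : 0 < X) (t : ℝ) :
    ‖A ν 1 1 X t‖ ≤ ∑ d ∈ pdiv k, ‖A ν 1 (k ^ 6) (X / N d) t‖ := by
  have hmn : ∀ d, ‖mu d * ν d‖ ≤ 1 := fun d => norm_mul_le_one (norm_mu_le d) (hν.le d)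
  rw [A, Wsum]
  simp_rw [uA_split hν hk, sum_mul]
  rw [Summable.tsum_finsetSum fun d _ => summable_Wc (fun c => ?_) hX t]
  · refine norm_sum_le_of_le _ fun d hd => ?_
    have hd0 := ((mem_pdiv hk).1 hd).1.ne_zero
    have := Wsum_dvd hd0 (z := mu d * ν d) (v := uA ν 1 (k ^ 6))
      (u := fun c => if d ∣ c then mu d * ν d * uA ν 1 (k ^ 6) (quo c d) else 0)
      (fun c hc => if_neg hc) (fun c => by rw [if_pos (dvd_mul_right d c), quo_mul hd0])
      (bd1_uA hν _ _).1 hX t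
    rw [Wsum] at this
    rw [this, norm_mul]
    exact mul_le_of_le_one_left (norm_nonneg _) (norm_coef (hmn d) hd0 t)
  · split_ifs
    · exact norm_mul_le_one (hmn d) ((bd1_uA hν _ _).2 _)
    · simp

end Rx

theorem rx : S_Rx :=
  ⟨fun _ _ _ m _ t hν he hX => Rx.one hν he m hX t,
    fun _ _ _ _ m _ t hν hp h1 hr hX => Rx.two hν hp h1 hr m hX t,
    fun _ _ _ _ t hν hk hX => Rx.three hν hk.ne_zero hX t⟩

end Pool.Agent.P.MP_26a8c3_nt.QB
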