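import Pool.Agent.P.MP_26a8c3_nt.QB.Bas

/-! The moment bound on the theta side. -/

namespace Pool.Agent.P.MP_26a8c3_nt.QB

open QO QA Finset
open scoped Classical ComplexConjugate

namespace SBP

lemma one_le_P {X z : ℝ} (hX : 1 ≤ X) (hz : 1 ≤ z) : 1 ≤ z * X ^ (1 - aa) :=
  one_le_mul_of_one_le_of_one_le hz (Real.one_le_rpow hX (by linarith [aa_lt]))

lemma rpow_le_pow {x s : ℝ} (hx : 1 ≤ x) (n : ℕ) (h : s ≤ n) : x ^ s ≤ x ^ n := by
  rw [← Real.rpow_natCast]; exact Real.rpow_le_rpow_of_exponent_le hx h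

lemma rpow_rpow_le {x s u : ℝ} (hx : 1 ≤ x) (h : s * u ≤ 1) : (x ^ s) ^ u ≤ x := by
  rw [← Real.rpow_mul (by linarith)]
  simpa using Real.rpow_le_rpow_of_exponent_le hx h

lemma R_le {X y z X₁ : ℝ} (hX : 1 ≤ X) (hy : 1 ≤ y) (h : X / y ≤ X₁) :
    (z * X ^ (1 - aa)) ^ 2 / X₁ ≤ z ^ 2 * y * X ^ (1 - 2 * aa) := by
  have h0 : 0 < X := by linarith
  have h1 : 0 < X / y := by positivity
  have e : (X ^ (1 - aa)) ^ 2 = X ^ (1 - 2 * aa) * X := by
    rw [← Real.rpow_natCast, ← Real.rpow_mul h0.le, ← Real.rpow_add_one h0.ne']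
    congr 1; push_cast; ring
  calc (z * X ^ (1 - aa)) ^ 2 / X₁ ≤ (z * X ^ (1 - aa)) ^ 2 / (X / y) := by gcongr
    _ = _ := by rw [mul_pow, e]; field_simp

lemma LL_le {X y z X₁ : ℝ} (hX : 1 ≤ X) (hy : 1 ≤ y) (hz : 1 ≤ z) (h : X / y ≤ X₁) :
    LL (z * X ^ (1 - aa)) ((z * X ^ (1 - aa)) ^ 2 / X₁) ≤ 2 * (z ^ 4 * y ^ 2 * X) := by
  have h0 : 0 < X := by linarith
  have h1 : 0 < X₁ := lt_of_lt_of_le (by positivity) h
  have hz0 : 0 < z := by linarith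
  have a1 : (z * X ^ (1 - aa)) ^ (6 / 5 : ℝ) ≤ z ^ 4 * y ^ 2 * X := by
    rw [Real.mul_rpow hz0.le (by positivity)]
    have b1 := rpow_le_pow (s := 6 / 5) hz 4 (by norm_num)
    have b2 := rpow_rpow_le (s := 1 - aa) (u := 6 / 5) hX (by norm_num [aa])
    have b3 : 1 ≤ y ^ 2 := one_le_pow₀ hy
    calc _ ≤ z ^ 4 * 1 * X := by rw [mul_one]; gcongr
      _ ≤ _ := by gcongr
  have a2 : ((z * X ^ (1 - aa)) ^ 2 / X₁) ^ (33 / 20 : ℝ) ≤ z ^ 4 * y ^ 2 * X := by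
    refine (Real.rpow_le_rpow (by positivity) (R_le hX hy h) (by norm_num)).trans ?_
    rw [Real.mul_rpow (by positivity) (by positivity), Real.mul_rpow (by positivity) (by positivity)]
    have b1 : (z ^ 2) ^ (33 / 20 : ℝ) ≤ z ^ 4 := by
      simpa [← pow_mul] using rpow_le_pow (s := 33 / 20) (one_le_pow₀ hz (n := 2)) 2 (by norm_num)
    have b2 := rpow_le_pow (s := 33 / 20) hy 2 (by norm_num)
    have b3 := rpow_rpow_le (s := 1 - 2 * aa) (u := 33 / 20) hX (by norm_num [aa])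
    gcongr
  unfold LL; linarith

lemma eps_le {X y z X₁ ε : ℝ} (hX : 1 ≤ X) (hy : 1 ≤ y) (hz : 1 ≤ z) (h : X / y ≤ X₁)
    (hε : 0 < ε) :
    (2 + z * X ^ (1 - aa) + (z * X ^ (1 - aa)) ^ 2 / X₁) ^ (min ε (1 / 2)) ≤ 4 * z * y * X ^ ε := by
  have h0 : 0 < X := by linarith
  have h1 : 0 < X₁ := lt_of_lt_of_le (by positivity) h
  have hz0 : 0 < z := by linarith
  have hm : 0 ≤ min ε (1 / 2) := le_min hε.le (by norm_num)
  have p1 : X ^ (1 - aa) ≤ X := by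
    simpa using Real.rpow_le_rpow_of_exponent_le hX (show 1 - aa ≤ 1 by linarith [aa_pos])
  have p2 : X ^ (1 - 2 * aa) ≤ X := by
    simpa using Real.rpow_le_rpow_of_exponent_le hX (show 1 - 2 * aa ≤ 1 by linarith [aa_pos])
  have q : 1 ≤ z * y := one_le_mul_of_one_le_of_one_le hz hy
  have a1 : 2 + z * X ^ (1 - aa) + (z * X ^ (1 - aa)) ^ 2 / X₁ ≤ (4 * z * y) ^ 2 * X := by
    have b1 : (z * X ^ (1 - aa)) ^ 2 / X₁ ≤ (z * y) ^ 2 * X := by
      refine (R_le hX hy h).trans ?_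
      rw [mul_pow]
      gcongr
      nlinarith
    have b2 : z * X ^ (1 - aa) ≤ (z * y) ^ 2 * X := by
      gcongr
      nlinarith
    have b3 : 1 ≤ (z * y) ^ 2 * X := one_le_mul_of_one_le_of_one_le (one_le_pow₀ q) hX
    nlinarith
  refine (Real.rpow_le_rpow (by positivity) a1 hm).trans ?_
  rw [Real.mul_rpow (by positivity) h0.le]
  have b1 : ((4 * z * y) ^ 2) ^ (min ε (1 / 2)) ≤ 4 * z * y := by
    rw [← Real.rpow_natCast]
    exact rpow_rpow_le (by nlinarith) (by push_cast; linarith [min_le_right ε (1 / 2)])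
  have b2 := Real.rpow_le_rpow_of_exponent_le hX (min_le_left ε (1 / 2))
  gcongr

/-- powers of the small scale -/
lemma small {X X₁ n s : ℝ} (hX : 1 ≤ X) (h1 : 0 < X₁) (h : X₁ ≤ Real.exp 7 * X)
    (hn : Real.exp 6 ≤ n) (hs : 1 + aa ≤ s) :
    (X₁ / n ^ 3) ^ s ≤ Real.exp 14 * n ^ (-(3 * (1 + aa))) * X ^ s := by
  have hn0 : 0 < n := lt_of_lt_of_le (Real.exp_pos _) hn
  have ha := aa_pos
  have h3 : Real.exp 7 ≤ n ^ 3 := by
    calc Real.exp 7 ≤ Real.exp 6 ^ 3 := by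
          rw [← Real.exp_nat_mul, Real.exp_le_exp]; norm_num
      _ ≤ _ := by gcongr
  have hw : Real.exp 7 / n ^ 3 ≤ 1 := (div_le_one (by positivity)).2 h3
  calc (X₁ / n ^ 3) ^ s ≤ (Real.exp 7 / n ^ 3 * X) ^ s := by
        refine Real.rpow_le_rpow (by positivity) ?_ (by linarith)
        rw [div_mul_eq_mul_div]; gcongr
    _ = (Real.exp 7 / n ^ 3) ^ s * X ^ s := Real.mul_rpow (by positivity) (by linarith)
    _ ≤ (Real.exp 7 / n ^ 3) ^ (1 + aa) * X ^ s := by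
        have := Real.rpow_le_rpow_of_exponent_ge (by positivity) hw hs
        gcongr
    _ ≤ _ := by
        rw [Real.div_rpow (by positivity) (by positivity), ← Real.exp_mul, ← Real.rpow_natCast,
          ← Real.rpow_mul hn0.le, Real.rpow_neg hn0.le, div_eq_mul_inv]
        push_cast
        gcongr
        linarith [aa_lt]

end SBP

open SBP

theorem v2 (hV : S_V) {Q : O} (h0 : Q ≠ 0) (hQ : 36 ∣ Q) : S_V2 Q := by
  intro ε hε
  obtain ⟨C, hC, h⟩ := hV Q h0 hQ (min ε (1 / 2)) (lt_min hε (by norm_num))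
  refine ⟨C * (8 * Real.exp 7), by positivity, fun ν hν X y z X₁ t hX hy hz h1 h2 s hs => ?_⟩
  have hX0 : 0 < X := by linarith
  have hX1 : 0 < X₁ := lt_of_lt_of_le (by positivity) h1
  refine (h ν hν _ X₁ t s (one_le_P hX hz) hX1 hs).trans ?_
  have a1 := eps_le hX hy hz h1 hε
  have a2 := LL_le hX hy hz h1
  have a3 : 0 ≤ LL (z * X ^ (1 - aa)) ((z * X ^ (1 - aa)) ^ 2 / X₁) := by unfold LL; positivity
  have a4 : y ^ 3 ≤ y ^ 4 := pow_le_pow_right₀ hy (by norm_num)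
  calc _ ≤ C * (1 + |t|) ^ 16 * (4 * z * y * X ^ ε) * (Real.exp 7 * X) *
        (2 * (z ^ 4 * y ^ 2 * X)) := by gcongr
    _ = C * (8 * Real.exp 7) * (1 + |t|) ^ 16 * X ^ (2 + ε) * z ^ 5 * y ^ 3 := by
        rw [Real.rpow_add hX0, Real.rpow_two]; ring
    _ ≤ _ := by gcongr

theorem sb {Q : O} (hQ : 36 ∣ Q) (hv : S_V2 Q) (hc : S_Cube2) (ha : S_IIIa) (hb : S_IIIb) :
    S_SB Q := by
  intro ε hε
  obtain ⟨C1, hC1, hv⟩ := hv ε hε
  obtain ⟨Cc, hCc, hc⟩ := hc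
  obtain ⟨Ca, hCa, ha⟩ := ha
  obtain ⟨Cb, hCb, hb⟩ := hb ε hε
  refine ⟨Cc * (C1 + Ca * (1 + 2 * Cb) * Real.exp 14), by positivity,
    fun Z Bd X y D hH hBd hX hZ hy hD ν hν z X₁ t hz h1 h2 => ?_⟩
  have hX0 : 0 < X := by linarith
  have hX1 : 0 < X₁ := lt_of_lt_of_le (by positivity) h1
  have hD1 : 1 ≤ D := (Real.one_le_exp (by norm_num)).trans hD
  have hP := one_le_P hX hz
  have hP0 : 0 < z * X ^ (1 - aa) := by linarith
  have hZ1 : 1 ≤ Z := hX.trans hZ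
  have hT : 1 ≤ (1 + |t|) ^ 16 := one_le_pow₀ (by linarith [abs_nonneg t])
  have hZe : 1 ≤ Z ^ ε := Real.one_le_rpow hZ1 hε.le
  refine (hc Q ν _ X₁ t D (C1 * (1 + |t|) ^ 16 * X ^ (2 + ε) * z ^ 5 * (y * D ^ 3) ^ 4)
    (Ca * (1 + 2 * Cb) * Real.exp 14 * (Z ^ ε * Bd * (1 + |t|) ^ 16) * (z * X ^ (2 + ka)))
    hν hX1 hD1 (by positivity) (by positivity) (fun d hd hdD => ?_) fun d hd hdD => ?_).mono
      hP0 le_rfl ?_
  · have hn := one_le_N hd.ne_zero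
    refine hv ν hν X _ z _ t hX (one_le_mul_of_one_le_of_one_le hy (one_le_pow₀ hD1)) hz ?_ ?_
    · rw [← div_div]; gcongr
    · exact (div_le_self hX1.le (one_le_pow₀ hn)).trans h2
  · have hn : Real.exp 6 ≤ (N d : ℝ) := hD.trans hdD.le
    have hn0 : (0 : ℝ) < N d := lt_of_lt_of_le (Real.exp_pos _) hn
    set n : ℝ := (N d : ℝ)
    have hx : 0 < X₁ / n ^ 3 := by positivity
    have h9 : Real.exp 9 * (X₁ / n ^ 3) ≤ Z := by
      have h3 : Real.exp 9 * Real.exp 7 ≤ n ^ 3 := by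
        calc _ ≤ Real.exp 6 ^ 3 := by
              rw [← Real.exp_nat_mul, ← Real.exp_add, Real.exp_le_exp]; norm_num
          _ ≤ _ := by gcongr
      rw [← mul_div_assoc, div_le_iff₀ (by positivity)]
      calc Real.exp 9 * X₁ ≤ Real.exp 9 * (Real.exp 7 * X) := by gcongr
        _ = X * (Real.exp 9 * Real.exp 7) := by ring
        _ ≤ _ := by gcongr
    refine (ha Q ν _ _ t _ hQ hν hP0 hx fun ν' hν' s T hs hT' =>
      hb Q ν' Z Bd _ _ t s T hν' hH (by linarith) hZ1 hP hx h9 hs hT').ml0.mono hP0 le_rfl ?_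
    have s1 := small hX hX1 h2 hn (s := 1 + aa + ka) (by linarith [ka_pos])
    have s2 := small hX hX1 h2 hn (s := 2 + ka) (by linarith [ka_pos, aa_lt])
    set x := X₁ / n ^ 3
    set u := Real.exp 14 * n ^ (-(3 * (1 + aa))) with hu
    have hu0 : 0 ≤ u := by positivity
    have e1 : z * X ^ (1 - aa) * X ^ (1 + aa + ka) = z * X ^ (2 + ka) := by
      rw [mul_assoc, ← Real.rpow_add hX0]; congr 2; ring
    have t1 : z * X ^ (1 - aa) * x ^ (1 + aa + ka) ≤ u * (z * X ^ (2 + ka)) := by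
      calc _ ≤ z * X ^ (1 - aa) * (u * X ^ (1 + aa + ka)) := by gcongr
        _ = _ := by rw [← e1]; ring
    have t2 : x ^ (2 + ka) ≤ u * (z * X ^ (2 + ka)) := by
      refine s2.trans (mul_le_mul_of_nonneg_left ?_ hu0)
      exact le_mul_of_one_le_left (by positivity) hz
    have hK : 1 ≤ Z ^ ε * Bd * (1 + |t|) ^ 16 :=
      one_le_mul_of_one_le_of_one_le (one_le_mul_of_one_le_of_one_le hZe hBd) hT
    set K := Z ^ ε * Bd * (1 + |t|) ^ 16 with hKd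
    set L := u * (z * X ^ (2 + ka)) with hL
    have hL0 : 0 ≤ L := by positivity
    have e2 : Ca * (z * X ^ (1 - aa)) * (x ^ (1 + aa + ka) + Cb * Z ^ ε * Bd * (1 + |t|) ^ 16 *
        ((x ^ 2 / (z * X ^ (1 - aa)) + x ^ (1 + aa)) * x ^ ka)) =
        Ca * (z * X ^ (1 - aa) * x ^ (1 + aa + ka) +
          Cb * K * (x ^ (2 + ka) + z * X ^ (1 - aa) * x ^ (1 + aa + ka))) := by
      rw [Real.rpow_add hx (1 + aa) ka, Real.rpow_add hx 2 ka, Real.rpow_two, hKd]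
      field_simp
    rw [e2]
    calc _ ≤ Ca * (K * L + Cb * K * (L + L)) := by
          have t3 := t1.trans (le_mul_of_one_le_left hL0 hK)
          exact mul_le_mul_of_nonneg_left (add_le_add t3
            (mul_le_mul_of_nonneg_left (add_le_add t2 t1) (by positivity))) hCa.le
      _ = _ := by rw [hL, hu]; ring
  · have a1 : X ^ (2 + ε) ≤ X ^ 2 * Z ^ ε := by
      rw [Real.rpow_add hX0, Real.rpow_two]; gcongr
    have a2 : z ≤ z ^ 5 := le_self_pow₀ hz (by norm_num)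
    set K2 := Ca * (1 + 2 * Cb) * Real.exp 14
    have hK2 : 0 ≤ K2 := by positivity
    calc _ ≤ Cc * (D ^ 3 * ((C1 + K2) * (1 + |t|) ^ 16 * (X ^ 2 * Z ^ ε) * z ^ 5 * (y * D ^ 3) ^ 4) +
          D ^ (-(1 / 2 : ℝ)) * ((C1 + K2) * (Z ^ ε * Bd * (1 + |t|) ^ 16) *
            (z ^ 5 * X ^ (2 + ka)))) := by
          gcongr <;> linarith
      _ = _ := by ring

end Pool.Agent.P.MP_26a8c3_nt.QB
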