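import Pool.Agent.P.MP_26a8c3_nt.QB.Bas

/-! Pulling the common divisor out of a double sum. -/

namespace Pool.Agent.P.MP_26a8c3_nt.QB

open QO QA Finset
open scoped Classical ComplexConjugate

namespace SW

/-- the summand indexed by the pair and the common divisor -/
noncomputable def gg (F : O × O → ℂ) (κ : O → ℂ) (m : O) (x : O × O) (e : O) : ℂ :=
  if SQ e then κ e * (F x * (ps e x.1 m * conj (ps e x.2 m))) else 0

variable {F : O × O → ℂ} {κ : O → ℂ} {m e : O} {x : O × O} {K : ℝ}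

lemma mem_cd {a b : O} (ha : a ≠ 0) : e ∈ cd a b ↔ Primary e ∧ e ∣ a ∧ e ∣ b := by
  rw [cd, mem_filter, mem_pdiv ha, and_assoc]

lemma sq_of_mem {a b : O} (ha : SQ a) (he : e ∈ cd a b) : SQ e :=
  ⟨((mem_cd ha.ne_zero).1 he).1, ha.2.squarefree_of_dvd ((mem_cd ha.ne_zero).1 he).2.1⟩

lemma gg_zero (hF : F x ≠ 0 → SQ x.1 ∧ SQ x.2) (he : e ∉ cd x.1 x.2) : gg F κ m x e = 0 := by
  unfold gg
  split_ifs with h
  · by_cases h0 : F x = 0
    · simp [h0]
    rw [mem_cd (hF h0).1.ne_zero] at he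
    by_cases h1 : e ∣ x.1
    · have h2 : ¬e ∣ x.2 := fun h2 => he ⟨h.1, h1, h2⟩
      simp [ps, h2]
    · simp [ps, h1]
  · rfl

lemma tsum_gg (hF : F x ≠ 0 → SQ x.1 ∧ SQ x.2) : ∑' e, gg F κ m x e =
    F x * ∑ e ∈ cd x.1 x.2, κ e * (psi (quo x.1 e) m * conj (psi (quo x.2 e) m)) := by
  rw [tsum_eq_sum fun e he => gg_zero hF he, mul_sum]
  refine sum_congr rfl fun e he => ?_
  by_cases h0 : F x = 0
  · simp [gg, h0]
  have h1 := (mem_cd (hF h0).1.ne_zero).1 he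
  rw [gg, if_pos (sq_of_mem (hF h0).1 he), ps, ps, if_pos h1.2.1, if_pos h1.2.2]
  ring

lemma norm_gg_le (hF : F x ≠ 0 → SQ x.1 ∧ SQ x.2) (hκ : ∀ e, SQ e → ‖κ e‖ ≤ K * (N e : ℝ) ^ 3)
    (he : e ∈ cd x.1 x.2) : ‖gg F κ m x e‖ ≤ |K| * (N x.1 : ℝ) ^ 3 * ‖F x‖ := by
  by_cases h0 : F x = 0
  · simp [gg, h0]
  have h1 := (mem_cd (hF h0).1.ne_zero).1 he
  have h2 := sq_of_mem (hF h0).1 he
  have h3 : (N e : ℝ) ≤ N x.1 := by exact_mod_cast N_le_of_dvd h1.2.1 (hF h0).1.ne_zero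
  rw [gg, if_pos h2, norm_mul, norm_mul, norm_mul, Complex.norm_conj]
  refine mul_le_mul ((hκ e h2).trans ?_) (mul_le_of_le_one_right (norm_nonneg _)
    (mul_le_one₀ (norm_ps_le _ _ _) (norm_nonneg _) (norm_ps_le _ _ _))) (by positivity)
    (by positivity)
  gcongr
  exact le_abs_self K

lemma summable_gg (hb : Base) (hs : Summable fun x : O × O => ‖F x‖ * (N x.1 : ℝ) ^ 4)
    (hF : ∀ x, F x ≠ 0 → SQ x.1 ∧ SQ x.2) (hκ : ∀ e, SQ e → ‖κ e‖ ≤ K * (N e : ℝ) ^ 3) :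
    Summable (Function.uncurry (gg F κ m)) := by
  obtain ⟨C, hC, hd⟩ := hb.dv_le
  refine Summable.of_norm ((summable_prod_of_nonneg fun _ => norm_nonneg _).2 ⟨fun x => ?_, ?_⟩)
  · exact summable_of_ne_finset_zero (s := cd x.1 x.2) fun e he => by
      simp [gg_zero (hF x) he]
  refine Summable.of_nonneg_of_le (fun x => tsum_nonneg fun _ => norm_nonneg _) (fun x => ?_)
    (hs.mul_left (C * |K|))
  simp only [Function.uncurry_apply_pair]
  rw [tsum_eq_sum (s := cd x.1 x.2) fun e he => by simp [gg_zero (hF x) he]]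
  refine (sum_le_card_nsmul _ _ _ fun e he => norm_gg_le (hF x) hκ he).trans ?_
  by_cases h0 : F x = 0
  · simp [h0]
  have h1 : ((cd x.1 x.2).card : ℝ) ≤ C * N x.1 :=
    le_trans (by unfold dv; exact_mod_cast card_filter_le _ _) (hd _ (hF x h0).1.ne_zero)
  rw [nsmul_eq_mul]
  calc _ ≤ C * N x.1 * (|K| * (N x.1 : ℝ) ^ 3 * ‖F x‖) := by gcongr
    _ = _ := by ring

lemma norm_inner (e : O) : ‖∑' x, gg F κ m x e‖ = if SQ e then
    ‖κ e‖ * ‖∑' x : O × O, F x * (ps e x.1 m * conj (ps e x.2 m))‖ else 0 := by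
  unfold gg
  split_ifs
  · rw [tsum_mul_left, norm_mul]
  · simp

end SW

open SW in
theorem sw (hb : Base) : S_SW := by
  intro s wt F κ K b hw hs hF hκ hT
  have S : ∀ m ∈ s, Summable (Function.uncurry (gg (F m) (κ m) m)) := fun m hm =>
    summable_gg hb (hs m hm) (hF m hm) (hκ m hm)
  have S2 : ∀ m ∈ s, Summable fun e => wt m * ‖∑' x, gg (F m) (κ m) m x e‖ := fun m hm =>
    (S m hm).prod_symm.prod.norm.mul_left _
  calc _ ≤ ∑ m ∈ s, ∑' e, wt m * ‖∑' x, gg (F m) (κ m) m x e‖ := by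
        refine sum_le_sum fun m hm => ?_
        rw [← tsum_congr fun x => tsum_gg (hF m hm x), ← (S m hm).tsum_comm, tsum_mul_left]
        exact mul_le_mul_of_nonneg_left
          (norm_tsum_le_tsum_norm (S m hm).prod_symm.prod.norm) (hw m hm)
    _ = ∑' e, ∑ m ∈ s, wt m * ‖∑' x, gg (F m) (κ m) m x e‖ := (Summable.tsum_finsetSum S2).symm
    _ ≤ b := by
        refine (summable_sum S2).tsum_le_of_sum_le fun T => ?_
        refine le_trans (le_of_eq ?_) (hT (T.filter SQ) fun e he => (mem_filter.1 he).2)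
        rw [sum_comm]
        refine sum_congr rfl fun m _ => ?_
        rw [sum_filter]
        refine sum_congr rfl fun e _ => ?_
        rw [norm_inner]
        split_ifs
        · ring
        · simp

end Pool.Agent.P.MP_26a8c3_nt.QB
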