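import Pool.Agent.P.MP_26a8c3_nt.QB.Bas

/-! Splitting the square of the Moebius side sum into head terms and a tail term. -/

namespace Pool.Agent.P.MP_26a8c3_nt.QB

open QO QA Finset
open scoped Classical ComplexConjugate

namespace Split

/-- the tail coefficient -/
noncomputable def kap (E : ℝ) (e : O) : ℂ :=
  ∑ d ∈ (pdiv e).filter (fun d => E < (N d : ℝ)), mu (quo e d)

lemma norm_kap (E : ℝ) (e : O) : ‖kap E e‖ ≤ dv e := by
  refine (norm_sum_le_of_le _ fun d _ => norm_mu_le (quo e d)).trans ?_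
  rw [sum_const, nsmul_eq_mul, mul_one, dv]
  exact_mod_cast card_filter_le _ _

lemma kap_zero {E : ℝ} {e : O} (h : (N e : ℝ) ≤ E) : kap E e = 0 := by
  refine sum_eq_zero fun d hd => ?_
  obtain ⟨h1, h2⟩ := mem_filter.1 hd
  have := mem_ball.1 (mem_filter.1 h1).1
  exact absurd h2 (not_lt.2 (this.trans h))

lemma mem_cd {a b e : O} (ha : a ≠ 0) : e ∈ cd a b ↔ Primary e ∧ e ∣ a ∧ e ∣ b := by
  rw [cd, mem_filter, mem_pdiv ha, and_assoc]

lemma sq_quo {a e : O} (ha : SQ a) (he : Primary e) (h : e ∣ a) : SQ (quo a e) :=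
  SQ.right (a := e) (by rwa [mul_quo h]) he

lemma sq_dvd {a e : O} (ha : SQ a) (he : Primary e) (h : e ∣ a) : SQ e :=
  ⟨he, ha.2.squarefree_of_dvd h⟩

lemma dvd_quo {a d e : O} (hd : d ≠ 0) (h : d ∣ a) : e ∣ quo a d ↔ d * e ∣ a := by
  conv_rhs => rw [← mul_quo h]
  exact (mul_dvd_mul_iff_left hd).symm

lemma quo_quo {a d e : O} (hd : d ≠ 0) (he : e ≠ 0) (h : d * e ∣ a) :
    quo (quo a d) e = quo a (d * e) := by
  obtain ⟨c, rfl⟩ := h
  rw [quo_mul (mul_ne_zero hd he), mul_assoc, quo_mul hd, quo_mul he]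

lemma point (hA : Alg) (hb : Base) (E : ℝ) {a b : O} (ha : SQ a) (hb' : SQ b) (m : O) :
    psi a m * conj (psi b m) =
      ∑ e ∈ (ball E).filter SQ, jj e m * (if e ∣ a ∧ e ∣ b then KK (quo a e) (quo b e) m else 0) +
      ∑ e ∈ cd a b, kap E e * jj e m * (psi (quo a e) m * conj (psi (quo b e) m)) := by
  have a0 := ha.ne_zero
  rw [hA.k.1 a b m ha hb', ← cd, ← sum_filter_add_sum_filter_not _ fun e => (N e : ℝ) ≤ E]
  congr 1
  · simp_rw [mul_ite, mul_zero]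
    rw [← sum_filter]
    refine sum_congr ?_ fun _ _ => rfl
    ext e
    simp only [mem_filter, mem_cd a0, mem_ball]
    exact ⟨fun h => ⟨⟨h.2, sq_dvd ha h.1.1 h.1.2.1⟩, h.1.2⟩, fun h => ⟨⟨h.1.2.1, h.2⟩, h.1.1⟩⟩
  · have e1 : ∀ d ∈ (cd a b).filter (fun e => ¬ (N e : ℝ) ≤ E),
        jj d m * KK (quo a d) (quo b d) m = ∑ e ∈ cd (quo a d) (quo b d),
          jj d m * (mu e * jj e m * (psi (quo (quo a d) e) m * conj (psi (quo (quo b d) e) m))) := by
      intro d hd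
      obtain ⟨h1, h2, h3⟩ := (mem_cd a0).1 (mem_filter.1 hd).1
      rw [hA.k.2.1 _ _ m (sq_quo ha h1 h2) (sq_quo hb' h1 h3), ← cd, mul_sum]
    rw [sum_congr rfl e1]
    simp_rw [kap, sum_mul]
    rw [sum_sigma', sum_sigma']
    refine sum_nbij' (fun x => ⟨x.1 * x.2, x.1⟩) (fun x => ⟨x.2, quo x.1 x.2⟩) ?_ ?_ ?_ ?_ ?_
    · rintro ⟨d, e⟩ hx
      simp only [mem_sigma, mem_filter] at hx ⊢
      obtain ⟨⟨h0, hE⟩, he⟩ := hx
      obtain ⟨h1, h2, h3⟩ := (mem_cd a0).1 h0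
      obtain ⟨h4, h5, h6⟩ := (mem_cd (sq_quo ha h1 h2).ne_zero).1 he
      exact ⟨(mem_cd a0).2 ⟨h1.mul h4, (dvd_quo h1.ne_zero h2).1 h5, (dvd_quo h1.ne_zero h3).1 h6⟩,
        (mem_pdiv (h1.mul h4).ne_zero).2 ⟨h1, dvd_mul_right _ _⟩, not_le.1 hE⟩
    · rintro ⟨e, d⟩ hx
      simp only [mem_sigma, mem_filter] at hx ⊢
      obtain ⟨h0, hd, hE⟩ := hx
      obtain ⟨h1, h2, h3⟩ := (mem_cd a0).1 h0
      obtain ⟨h4, h5⟩ := (mem_pdiv h1.ne_zero).1 hd
      refine ⟨⟨(mem_cd a0).2 ⟨h4, h5.trans h2, h5.trans h3⟩, not_le.2 hE⟩,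
        (mem_cd (sq_quo ha h4 (h5.trans h2)).ne_zero).2 ⟨(sq_quo (sq_dvd ha h1 h2) h4 h5).1, ?_, ?_⟩⟩
      · rwa [dvd_quo h4.ne_zero (h5.trans h2), mul_quo h5]
      · rwa [dvd_quo h4.ne_zero (h5.trans h3), mul_quo h5]
    · rintro ⟨d, e⟩ hx
      simp only [mem_sigma, mem_filter] at hx
      simp only [quo_mul ((mem_cd a0).1 hx.1.1).1.ne_zero]
    · rintro ⟨e, d⟩ hx
      simp only [mem_sigma, mem_filter] at hx
      simp only [mul_quo ((mem_pdiv ((mem_cd a0).1 hx.1).1.ne_zero).1 hx.2.1).2]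
    · rintro ⟨d, e⟩ hx
      simp only [mem_sigma, mem_filter] at hx
      obtain ⟨⟨h0, -⟩, he⟩ := hx
      obtain ⟨h1, h2, h3⟩ := (mem_cd a0).1 h0
      obtain ⟨h4, h5, h6⟩ := (mem_cd (sq_quo ha h1 h2).ne_zero).1 he
      have h7 := (dvd_quo h1.ne_zero h2).1 h5
      have h8 := (dvd_quo h1.ne_zero h3).1 h6
      have h9 := sq_dvd ha (h1.mul h4) h7
      simp only
      rw [quo_quo h1.ne_zero h4.ne_zero h7, quo_quo h1.ne_zero h4.ne_zero h8, quo_mul h1.ne_zero,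
        hb.jj_mul d e m (h9.left h1) (h9.right h1) h9.coprime]
      ring

lemma sq_of_al {ν : O → ℂ} {c : O} (h : al ν c ≠ 0) : SQ c := by
  by_contra hc; exact h (if_neg hc)

lemma key {f : O → ℂ} (h0 : ∀ c, f c ≠ 0 → SQ c) (h1 : Summable fun c => ‖f c‖ * (N c : ℝ) ^ 1)
    (h2 : Summable fun c => ‖f c‖) (g : O × O → ℂ)
    (hg : ∀ x : O × O, SQ x.1 → SQ x.2 → ‖g x‖ ≤ N x.1) :
    Summable fun x : O × O => f x.1 * conj (f x.2) * g x := by
  have hM := h1.mul_of_nonneg h2 (fun _ => by positivity) fun _ => norm_nonneg _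
  refine hM.of_norm_bounded fun x => ?_
  by_cases h3 : f x.1 = 0
  · simp [h3]
  by_cases h4 : f x.2 = 0
  · simp [h4]
  rw [norm_mul, norm_mul, Complex.norm_conj, pow_one, mul_right_comm]
  have := hg x (h0 _ h3) (h0 _ h4)
  gcongr

lemma main (hA : Alg) (hb : Base) (E : ℝ) (m : O) {f : O → ℂ} (h0 : ∀ c, f c ≠ 0 → SQ c)
    (h1 : Summable fun c => ‖f c‖ * (N c : ℝ) ^ 1) (h2 : Summable fun c => ‖f c‖) :
    ∑' x : O × O, f x.1 * conj (f x.2) * (psi x.1 m * conj (psi x.2 m)) =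
      ∑ e ∈ (ball E).filter SQ, jj e m * ∑' x : O × O, f x.1 * conj (f x.2) *
        (if e ∣ x.1 ∧ e ∣ x.2 then KK (quo x.1 e) (quo x.2 e) m else 0) +
      ∑' x : O × O, f x.1 * conj (f x.2) * ∑ e ∈ cd x.1 x.2,
        kap E e * jj e m * (psi (quo x.1 e) m * conj (psi (quo x.2 e) m)) := by
  have s0 := key h0 h1 h2 (fun x => psi x.1 m * conj (psi x.2 m)) fun x h1 _ =>
    (norm_mul_le_one (norm_psi_le _ _)
      (by rw [Complex.norm_conj]; exact norm_psi_le _ _)).trans (one_le_N h1.ne_zero)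
  have s1 : ∀ e ∈ (ball E).filter SQ, Summable fun x : O × O => jj e m * (f x.1 * conj (f x.2) *
      if e ∣ x.1 ∧ e ∣ x.2 then KK (quo x.1 e) (quo x.2 e) m else 0) := fun e he => by
    refine Summable.mul_left _ (key h0 h1 h2 _ fun x h1 h2 => ?_)
    have hp := (mem_filter.1 he).2.1
    split_ifs with h
    · refine (hA.k.2.2.2.2.1 _ _ m (sq_quo h1 hp h.1) (sq_quo h2 hp h.2)).trans ?_
      exact_mod_cast N_le_of_dvd (Dvd.intro_left _ (mul_quo h.1)) h1.ne_zero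
    · simp
  have e0 : ∀ x : O × O, f x.1 * conj (f x.2) * ∑ e ∈ cd x.1 x.2,
      kap E e * jj e m * (psi (quo x.1 e) m * conj (psi (quo x.2 e) m)) =
      f x.1 * conj (f x.2) * (psi x.1 m * conj (psi x.2 m)) - ∑ e ∈ (ball E).filter SQ, jj e m *
        (f x.1 * conj (f x.2) *
          if e ∣ x.1 ∧ e ∣ x.2 then KK (quo x.1 e) (quo x.2 e) m else 0) := fun x => by
    by_cases h3 : f x.1 = 0
    · simp only [h3, zero_mul, mul_zero, sum_const_zero, sub_zero]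
    by_cases h4 : f x.2 = 0
    · simp only [h4, map_zero, zero_mul, mul_zero, sum_const_zero, sub_zero]
    rw [point hA hb E (h0 _ h3) (h0 _ h4) m, mul_add, mul_sum ((ball E).filter SQ),
      sum_congr rfl fun e _ => mul_left_comm (f x.1 * conj (f x.2)) (jj e m) _, add_sub_cancel_left]
  rw [tsum_congr e0, s0.tsum_sub (summable_sum s1), Summable.tsum_finsetSum s1,
    sum_congr rfl fun e _ => tsum_mul_left, add_sub_cancel]

end Split

open Split in
theorem split (hA : Alg) (hb : Base) : S_Split := by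
  intro E
  refine ⟨kap E, fun e _ => norm_kap E e, fun e => kap_zero, fun Q ν m X t hν hX => ?_⟩
  have h := main hA hb E m (f := fun c => al ν c * W X t (nr c))
    (fun c hc => sq_of_al (left_ne_zero_of_mul hc)) (summable_Wn (bd1_al hν).2 hX t 1)
    (summable_W1 (bd1_al hν).2 hX t)
  rw [A, Wsum, norm_sq_tsum (summable_W1 (bd1_uA hν 1 m).2 hX t)]
  refine Eq.trans (tsum_congr fun x => ?_) h
  simp only [uA_one, map_mul]
  ring

end Pool.Agent.P.MP_26a8c3_nt.QB
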