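import Pool.Agent.P.MP_26a8c3_nt.QB.Bas

/-! The tail sum of the bootstrap. -/

namespace Pool.Agent.P.MP_26a8c3_nt.QB

open QO QA Finset
open scoped Classical ComplexConjugate

namespace Tail

lemma uA_mul (ν : O → ℂ) {f m : O} (r : O) (h : f ∣ m) : uA ν (f * r) m = uA ν r m := by
  funext c
  unfold uA
  by_cases h1 : SQ c ∧ IsCoprime c (f * r)
  · rw [if_pos h1, if_pos ⟨h1.1, h1.2.of_mul_right_right⟩]
  · rw [if_neg h1]
    split_ifs with h2
    · rw [(psi_eq_zero h2.1.ne_zero).2 fun e =>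
        h1 ⟨h2.1, (e.of_isCoprime_of_dvd_left h).symm.mul_right h2.2⟩, mul_zero]
    · rfl

lemma mem_R {T : Finset O} (hT : ∀ e ∈ T, SQ e) {r : O} :
    r ∈ T.biUnion pdiv ↔ Primary r ∧ ∃ e ∈ T, r ∣ e := by
  rw [mem_biUnion]
  exact ⟨fun ⟨e, h1, h2⟩ => ⟨((mem_pdiv (hT e h1).ne_zero).1 h2).1, e, h1,
    ((mem_pdiv (hT e h1).ne_zero).1 h2).2⟩,
    fun ⟨h0, e, h1, h2⟩ => ⟨e, h1, (mem_pdiv (hT e h1).ne_zero).2 ⟨h0, h2⟩⟩⟩

/-- sums over `e` and a divisor `f` as sums over the cofactor and `f` -/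
lemma regroup {T : Finset O} (hT : ∀ e ∈ T, SQ e) (m : O) (g : O → O → ℝ) :
    ∑ e ∈ T, ∑ f ∈ (pdiv e).filter (fun f => f ^ 2 ∣ m), g f (quo e f) =
      ∑ r ∈ T.biUnion pdiv, ∑ f ∈ (T.biUnion pdiv).filter (fun f => f ^ 2 ∣ m ∧ f * r ∈ T),
        g f r := by
  rw [sum_sigma', sum_sigma']
  refine sum_nbij' (fun x => ⟨quo x.1 x.2, x.2⟩) (fun y => ⟨y.2 * y.1, y.2⟩) ?_ ?_ ?_ ?_ ?_
  · rintro ⟨e, f⟩ h
    simp only [mem_sigma, mem_filter] at h ⊢
    obtain ⟨h1, h2, h3⟩ := h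
    obtain ⟨h4, h5⟩ := (mem_pdiv (hT e h1).ne_zero).1 h2
    have e1 : f * quo e f = e := mul_quo h5
    refine ⟨(mem_R hT).2 ⟨Primary.of_mul (by rw [e1]; exact (hT e h1).1) h4, e, h1,
      Dvd.intro_left _ e1⟩, (mem_R hT).2 ⟨h4, e, h1, h5⟩, h3, by rwa [e1]⟩
  · rintro ⟨r, f⟩ h
    simp only [mem_sigma, mem_filter] at h ⊢
    obtain ⟨-, h2, h3, h4⟩ := h
    exact ⟨h4, (mem_pdiv (hT _ h4).ne_zero).2 ⟨((mem_R hT).1 h2).1, dvd_mul_right _ _⟩, h3⟩
  · rintro ⟨e, f⟩ h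
    simp only [mem_sigma, mem_filter] at h
    have e1 : f * quo e f = e := mul_quo ((mem_pdiv (hT e h.1).ne_zero).1 h.2.1).2
    exact Sigma.ext e1 HEq.rfl
  · rintro ⟨r, f⟩ h
    simp only [mem_sigma, mem_filter] at h
    exact Sigma.ext (quo_mul ((mem_R hT).1 h.2.1).1.ne_zero r) HEq.rfl
  · rintro ⟨e, f⟩ -
    rfl

lemma min_le {X E n : ℝ} (hX : 0 < X) (hE : 0 < E) (hn : 0 < n) :
    X / n * min (X / n) (X / E) ^ ka ≤ X ^ (1 + ka) * E ^ (-(ka / 2)) * n ^ (-(1 + ka / 2)) := by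
  have k := ka_pos
  have h0 : 0 < min (X / n) (X / E) := lt_min (by positivity) (by positivity)
  have h1 : min (X / n) (X / E) ^ ka ≤ (X / n) ^ (ka / 2) * (X / E) ^ (ka / 2) := by
    rw [show ka = ka / 2 + ka / 2 by ring, Real.rpow_add h0, show (ka / 2 + ka / 2) / 2 = ka / 2 by ring]
    gcongr
    · exact min_le_left _ _
    · exact min_le_right _ _
  refine (mul_le_mul_of_nonneg_left h1 (by positivity)).trans (le_of_eq ?_)
  rw [Real.div_rpow hX.le hn.le, Real.div_rpow hX.le hE.le, Real.rpow_neg hE.le, Real.rpow_neg hn.le,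
    show 1 + ka = 1 + (ka / 2 + ka / 2) by ring, Real.rpow_add hX, Real.rpow_add hX,
    Real.rpow_add hn, Real.rpow_one, Real.rpow_one]
  field_simp

lemma sum_dv (hb : Base) : ∃ C : ℝ, 0 < C ∧ ∀ R : Finset O, (∀ r ∈ R, r ≠ 0) →
    ∑ r ∈ R, dv r ^ 3 * (N r : ℝ) ^ (-(1 + ka / 2)) ≤ C := by
  have k := ka_pos
  obtain ⟨D, hD, h⟩ := hb.dvb (ka / 12) (by positivity)
  have hs := summable_nr (σ := 1 + ka / 4) (by linarith)
  have h0 : ∀ c : O, 0 ≤ nr c ^ (-(1 + ka / 4)) := fun c => Real.rpow_nonneg (nr_pos c).le _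
  have h1 : 0 ≤ ∑' c : O, nr c ^ (-(1 + ka / 4)) := tsum_nonneg h0
  refine ⟨D ^ 3 * (1 + ∑' c : O, nr c ^ (-(1 + ka / 4))), by positivity, fun R hR => ?_⟩
  calc ∑ r ∈ R, dv r ^ 3 * (N r : ℝ) ^ (-(1 + ka / 2))
      ≤ ∑ r ∈ R, D ^ 3 * nr r ^ (-(1 + ka / 4)) := by
        refine sum_le_sum fun r hr => ?_
        have n := N_pos_real (hR r hr)
        have d := dv_nonneg r
        rw [nr_eq (hR r hr), show -(1 + ka / 4) = ka / 12 * (3 : ℕ) + -(1 + ka / 2) by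
          push_cast; ring, Real.rpow_add n, Real.rpow_mul_natCast n.le, ← mul_assoc, ← mul_pow]
        gcongr
        exact h r (hR r hr)
    _ ≤ _ := by
        rw [← mul_sum]
        have := hs.sum_le_tsum R fun c _ => h0 c
        gcongr
        linarith

end Tail

open Tail in
theorem tail (hb : Base) (hc : S_Cop) (hm : S_Max) : S_Tail := by
  obtain ⟨C, hC, hm⟩ := hm
  obtain ⟨D, hD, hd⟩ := sum_dv hb
  refine ⟨C * D, by positivity, fun Q ν s T wt X t E β hν hX hE hβ hs hT H => ?_⟩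
  have hT' : ∀ e ∈ T, SQ e := fun e he => (hT e he).1
  have E0 : 0 < E := by linarith
  set R := T.biUnion pdiv with hR
  have pR : ∀ r ∈ R, Primary r := fun r hr => ((mem_R hT').1 hr).1
  set g : O → O → O → ℝ := fun m f r =>
    dv r * (X / N r) * (wt m * dv m * (X / (N f * N r))⁻¹ * ‖A ν r m (X / (N f * N r)) t‖ ^ 2)
    with hg
  have s1 : ∀ m ∈ s, ∀ e ∈ T, wt m * (dv e * ‖jj e m‖) * ‖A ν e m (X / N e) t‖ ^ 2 ≤
      ∑ f ∈ (pdiv e).filter (fun f => f ^ 2 ∣ m), g m f (quo e f) := by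
    intro m hm e he
    obtain ⟨m0, w0⟩ := hs m hm
    have d0 := dv_nonneg e
    calc _ ≤ wt m * (dv e * ∑ f ∈ (pdiv e).filter (fun f => f ^ 2 ∣ m), (N f : ℝ)) *
          ‖A ν e m (X / N e) t‖ ^ 2 := by gcongr; exact norm_jj_le e m
      _ ≤ _ := by
        rw [mul_sum, mul_sum, sum_mul]
        refine sum_le_sum fun f hf => ?_
        obtain ⟨f1, f2⟩ := mem_filter.1 hf
        obtain ⟨f3, f4⟩ := (mem_pdiv (hT' e he).ne_zero).1 f1
        obtain ⟨r, rfl⟩ := f4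
        have r1 : Primary r := (hT' _ he).1.of_mul f3
        have fm : f ∣ m := (dvd_pow_self f two_ne_zero).trans f2
        have n1 := N_pos_real f3.ne_zero
        have n2 := N_pos_real r1.ne_zero
        have d1 : dv (f * r) ≤ dv m * dv r := (hb.dv_mul f r f3 r1).trans
          (mul_le_mul_of_nonneg_right (dv_mono fm m0) (dv_nonneg r))
        rw [quo_mul f3.ne_zero, hg, A, uA_mul ν r fm, map_mul, Nat.cast_mul]
        calc _ ≤ wt m * (dv m * dv r * N f) * ‖Wsum (uA ν r m) (X / (N f * N r)) t‖ ^ 2 := by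
              gcongr
          _ = _ := by simp only [A]; field_simp
  have s2 : ∀ r ∈ R, ∑ m ∈ s, ∑ f ∈ R.filter (fun f => f ^ 2 ∣ m ∧ f * r ∈ T), g m f r ≤
      C * β * X ^ (1 + ka) * E ^ (-(ka / 2)) * (dv r ^ 3 * (N r : ℝ) ^ (-(1 + ka / 2))) := by
    intro r hr
    obtain ⟨r1, e, he, r2⟩ := (mem_R hT').1 hr
    have sr : SQ r := ⟨r1, (hT' e he).2.squarefree_of_dvd r2⟩
    have n2 := N_pos_real r1.ne_zero
    have d2 := dv_nonneg r
    have key := hm ((s ×ˢ R).filter fun j => j.2 ^ 2 ∣ j.1 ∧ j.2 * r ∈ T)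
      (fun j => wt j.1 * dv j.1) (fun j => X / (N j.2 * N r)) (fun j => uA ν r j.1)
      (min (X / N r) (X / E)) t (dv r ^ 2 * β) (lt_min (by positivity) (by positivity))
      (by positivity) (fun j hj => ?_) fun X' t' h1 h2 h3 => ?_
    · rw [sum_filter, sum_product] at key
      simp only [← sum_filter] at key
      simp only [hg, ← mul_sum, A]
      calc _ ≤ dv r * (X / N r) * (C * (dv r ^ 2 * β) * min (X / N r) (X / E) ^ ka) := by gcongr
        _ = C * β * dv r ^ 3 * (X / N r * min (X / N r) (X / E) ^ ka) := by ring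
        _ ≤ C * β * dv r ^ 3 * (X ^ (1 + ka) * E ^ (-(ka / 2)) * (N r : ℝ) ^ (-(1 + ka / 2))) :=
            mul_le_mul_of_nonneg_left (Tail.min_le hX E0 n2) (by positivity)
        _ = _ := by ring
    · obtain ⟨j1, -, j3⟩ := mem_filter.1 hj
      obtain ⟨j4, j5⟩ := mem_product.1 j1
      have n1 := one_le_N (pR _ j5).ne_zero
      have n3 := (hT _ j3).2
      rw [map_mul, Nat.cast_mul] at n3
      refine ⟨mul_nonneg (hs _ j4).2 (dv_nonneg _), by positivity, le_min ?_ ?_, bd1_uA hν _ _⟩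
      · exact div_le_div_of_nonneg_left hX.le n2 (le_mul_of_one_le_left n2.le n1)
      · exact div_le_div_of_nonneg_left hX.le E0 n3
    · have h4 : X' ≤ Real.exp 2 * X / E := by
        rw [mul_div_assoc]
        exact h2.trans (mul_le_mul_of_nonneg_left (min_le_right _ _) (Real.exp_pos _).le)
      refine le_trans ?_ (hc Q ν s (fun m => wt m * dv m ^ 2) _ t' β hν
        (fun m hm => mul_nonneg (hs m hm).2 (sq_nonneg _)) hβ
        (fun ξ x1 x2 => H ξ t' x1 x2 h3) r sr X' h1 h4)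
      rw [sum_filter, sum_product]
      refine sum_le_sum fun m hm => ?_
      obtain ⟨m0, w0⟩ := hs m hm
      have d0 := dv_nonneg m
      have c1 : ((R.filter fun f => f ^ 2 ∣ m ∧ f * r ∈ T).card : ℝ) ≤ dv m := by
        refine Nat.cast_le.2 (card_le_card fun f hf => ?_)
        obtain ⟨f1, f2, -⟩ := mem_filter.1 hf
        exact (mem_pdiv m0).2 ⟨pR f f1, (dvd_pow_self f two_ne_zero).trans f2⟩
      simp only [← sum_filter, sum_const, nsmul_eq_mul]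
      calc _ ≤ dv m * (wt m * dv m * ‖Wsum (uA ν r m) X' t'‖ ^ 2) := by gcongr
        _ = _ := by rw [A]; ring
  calc _ ≤ ∑ m ∈ s, ∑ r ∈ R, ∑ f ∈ R.filter (fun f => f ^ 2 ∣ m ∧ f * r ∈ T), g m f r :=
        sum_le_sum fun m hm => (sum_le_sum (s1 m hm)).trans (regroup hT' m (g m)).le
    _ ≤ ∑ r ∈ R, C * β * X ^ (1 + ka) * E ^ (-(ka / 2)) *
          (dv r ^ 3 * (N r : ℝ) ^ (-(1 + ka / 2))) := by
        rw [sum_comm]; exact sum_le_sum s2
    _ ≤ C * β * X ^ (1 + ka) * E ^ (-(ka / 2)) * D := by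
        rw [← mul_sum]
        gcongr
        exact hd R fun r hr => (pR r hr).ne_zero
    _ = _ := by ring

end Pool.Agent.P.MP_26a8c3_nt.QB
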