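import Pool.Agent.P.MP_26a8c3_nt.QB.Base
import Pool.Agent.P.MP_26a8c3_nt.QB.Rx
import Pool.Agent.P.MP_26a8c3_nt.QB.CopMax
import Pool.Agent.P.MP_26a8c3_nt.QB.DL
import Pool.Agent.P.MP_26a8c3_nt.QB.Tail
import Pool.Agent.P.MP_26a8c3_nt.QB.Split
import Pool.Agent.P.MP_26a8c3_nt.QB.PT
import Pool.Agent.P.MP_26a8c3_nt.QB.SW
import Pool.Agent.P.MP_26a8c3_nt.QB.ITail
import Pool.Agent.P.MP_26a8c3_nt.QB.Head
import Pool.Agent.P.MP_26a8c3_nt.QB.I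
import Pool.Agent.P.MP_26a8c3_nt.QB.Cube1
import Pool.Agent.P.MP_26a8c3_nt.QB.Cube2
import Pool.Agent.P.MP_26a8c3_nt.QB.IIIa
import Pool.Agent.P.MP_26a8c3_nt.QB.IIIb
import Pool.Agent.P.MP_26a8c3_nt.QB.SB
import Pool.Agent.P.MP_26a8c3_nt.QB.Boot
import Pool.Agent.P.MP_26a8c3_nt.QB.Amp

/-! Assembly of the bootstrap layer. -/

namespace Pool.Agent.P.MP_26a8c3_nt.QB

open QO

theorem zz (hA : Alg) (hV : S_V) : S_Z := fun _ h0 hQ =>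
  have hb := base hA
  have ht := tail hb (cop hb rx) max
  amp hb rx (boot hQ
    (stepI hb (split hA hb) (itail hb rx ht (sw hb)) (head hA hb (pt hb) dl))
    (sb hQ (v2 hV h0 hQ) (cube2 hb (cube1 hA hb)) (iiia hA hb (pt hb) (sw hb)) (iiib hb rx ht dl))
    (triv hb))

end Pool.Agent.P.MP_26a8c3_nt.QB
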