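import Pool.Agent.P.MP_26a8c3_nt.QB.St

/-! Basic facts used by all parts of the bootstrap layer. -/

namespace Pool.Agent.P.MP_26a8c3_nt.QB

open QO QA Finset
open scoped Classical ComplexConjugate

lemma aa_pos : 0 < aa := by norm_num [aa]
lemma aa_lt : aa < 1 / 5 := by norm_num [aa]
lemma ka_pos : 0 < ka := by norm_num [ka]
lemma ka_lt : ka < 1 / 1000 := by norm_num [ka]

lemma one_le_a0 : 1 ≤ a0 := by
  have h : √3 ≤ 2 := Real.sqrt_le_iff.2 ⟨by norm_num, by norm_num⟩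
  rw [a0, le_div_iff₀ sqrt3_pos]; linarith [Real.pi_gt_three]

lemma G_pos (y : ℝ) : 0 < G y := Real.exp_pos _

lemma G_anti {x y : ℝ} (h : x ≤ y) : G y ≤ G x := by
  rw [G, G, Real.exp_le_exp]; nlinarith [one_le_a0]

lemma G_le_one {y : ℝ} (h : 0 ≤ y) : G y ≤ 1 := by simpa [G] using G_anti h

lemma G_add (x y : ℝ) : G (x + y) = G x * G y := by rw [G, G, G, ← Real.exp_add]; congr 1; ring

lemma one_le_G {y : ℝ} (h : y ≤ 1) : 1 ≤ Real.exp a0 * G y := by
  have := G_anti h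
  calc (1 : ℝ) = Real.exp a0 * G 1 := by rw [G, ← Real.exp_add]; simp
    _ ≤ _ := by gcongr

lemma N_le_nr (c : O) : (N c : ℝ) ≤ nr c := le_max_right _ _

lemma nr_mul {a b : O} (ha : a ≠ 0) (hb : b ≠ 0) : nr (a * b) = N a * nr b := by
  rw [nr_eq (mul_ne_zero ha hb), nr_eq hb, map_mul, Nat.cast_mul]

lemma summable_N' {t : ℝ} (ht : 1 < t) : Summable fun c : O => (N c : ℝ) ^ (-t) := by
  have h := (EisensteinSeries.summable_one_div_norm_rpow (k := 2 * t) (by linarith)).comp_injective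
    (i := fun z : O => ![z.re, z.im]) fun a b e =>
      QuadraticAlgebra.ext (congrFun e 0) (congrFun e 1)
  refine Summable.of_nonneg_of_le (fun _ => by positivity) (fun z => ?_)
    (h.mul_left ((3 / 4 : ℝ) ^ (-t)))
  rcases eq_or_ne z 0 with rfl | hz
  · rw [map_zero, Nat.cast_zero, Real.zero_rpow (by linarith)]
    exact mul_nonneg (by positivity) (Real.rpow_nonneg (norm_nonneg _) _)
  have h0 : 0 < ‖(![z.re, z.im] : Fin 2 → ℤ)‖ := norm_pos_iff.2 fun e =>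
    hz (QuadraticAlgebra.ext (congrFun e 0) (congrFun e 1))
  simp only [Function.comp]
  rw [show -(2 * t) = (2 : ℕ) * (-t) by push_cast; ring, Real.rpow_natCast_mul h0.le,
    ← Real.mul_rpow (by norm_num) (by positivity)]
  refine Real.rpow_le_rpow_of_nonpos (by positivity) ?_ (by linarith)
  obtain ⟨h1, h2⟩ := abs_le_of_N z
  have h1' : 3 * (z.re : ℝ) ^ 2 ≤ 4 * N z := by exact_mod_cast h1
  have h2' : 3 * (z.im : ℝ) ^ 2 ≤ 4 * N z := by exact_mod_cast h2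
  rw [EisensteinSeries.norm_eq_max_natAbs]
  simp only [Matrix.cons_val_zero, Matrix.cons_val_one, Matrix.cons_val_fin_one, Nat.cast_max,
    Nat.cast_natAbs, Int.cast_abs]
  rcases max_cases |(z.re : ℝ)| |(z.im : ℝ)| with e | e <;> rw [e.1, sq_abs] <;> linarith

lemma summable_nr {σ : ℝ} (h : 1 < σ) : Summable fun c : O => nr c ^ (-σ) := by
  refine (summable_N' h).congr_cofinite ?_
  filter_upwards [Filter.eventually_cofinite_ne (0 : O)] with c hc
  rw [nr_eq hc]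

lemma summable_bd {u : O → ℂ} (hu : ∀ c, ‖u c‖ ≤ 1) : Summable fun c : O => ‖u c‖ * nr c ^ (-(2 : ℝ)) :=
  Summable.of_nonneg_of_le (fun c => by have := nr_pos c; positivity)
    (fun c => mul_le_of_le_one_left (by have := nr_pos c; positivity) (hu c))
    (summable_nr one_lt_two)

/-- absolute convergence with any power weight -/
lemma summable_Wr {u : O → ℂ} (hu : ∀ c, ‖u c‖ ≤ 1) {X : ℝ} (hX : 0 < X) (t σ : ℝ) :
    Summable fun c : O => ‖u c * W X t (nr c)‖ * nr c ^ σ :=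
  summable_W nr_pos (summable_bd hu) hX t σ

lemma summable_Wn {u : O → ℂ} (hu : ∀ c, ‖u c‖ ≤ 1) {X : ℝ} (hX : 0 < X) (t : ℝ) (k : ℕ) :
    Summable fun c : O => ‖u c * W X t (nr c)‖ * (N c : ℝ) ^ k := by
  refine Summable.of_nonneg_of_le (fun c => by positivity) (fun c => ?_) (summable_Wr hu hX t k)
  rw [Real.rpow_natCast]
  gcongr
  exact N_le_nr c

lemma summable_W1 {u : O → ℂ} (hu : ∀ c, ‖u c‖ ≤ 1) {X : ℝ} (hX : 0 < X) (t : ℝ) :
    Summable fun c : O => ‖u c * W X t (nr c)‖ :=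
  summable_W0 nr_pos (summable_bd hu) hX t

lemma summable_Wc {u : O → ℂ} (hu : ∀ c, ‖u c‖ ≤ 1) {X : ℝ} (hX : 0 < X) (t : ℝ) :
    Summable fun c : O => u c * W X t (nr c) := (summable_W1 hu hX t).of_norm

/-- the sum of the weights, with any power weight -/
lemma sum_W_pow {σ ρ : ℝ} (h : ρ + 1 < σ) : ∃ C : ℝ, 0 < C ∧ ∀ (X t : ℝ) (s : Finset O), 0 < X →
    ∑ c ∈ s, ‖W X t (nr c)‖ * nr c ^ ρ ≤ C * X ^ σ := by
  have hs := summable_nr (σ := σ - ρ) (by linarith)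
  have h0 : ∀ c : O, 0 ≤ nr c ^ (-(σ - ρ)) := fun c => Real.rpow_nonneg (nr_pos c).le _
  have h1 : 0 ≤ ∑' c : O, nr c ^ (-(σ - ρ)) := tsum_nonneg h0
  refine ⟨Real.exp (σ ^ 2 / 4) * (1 + ∑' c : O, nr c ^ (-(σ - ρ))), by positivity,
    fun X t s hX => ?_⟩
  calc ∑ c ∈ s, ‖W X t (nr c)‖ * nr c ^ ρ
      ≤ ∑ c ∈ s, Real.exp (σ ^ 2 / 4) * X ^ σ * nr c ^ (-(σ - ρ)) := by
        refine sum_le_sum fun c _ => ?_
        have := nr_pos c
        rw [show -(σ - ρ) = -σ + ρ by ring, Real.rpow_add this, ← mul_assoc]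
        exact mul_le_mul_of_nonneg_right (norm_W_le hX this t σ) (by positivity)
    _ ≤ Real.exp (σ ^ 2 / 4) * X ^ σ * (1 + ∑' c : O, nr c ^ (-(σ - ρ))) := by
        rw [← mul_sum]
        have := hs.sum_le_tsum s fun c _ => h0 c
        gcongr
        linarith
    _ = _ := by ring

/-- the trivial bound -/
lemma norm_Wsum_le {σ : ℝ} (h : 1 < σ) : ∃ C : ℝ, 0 < C ∧ ∀ (u : O → ℂ) (X t : ℝ),
    (∀ c, ‖u c‖ ≤ 1) → 0 < X → ‖Wsum u X t‖ ≤ C * X ^ σ := by
  obtain ⟨C, hC, h⟩ := sum_W_pow (σ := σ) (ρ := 0) (by linarith)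
  refine ⟨C, hC, fun u X t hu hX => ?_⟩
  have hs := summable_W1 hu hX t
  refine (norm_tsum_le_tsum_norm hs).trans (hs.tsum_le_of_sum_le fun s => le_trans ?_ (h X t s hX))
  refine sum_le_sum fun c _ => ?_
  rw [norm_mul, Real.rpow_zero, mul_one]
  exact mul_le_of_le_one_left (norm_nonneg _) (hu c)

lemma not_sq_zero : ¬ SQ 0 := fun h => h.ne_zero rfl

lemma norm_mul_le_one {x y : ℂ} (hx : ‖x‖ ≤ 1) (hy : ‖y‖ ≤ 1) : ‖x * y‖ ≤ 1 := by
  rw [norm_mul]; exact mul_le_one₀ hx (norm_nonneg _) hy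

lemma bd1_uA {Q : O} {ν : O → ℂ} (h : IsNu Q ν) (r m : O) : Bd1 (uA ν r m) := by
  refine ⟨by simp [uA, not_sq_zero], fun c => ?_⟩
  unfold uA; split_ifs
  · exact norm_mul_le_one (norm_mul_le_one (norm_mu_le c) (h.le c)) (norm_psi_le c m)
  · simp

lemma bd1_al {Q : O} {ν : O → ℂ} (h : IsNu Q ν) : Bd1 (al ν) := by
  refine ⟨by simp [al, not_sq_zero], fun c => ?_⟩
  unfold al; split_ifs
  · exact norm_mul_le_one (norm_mu_le c) (h.le c)
  · simp

lemma norm_ps_le (e c m : O) : ‖ps e c m‖ ≤ 1 := by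
  unfold ps; split_ifs
  · exact norm_psi_le _ _
  · simp

lemma bd1_alps {Q : O} {ν : O → ℂ} (h : IsNu Q ν) (e m : O) : Bd1 fun c => al ν c * ps e c m :=
  ⟨by simp [(bd1_al h).1], fun c => norm_mul_le_one ((bd1_al h).2 c) (norm_ps_le _ _ _)⟩

lemma norm_Phi_le {Q : O} {ν : O → ℂ} (h : IsNu Q ν) (k n : O) : ‖Phi ν k n‖ ≤ 1 :=
  norm_mul_le_one (norm_mul_le_one (norm_ang_le n) (h.le n))
    (by rw [Complex.norm_conj]; exact norm_psi_le _ _)

lemma bd1_uB (hA : Alg) {Q : O} {ν : O → ℂ} (h : IsNu Q ν) (k : O) : Bd1 (uB ν k) := by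
  refine ⟨by simp [uB, not_sq_zero], fun c => ?_⟩
  unfold uB; split_ifs with hc
  · exact norm_mul_le_one (hA.r4.2.1 c hc).le (norm_Phi_le h _ _)
  · simp

lemma uA_one (ν : O → ℂ) (m c : O) : uA ν 1 m c = al ν c * psi c m := by
  unfold uA al; by_cases h : SQ c <;> simp [h, isCoprime_one_right]

/-- the support of a character modulo a multiple of `36` is odd -/
lemma od_of_nu {Q : O} {ν : O → ℂ} (hQ : 36 ∣ Q) (h : IsNu Q ν) {c : O} (hc : ν c ≠ 0) : Od c := by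
  have h1 : IsCoprime c Q := by_contra fun e => hc (h.zero c e)
  exact h1.of_isCoprime_of_dvd_right (Dvd.dvd.trans ⟨18, by norm_num⟩ hQ)

lemma sqo_of_al {Q : O} {ν : O → ℂ} (hQ : 36 ∣ Q) (h : IsNu Q ν) {c : O} (hc : al ν c ≠ 0) :
    SQO c := by
  unfold al at hc
  split_ifs at hc with h1
  · exact ⟨h1, od_of_nu hQ h (right_ne_zero_of_mul hc)⟩
  · exact absurd rfl hc

lemma dv_nonneg (c : O) : 0 ≤ dv c := Nat.cast_nonneg _

lemma one_le_dv {c : O} (h : c ≠ 0) : 1 ≤ dv c := by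
  have : 0 < (pdiv c).card := card_pos.2 ⟨1, (mem_pdiv h).2 ⟨primary_one, one_dvd _⟩⟩
  unfold dv; exact_mod_cast this

lemma dv_mono {a b : O} (h : a ∣ b) (hb : b ≠ 0) : dv a ≤ dv b := by
  have ha : a ≠ 0 := ne_zero_of_dvd_ne_zero hb h
  unfold dv
  exact_mod_cast card_le_card fun x hx =>
    (mem_pdiv hb).2 ⟨((mem_pdiv ha).1 hx).1, ((mem_pdiv ha).1 hx).2.trans h⟩

lemma norm_jj_le (e m : O) :
    ‖jj e m‖ ≤ ∑ f ∈ (pdiv e).filter (fun f => f ^ 2 ∣ m), (N f : ℝ) := by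
  rw [jj, sum_filter]
  refine norm_sum_le_of_le _ fun f _ => ?_
  split_ifs
  · rw [norm_mul, Complex.norm_natCast]
    exact mul_le_of_le_one_left (Nat.cast_nonneg _) (norm_mu_le f)
  · simp

lemma norm_jj_le' {e : O} (he : e ≠ 0) (m : O) : ‖jj e m‖ ≤ dv e * N e := by
  refine (norm_jj_le e m).trans ((sum_le_sum_of_subset_of_nonneg (filter_subset _ _)
    fun _ _ _ => Nat.cast_nonneg _).trans ?_)
  rw [dv, ← nsmul_eq_mul]
  exact sum_le_card_nsmul _ _ _ fun f hf => by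
    exact_mod_cast N_le_of_dvd ((mem_pdiv he).1 hf).2 he

lemma Base.dv_le (hb : Base) : ∃ C : ℝ, 0 < C ∧ ∀ c : O, c ≠ 0 → dv c ≤ C * N c := by
  simpa using hb.dvb 1 one_pos

lemma Base.summable_G (hb : Base) {U : ℝ} (hU : 0 < U) : Summable fun m : O => G (N m / U) := by
  obtain ⟨C, -, h⟩ := hb.gau
  exact summable_of_sum_le (fun m => (G_pos _).le) fun s => h U s hU

lemma ML.ml0 {F : O → ℂ} {P b : ℝ} (h : ML F P b) : ML0 F P b := fun s _ => h s

lemma ML.mono {F : O → ℂ} {P P' b b' : ℝ} (h : ML F P b) (hP : 0 < P') (hP' : P' ≤ P)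
    (hb : b ≤ b') : ML F P' b' := fun s =>
  (sum_le_sum fun m _ => mul_le_mul_of_nonneg_right
    (G_anti (div_le_div_of_nonneg_left (Nat.cast_nonneg _) hP hP')) (by positivity)).trans
    ((h s).trans hb)

lemma ML0.mono {F : O → ℂ} {P P' b b' : ℝ} (h : ML0 F P b) (hP : 0 < P') (hP' : P' ≤ P)
    (hb : b ≤ b') : ML0 F P' b' := fun s hs =>
  (sum_le_sum fun m _ => mul_le_mul_of_nonneg_right
    (G_anti (div_le_div_of_nonneg_left (Nat.cast_nonneg _) hP hP')) (by positivity)).trans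
    ((h s hs).trans hb)

/-- sharp cut-off from the Gaussian moment -/
lemma ML.sharp {F : O → ℂ} {P b : ℝ} (h : ML F P b) (hP : 0 < P) (s : Finset O)
    (hs : ∀ m ∈ s, (N m : ℝ) ≤ P) : ∑ m ∈ s, ‖F m‖ ^ 2 ≤ Real.exp a0 * b := by
  refine le_trans ?_ (mul_le_mul_of_nonneg_left (h s) (Real.exp_pos _).le)
  rw [mul_sum]
  refine sum_le_sum fun m hm => ?_
  rw [← mul_assoc]
  exact le_mul_of_one_le_left (by positivity) (one_le_G ((div_le_one hP).2 (hs m hm)))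

lemma ML0.sharp {F : O → ℂ} {P b : ℝ} (h : ML0 F P b) (hP : 0 < P) (s : Finset O) (h0 : 0 ∉ s)
    (hs : ∀ m ∈ s, (N m : ℝ) ≤ P) : ∑ m ∈ s, ‖F m‖ ^ 2 ≤ Real.exp a0 * b := by
  refine le_trans ?_ (mul_le_mul_of_nonneg_left (h s h0) (Real.exp_pos _).le)
  rw [mul_sum]
  refine sum_le_sum fun m hm => ?_
  rw [← mul_assoc]
  exact le_mul_of_one_le_left (by positivity) (one_le_G ((div_le_one hP).2 (hs m hm)))

lemma Nm_pos {Z M X : ℝ} (hM : 0 < M) (hX : 0 < X) : 0 < Nm Z M X := by unfold Nm; positivity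

/-- the square of a weighted sum as a double sum -/
lemma norm_sq_tsum {f : O → ℂ} (hf : Summable fun c => ‖f c‖) :
    ((‖∑' c, f c‖ ^ 2 : ℝ) : ℂ) = ∑' x : O × O, f x.1 * conj (f x.2) := by
  rw [← tsum_mul_tsum_of_summable_norm hf (g := fun c => conj (f c)) (by simpa using hf),
    ← Complex.conj_tsum, Complex.mul_conj, Complex.normSq_eq_norm_sq]

/-- iteration of a contraction -/
lemma contract {P : ℝ → Prop} {T K : ℝ} (hT : 0 ≤ T) (h0 : P (2 * K + T))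
    (hs : ∀ b, 2 * K ≤ b → P b → P (K + b / 2)) (n : ℕ) : P (2 * K + T / 2 ^ n) := by
  induction n with
  | zero => simpa using h0
  | succ n ih =>
    have := hs _ (le_add_of_nonneg_right (by positivity)) ih
    convert this using 1
    rw [pow_succ]; ring

end Pool.Agent.P.MP_26a8c3_nt.QB
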