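import Pool.Agent.P.MP_26a8c3_nt.QB.Bas
import Pool.Agent.P.MP_26a8c3_nt.QO.Cnt
import Pool.Agent.P.MP_26a8c3_nt.QO.Ker

/-! The counting and multiplicativity facts of the bootstrap layer. -/

namespace Pool.Agent.P.MP_26a8c3_nt.QB

open QO QA Finset
open scoped Classical ComplexConjugate

namespace BaseP

lemma cntP : ∃ c : ℝ, 0 < c ∧ ∀ Y : ℝ, 1 ≤ Y → c * Y ≤ (((ball Y).filter Primary).card : ℝ) := by
  refine ⟨1 / 1296, by norm_num, fun Y hY => ?_⟩
  rcases le_total Y 1296 with h | h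
  · have : 0 < ((ball Y).filter Primary).card :=
      card_pos.2 ⟨1, mem_filter.2 ⟨mem_ball.2 (by simpa using hY), primary_one⟩⟩
    have h1 : (1 : ℝ) ≤ ((ball Y).filter Primary).card := by exact_mod_cast this
    linarith
  · have h1 := (abs_le.1 (card_primary (y := Y) (by linarith))).1
    have h2 : √Y ≤ Y / 36 := Real.sqrt_le_iff.2 ⟨by linarith, by nlinarith⟩
    have h3 := one_le_a0
    have h4 : a0 * (√Y + 1) ≤ a0 * (Y / 18) :=
      mul_le_mul_of_nonneg_left (by linarith) (by linarith)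
    have h5 : 1 * (Y / 18) ≤ a0 * (Y / 18) := mul_le_mul_of_nonneg_right h3 (by linarith)
    have h6 : a0 / 9 * Y = 2 * (a0 * (Y / 18)) := by ring
    linarith

lemma dv_mul {a b : O} (ha : Primary a) (hb : Primary b) : dv (a * b) ≤ dv a * dv b := by
  have h : pdiv (a * b) ⊆ (pdiv a ×ˢ pdiv b).image fun x => x.1 * x.2 := by
    intro d hd
    obtain ⟨h1, h2⟩ := (mem_pdiv (ha.mul hb).ne_zero).1 hd
    obtain ⟨d1, d2, e1, e2, rfl⟩ := exists_dvd_and_dvd_of_dvd_mul h2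
    obtain ⟨u, hu, hp⟩ := exists_primary (x := d1) fun e => ha.not_lam_dvd (e.trans e1)
    obtain ⟨v, hv⟩ := hu.exists_right_inv
    have e : u * d1 * (v * d2) = d1 * d2 := by linear_combination d1 * d2 * hv
    refine mem_image.2 ⟨(u * d1, v * d2), mem_product.2 ⟨(mem_pdiv ha.ne_zero).2
      ⟨hp, (hu.mul_left_dvd).2 e1⟩, (mem_pdiv hb.ne_zero).2 ⟨Primary.of_mul (e ▸ h1) hp, ?_⟩⟩, e⟩
    exact ((IsUnit.of_mul_eq_one_right _ hv).mul_left_dvd).2 e2
  have h1 := (card_le_card h).trans card_image_le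
  rw [card_product] at h1
  unfold dv; exact_mod_cast h1

/-- the divisors of `p * r` -/
lemma sum_pdiv_mul {M : Type} [AddCommMonoid M] {p r : O} (hp : Prime p) (h1 : Primary p)
    (hr : Primary r) (F : O → M) : ∑ d ∈ pdiv (p * r), F d =
      ∑ d ∈ (pdiv r).filter (fun d => ¬ p ∣ d), F d + ∑ e ∈ pdiv r, F (p * e) := by
  have h0 := (h1.mul hr).ne_zero
  rw [← sum_filter_not_add_sum_filter (pdiv (p * r)) fun d => p ∣ d]
  congr 1
  · refine sum_congr ?_ fun _ _ => rfl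
    ext d
    simp only [mem_filter, mem_pdiv h0, mem_pdiv hr.ne_zero]
    exact ⟨fun ⟨⟨a, b⟩, c⟩ => ⟨⟨a, (hp.coprime_iff_not_dvd.2 c).symm.dvd_of_dvd_mul_left b⟩, c⟩,
      fun ⟨⟨a, b⟩, c⟩ => ⟨⟨a, b.mul_left _⟩, c⟩⟩
  · symm
    refine sum_bij (fun e _ => p * e) (fun e he => ?_)
      (fun _ _ _ _ e => mul_left_cancel₀ hp.ne_zero e) (fun d hd => ?_) fun _ _ => rfl
    · obtain ⟨a, b⟩ := (mem_pdiv hr.ne_zero).1 he
      exact mem_filter.2 ⟨(mem_pdiv h0).2 ⟨h1.mul a, mul_dvd_mul_left _ b⟩, dvd_mul_right _ _⟩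
    · obtain ⟨hd, e, rfl⟩ := mem_filter.1 hd
      obtain ⟨a, b⟩ := (mem_pdiv h0).1 hd
      exact ⟨e, (mem_pdiv hr.ne_zero).2 ⟨a.of_mul h1, (mul_dvd_mul_iff_left hp.ne_zero).1 b⟩, rfl⟩

lemma dv_prime {p r : O} (hp : Prime p) (h1 : Primary p) (hr : Primary r) (h : ¬ p ∣ r) :
    dv (p * r) = 2 * dv r := by
  have e := sum_pdiv_mul hp h1 hr fun _ => (1 : ℝ)
  rw [filter_true_of_mem (p := fun d => ¬ p ∣ d)
    fun d hd e => h (e.trans ((mem_pdiv hr.ne_zero).1 hd).2)] at e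
  simp only [sum_const, nsmul_eq_mul, mul_one] at e
  rw [dv, dv, e]; ring

lemma pdiv_one : pdiv 1 = {1} := by
  ext d
  rw [mem_pdiv one_ne_zero, mem_singleton]
  exact ⟨fun ⟨a, b⟩ => a.eq_one_of_isUnit (isUnit_of_dvd_one b),
    fun e => by rw [e]; exact ⟨primary_one, dvd_rfl⟩⟩

lemma mu_sum {c : O} (hc : Primary c) : ∑ d ∈ pdiv c, mu d = if c = 1 then 1 else 0 := by
  refine primary_ind (P := fun c => ∑ d ∈ pdiv c, mu d = if c = 1 then 1 else 0)
    (by simp [pdiv_one]) (fun p a hp h1 ha _ => ?_) hc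
  rw [if_neg fun e => hp.not_isUnit (IsUnit.of_mul_eq_one _ e), sum_pdiv_mul hp h1 ha, sum_filter,
    ← sum_add_distrib]
  refine sum_eq_zero fun e _ => ?_
  by_cases h : p ∣ e
  · rw [if_neg (not_not.2 h), zero_add]
    exact mu_of_not fun hs => hp.not_isUnit (hs p (mul_dvd_mul_left _ h))
  · rw [if_pos h, mu_mul (hp.coprime_iff_not_dvd.2 h), mu_prime hp]; ring

lemma jj_mul {a b : O} (m : O) (ha : SQ a) (hb : SQ b) (h : IsCoprime a b) :
    jj (a * b) m = jj a m * jj b m := by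
  obtain ⟨A, hA, rfl⟩ := Ker.exists_pr ha
  obtain ⟨B, hB, rfl⟩ := Ker.exists_pr hb
  have hd : Disjoint A B := disjoint_left.2 fun p h1 h2 => (hA p h1).1.not_isUnit
    (h.isUnit_of_dvd' (dvd_prod_of_mem _ h1) (dvd_prod_of_mem _ h2))
  have hU : Ker.Gd (A ∪ B) := fun p hp => (mem_union.1 hp).elim (hA p) (hB p)
  have e : Ker.pr A * Ker.pr B = Ker.pr (A ∪ B) := (prod_union hd).symm
  rw [e, Ker.jj_pr hA, Ker.jj_pr hB, Ker.jj_pr hU, prod_union hd]

lemma chi_two (hA : Alg) {u x : O} (hu : IsUnit u) (h : Primary (u * x)) :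
    chi x 2 = chi (-2) (u * x) := by
  rw [← hA.r1 _ _ h primary_neg_two, chi_neg]
  exact chi_assoc (associated_unit_mul_right _ _ hu) 2

lemma nu_chi (hA : Alg) {Q : O} {ν : O → ℂ} (hQ : 36 ∣ Q) (h : IsNu Q ν) :
    IsNu Q fun c => ν c * chi c 2 := by
  have h3 : (3 : O) ∣ Q := Dvd.dvd.trans ⟨12, by norm_num⟩ hQ
  have h2 : (-2 : O) ∣ Q := Dvd.dvd.trans ⟨-18, by norm_num⟩ hQ
  have hl : ∀ x, lam ∣ x → ν x = 0 := fun x e => h.zero x fun c =>
    prime_lam.not_isUnit (c.isUnit_of_dvd' e (lam_dvd_three.trans h3))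
  refine ⟨by simp [h.one], fun a b => ?_, fun x y e => ?_, fun a e => by rw [h.zero a e, zero_mul],
    fun a => norm_mul_le_one (h.le a) (norm_chi_le _ _)⟩
  · rcases eq_or_ne a 0 with rfl | ha
    · simp [hl 0 (dvd_zero _)]
    rcases eq_or_ne b 0 with rfl | hb
    · simp [hl 0 (dvd_zero _)]
    rw [h.mul, chi_mul_left ha hb]; ring
  · have e1 := h.per x y e
    by_cases hx : lam ∣ x
    · simp only [← e1, hl x hx, zero_mul]
    obtain ⟨u, hu, hp⟩ := exists_primary hx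
    have e2 : Q ∣ u * x - u * y := by rw [← mul_sub]; exact e.mul_left _
    have hp' : Primary (u * y) := hp.of_dvd_sub (dvd_sub_comm.1 (h3.trans e2))
    simp only [e1, chi_two hA hu hp, chi_two hA hu hp', chi_congr (h2.trans e2)]

lemma nu (hA : Alg) {Q : O} {ν : O → ℂ} {k : O} (hQ : 36 ∣ Q) (h : IsNu Q ν) (hk : k ∈ cls) :
    IsNu Q (fun c => ν c * xi k c * conj (chi c 2)) ∧
      IsNu Q fun c => ν c * xi k c * chi c 2 := by
  obtain ⟨-, -, -, -, -, -, g7, g8, -⟩ := hA.gam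
  have h1 := h.mul' (g7 k (g8 k hk)) (Dvd.dvd.trans ⟨9, by norm_num⟩ hQ)
  refine ⟨?_, nu_chi hA hQ h1⟩
  simpa only [map_mul (starRingEnd ℂ) (conj _), Complex.conj_conj] using
    (nu_chi hA hQ h1.conj').conj'

lemma dv_pow {p : O} (hp : Prime p) (h1 : Primary p) (k : ℕ) : dv (p ^ k) ≤ k + 1 := by
  have h : pdiv (p ^ k) ⊆ (range (k + 1)).image (p ^ ·) := by
    intro d hd
    obtain ⟨a, b⟩ := (mem_pdiv (h1.pow k).ne_zero).1 hd
    obtain ⟨i, hi, e⟩ := (dvd_prime_pow hp k).1 b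
    exact mem_image.2 ⟨i, mem_range.2 (by omega), ((a.eq_of_associated (h1.pow i) e)).symm⟩
  have h2 := (card_le_card h).trans card_image_le
  rw [card_range] at h2
  unfold dv; exact_mod_cast h2

lemma succ_le {ε : ℝ} (hε : 0 < ε) (k : ℕ) : (k : ℝ) + 1 ≤ (1 + 2 / ε) * ((2 : ℝ) ^ ε) ^ k := by
  have h1 : 1 + ε / 2 ≤ (2 : ℝ) ^ ε := by
    rw [Real.rpow_def_of_pos two_pos]
    have := Real.add_one_le_exp (Real.log 2 * ε)
    nlinarith [Real.log_two_gt_d9]
  have h2 : 1 + k * (ε / 2) ≤ ((2 : ℝ) ^ ε) ^ k :=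
    (one_add_mul_le_pow (by linarith) k).trans (pow_le_pow_left₀ (by linarith) h1 k)
  refine le_trans ?_ (mul_le_mul_of_nonneg_left h2 (by positivity))
  have e : (1 + 2 / ε) * (1 + k * (ε / 2)) = k + 1 + (2 / ε + k * (ε / 2)) := by
    field_simp; ring
  rw [e]
  have : 0 ≤ 2 / ε + k * (ε / 2) := by positivity
  linarith

lemma dvb_primary {ε : ℝ} (hε : 0 < ε) (n : ℕ) : ∀ c : O, Primary c → N c = n →
    dv c ≤ (1 + 2 / ε) ^ ((ball ((2 : ℝ) ^ ε⁻¹)).filter (· ∣ c)).card * (N c : ℝ) ^ ε := by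
  have hK : (1 : ℝ) ≤ 1 + 2 / ε := le_add_of_nonneg_right (by positivity)
  induction n using Nat.strong_induction_on with
  | _ n ih =>
    intro c hc hn
    by_cases hu : IsUnit c
    · obtain rfl := hc.eq_one_of_isUnit hu
      simpa [dv, pdiv_one] using one_le_pow₀ hK
    obtain ⟨p, hp⟩ := UniqueFactorizationMonoid.exists_mem_normalizedFactors hc.ne_zero hu
    obtain ⟨e1, e2, e3⟩ := mem_nf hp
    have h1 := e2.primary fun e => hc.not_lam_dvd (e.trans e3)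
    obtain ⟨k, a, ha, rfl⟩ := WfDvdMonoid.max_power_factor hc.ne_zero e1.irreducible
    have hk : k ≠ 0 := by rintro rfl; exact ha (by simpa using e3)
    have pa := hc.of_mul (h1.pow k)
    have n2 := two_le_N e1
    have n3 := N_pos pa.ne_zero
    have h2 := ih (N a) (by
      have := Nat.one_lt_pow hk (show 1 < N p by omega)
      rw [← hn, map_mul, map_pow]; nlinarith) a pa rfl
    have e : ((N (p ^ k * a) : ℕ) : ℝ) ^ ε = ((N p : ℝ) ^ ε) ^ k * (N a : ℝ) ^ ε := by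
      rw [map_mul, map_pow, Nat.cast_mul, Nat.cast_pow, Real.mul_rpow (by positivity)
        (by positivity), ← Real.rpow_pow_comm (by positivity)]
    have h3 := (dv_mul (h1.pow k) pa).trans
      (mul_le_mul (dv_pow e1 h1 k) h2 (dv_nonneg _) (by positivity))
    refine h3.trans ?_
    rw [e, ← mul_assoc, ← mul_assoc]
    refine mul_le_mul_of_nonneg_right ?_ (by positivity)
    have hs : (ball ((2 : ℝ) ^ ε⁻¹)).filter (· ∣ a) ⊆
        (ball ((2 : ℝ) ^ ε⁻¹)).filter (· ∣ p ^ k * a) :=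
      monotone_filter_right _ fun _ _ h => h.mul_left _
    have n4 : (2 : ℝ) ≤ N p := by exact_mod_cast n2
    by_cases hb : p ∈ ball ((2 : ℝ) ^ ε⁻¹)
    · have h4 := card_lt_card ((ssubset_iff_of_subset hs).2
        ⟨p, mem_filter.2 ⟨hb, e3⟩, fun h => ha (mem_filter.1 h).2⟩)
      have h5 := pow_le_pow_right₀ hK (Nat.succ_le_of_lt h4)
      have h6 : (k : ℝ) + 1 ≤ (1 + 2 / ε) * ((N p : ℝ) ^ ε) ^ k :=
        (succ_le hε k).trans (by gcongr)
      refine (mul_le_mul_of_nonneg_right h6 (by positivity)).trans ?_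
      rw [mul_right_comm, ← pow_succ']
      exact mul_le_mul_of_nonneg_right h5 (by positivity)
    · rw [mem_ball, not_le] at hb
      have h4 : (2 : ℝ) ≤ (N p : ℝ) ^ ε := by
        have := Real.rpow_le_rpow (by positivity) hb.le hε.le
        rwa [Real.rpow_inv_rpow (by norm_num) hε.ne'] at this
      have h5 : (k : ℝ) + 1 ≤ ((N p : ℝ) ^ ε) ^ k := by
        refine le_trans ?_ (pow_le_pow_left₀ (by norm_num) h4 k)
        exact_mod_cast Nat.lt_two_pow_self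
      rw [mul_comm]
      exact mul_le_mul (pow_le_pow_right₀ hK (card_le_card hs)) h5 (by positivity) (by positivity)

lemma dvb {ε : ℝ} (hε : 0 < ε) : ∃ C : ℝ, 0 < C ∧ ∀ c : O, c ≠ 0 → dv c ≤ C * (N c : ℝ) ^ ε := by
  have hK : (1 : ℝ) ≤ 1 + 2 / ε := le_add_of_nonneg_right (by positivity)
  refine ⟨(1 + 2 / ε) ^ (ball ((2 : ℝ) ^ ε⁻¹)).card, by positivity, fun c hc => ?_⟩
  obtain ⟨u, k, p, hu, hp, e⟩ := exists_decomp hc
  have h1 : dv c ≤ dv p := by
    unfold dv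
    refine Nat.cast_le.2 (card_le_card fun d hd => ?_)
    obtain ⟨a, b⟩ := (mem_pdiv hc).1 hd
    refine (mem_pdiv hp.ne_zero).2 ⟨a, ?_⟩
    rw [e, mul_assoc, hu.dvd_mul_left] at b
    exact (a.isCoprime_lam.pow_right).dvd_of_dvd_mul_left b
  have h2 : (N p : ℝ) ≤ N c := by exact_mod_cast N_le_of_dvd (e ▸ dvd_mul_left _ _) hc
  refine h1.trans ((dvb_primary hε _ p hp rfl).trans ?_)
  exact mul_le_mul (pow_le_pow_right₀ hK (card_filter_le _ _))
    (Real.rpow_le_rpow (by positivity) h2 hε.le) (by positivity) (by positivity)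

end BaseP

theorem base (hA : Alg) : Base where
  cnt := ⟨16, by norm_num, fun _ _ hY h => card_le_of_N_le hY.le h⟩
  cntP := BaseP.cntP
  gau := ⟨th, by linarith [one_le_th], fun _ s hU =>
    ((summable_G hU).sum_le_tsum s fun _ _ => (G_pos _).le).trans (tsum_G_le hU)⟩
  dvb := fun _ => BaseP.dvb
  dv_mul := fun _ _ => BaseP.dv_mul
  dv_prime := fun _ _ => BaseP.dv_prime
  mu_sum := fun _ => BaseP.mu_sum
  jj_mul := fun _ _ => BaseP.jj_mul
  nu := fun _ _ _ => BaseP.nu hA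

end Pool.Agent.P.MP_26a8c3_nt.QB
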