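import Pool.Agent.P.MP_26a8c3_nt.QB.Bas

/-! The first step of the bootstrap: head and tail together. -/

namespace Pool.Agent.P.MP_26a8c3_nt.QB

open QO QA Finset
open scoped Classical ComplexConjugate

namespace IP

/-- reindexing along the multiples of `f ^ 2` -/
lemma hasSum_sq {f : O} (hf : f ≠ 0) {M : ℝ} {H : O → ℂ} {T : ℂ} (c : ℂ)
    (h : HasSum (fun m : O => ((G (N m / (M / (N f : ℝ) ^ 2)) : ℝ) : ℂ) * H (f ^ 2 * m)) T) :
    HasSum (fun m : O => if f ^ 2 ∣ m then c * (((G (N m / M) : ℝ) : ℂ) * H m) else 0) (c * T) := by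
  have hi : Function.Injective fun m : O => f ^ 2 * m :=
    mul_right_injective₀ (pow_ne_zero 2 hf)
  rw [← hi.hasSum_iff]
  · refine (h.mul_left c).congr_fun ?_
    intro m
    have hN := N_pos_real hf
    have e : ((N (f ^ 2 * m) : ℕ) : ℝ) / M = N m / (M / (N f : ℝ) ^ 2) := by
      rw [map_mul, map_pow, Nat.cast_mul, Nat.cast_pow, div_div_eq_mul_div, mul_comm]
    simp only [Function.comp, if_pos (dvd_mul_right _ _), e]
  · intro x hx
    rw [if_neg]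
    rintro ⟨y, rfl⟩
    exact hx ⟨y, rfl⟩

lemma le_Nm {Z M X : ℝ} (hM : 0 < M) (hX : 1 ≤ X) : M ≤ Nm Z M X := by
  unfold Nm
  have h1 : 1 ≤ X ^ (1 + ka) := Real.one_le_rpow hX (by linarith [ka_pos])
  have h2 : 1 ≤ (1 + M / Z ^ 2) ^ 10 := one_le_pow₀ (le_add_of_nonneg_right (by positivity))
  have h3 : 0 ≤ X ^ (1 + aa) := by positivity
  calc M = M * 1 * 1 := by ring
    _ ≤ _ := by gcongr; linarith

end IP

open IP in
theorem stepI (hb : Base) (h1 : S_Split) (h2 : S_ITail) (h3 : S_Head) : S_I := by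
  intro ε hε
  obtain ⟨C2, hC2, h2⟩ := h2 ε hε
  obtain ⟨C3, hC3, h3⟩ := h3 ε hε
  obtain ⟨Cc, hCc, hc⟩ := hb.cnt
  obtain ⟨Cd, hCd, hd⟩ := hb.dv_le
  refine ⟨C2 + Cc * Cd * C3, by positivity, ?_⟩
  intro Q ν Z Bd E M X t b hQ hν hH hBd hE hX hXZ hM hMZ hb0 hSB s
  obtain ⟨κ, hκ1, hκ2, hsp⟩ := h1 E
  have hX0 : 0 < X := by linarith
  have hE1 : 1 ≤ E := le_trans (by linarith [Real.add_one_le_exp (2 : ℝ)]) hE
  have hM0 : 0 < M := lt_of_lt_of_le (by positivity) hM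
  have hZ1 : 1 ≤ Z := hX.trans hXZ
  set τ : ℝ := (1 + |t|) ^ 16 with hτ
  have hτ1 : 1 ≤ τ := one_le_pow₀ (by linarith [abs_nonneg t])
  set K : ℝ := 1 + E ^ 51 * X ^ (ε - 1) * b * τ with hK
  have hK0 : 0 ≤ K := by positivity
  set S := (ball E).filter SQ with hS
  set g : O → ℂ := fun m => ((G (N m / M) : ℝ) : ℂ) with hg
  set T : O → O → ℂ := fun e f =>
    ∑' m : O, ((G (N m / (M / (N f : ℝ) ^ 2)) : ℝ) : ℂ) * HH ν e (f ^ 2 * m) X t with hT
  have hmem : ∀ e ∈ S, SQ e ∧ (N e : ℝ) ≤ E := fun e he =>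
    ⟨(mem_filter.1 he).2, mem_ball.1 (mem_filter.1 he).1⟩
  have hf0 : ∀ e ∈ S, ∀ f ∈ pdiv e, f ≠ 0 := fun e he f hf =>
    ((mem_pdiv (hmem e he).1.ne_zero).1 hf).1.ne_zero
  have hhead : HasSum (fun m : O => ∑ e ∈ S, ∑ f ∈ pdiv e,
      if f ^ 2 ∣ m then mu f * (N f : ℂ) * (g m * HH ν e m X t) else 0)
      (∑ e ∈ S, ∑ f ∈ pdiv e, mu f * (N f : ℂ) * T e f) :=
    hasSum_sum fun e he => hasSum_sum fun f hf => hasSum_sq (hf0 e he f hf) _
      (h3 Q ν e f E M X t b hQ hν (hmem e he).1 hf (hmem e he).2 hX hM hb0 hSB).1.hasSum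
  have hRb := fun s => h2 Q ν κ Z Bd E M X t s hν hH hBd hE hX hXZ hM hMZ hκ1 hκ2
  have hn : ∀ m, ‖g m * RR ν κ m X t‖ = G (N m / M) * ‖RR ν κ m X t‖ := fun m => by
    rw [norm_mul, hg, Complex.norm_real, Real.norm_of_nonneg (G_pos _).le]
  have hRs : Summable fun m => ‖g m * RR ν κ m X t‖ :=
    summable_of_sum_le (fun _ => norm_nonneg _) fun s => by simpa only [hn] using hRb s
  have hR : ‖∑' m, g m * RR ν κ m X t‖ ≤
      C2 * (1 + Z ^ ε * E ^ (-(ka / 2)) * Bd) * τ * Nm Z M X :=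
    (norm_tsum_le_tsum_norm hRs).trans
      (hRs.tsum_le_of_sum_le fun s => by simpa only [hn] using hRb s)
  have htot := hhead.add hRs.of_norm.hasSum
  have hre : HasSum (fun m : O => G (N m / M) * ‖A ν 1 m X t‖ ^ 2)
      (∑ e ∈ S, ∑ f ∈ pdiv e, mu f * (N f : ℂ) * T e f + ∑' m, g m * RR ν κ m X t).re := by
    refine (Complex.hasSum_re htot).congr_fun ?_
    intro m
    have e : (∑ e ∈ S, ∑ f ∈ pdiv e,
        if f ^ 2 ∣ m then mu f * (N f : ℂ) * (g m * HH ν e m X t) else 0) + g m * RR ν κ m X t =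
        ((G (N m / M) * ‖A ν 1 m X t‖ ^ 2 : ℝ) : ℂ) := by
      rw [Complex.ofReal_mul, hsp Q ν m X t hν hX0, mul_add, mul_sum]
      congr 1
      refine sum_congr rfl fun e _ => ?_
      rw [jj, sum_mul, mul_sum]
      refine sum_congr rfl fun f _ => ?_
      split_ifs
      · simp only [hg]; ring
      · simp
    rw [e, Complex.ofReal_re]
  have hT1 : ∀ e ∈ S, ∀ f ∈ pdiv e, ‖mu f * (N f : ℂ) * T e f‖ ≤ C3 * M * K := by
    intro e he f hf
    have h4 := (h3 Q ν e f E M X t b hQ hν (hmem e he).1 hf (hmem e he).2 hX hM hb0 hSB).2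
    have h5 := one_le_N (hf0 e he f hf)
    rw [norm_mul, norm_mul, Complex.norm_natCast]
    calc ‖mu f‖ * (N f : ℝ) * ‖T e f‖ ≤ 1 * (N f : ℝ) * (C3 * (M / (N f : ℝ) ^ 2) * K) := by
          gcongr
          exact norm_mu_le f
      _ = C3 * M * K / N f := by field_simp
      _ ≤ C3 * M * K := div_le_self (by positivity) h5
  have hT2 : ‖∑ e ∈ S, ∑ f ∈ pdiv e, mu f * (N f : ℂ) * T e f‖ ≤
      Cc * E * (Cd * E * (C3 * M * K)) := by
    refine (norm_sum_le_of_le (n := fun _ => Cd * E * (C3 * M * K)) _ fun e he => ?_).trans ?_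
    · refine (norm_sum_le_of_le _ (hT1 e he)).trans ?_
      rw [sum_const, nsmul_eq_mul]
      have := (hd e (hmem e he).1.ne_zero).trans
        (mul_le_mul_of_nonneg_left (hmem e he).2 hCd.le)
      exact mul_le_mul_of_nonneg_right this (by positivity)
    · rw [sum_const, nsmul_eq_mul]
      exact mul_le_mul_of_nonneg_right
        (hc E S (by linarith) fun e he => ⟨(hmem e he).1.ne_zero, (hmem e he).2⟩) (by positivity)
  refine (sum_le_hasSum s (fun m _ => mul_nonneg (G_pos _).le (by positivity)) hre).trans ?_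
  refine (Complex.re_le_norm _).trans ((norm_add_le _ _).trans ((add_le_add hT2 hR).trans ?_))
  have hN := le_Nm (Z := Z) hM0 hX
  have hN0 := Nm_pos (Z := Z) hM0 hX0
  have hZε : 1 ≤ Z ^ ε := Real.one_le_rpow hZ1 hε.le
  have hXε : X ^ (ε - 1) ≤ Z ^ ε / X := by
    rw [Real.rpow_sub_one hX0.ne']
    gcongr
  have hE2 : 1 ≤ E ^ 2 := one_le_pow₀ hE1
  have hq : 0 ≤ E ^ (-(ka / 2)) * Bd := by positivity
  set q := E ^ (-(ka / 2)) * Bd with hqd
  set n := Nm Z M X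
  set z := Z ^ ε
  have ha : Cc * E * (Cd * E * (C3 * M * K)) ≤
      Cc * Cd * C3 * (z * τ * ((E ^ 2 + q) * n + E ^ 53 * (M / X) * b)) := by
    have a1 : E ^ 2 * M ≤ z * τ * ((E ^ 2 + q) * n) :=
      calc E ^ 2 * M = 1 * 1 * ((E ^ 2 + 0) * M) := by ring
        _ ≤ _ := by gcongr
    have a2 : E ^ 2 * M * (E ^ 51 * X ^ (ε - 1) * b * τ) ≤ z * τ * (E ^ 53 * (M / X) * b) :=
      calc _ ≤ E ^ 2 * M * (E ^ 51 * (z / X) * b * τ) := by gcongr
        _ = _ := by ring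
    calc _ = Cc * Cd * C3 * (E ^ 2 * M + E ^ 2 * M * (E ^ 51 * X ^ (ε - 1) * b * τ)) := by
          rw [hK]; ring
      _ ≤ Cc * Cd * C3 * (z * τ * ((E ^ 2 + q) * n) + z * τ * (E ^ 53 * (M / X) * b)) := by
          gcongr
      _ = _ := by ring
  have hb' : C2 * (1 + z * E ^ (-(ka / 2)) * Bd) * τ * n ≤
      C2 * (z * τ * ((E ^ 2 + q) * n + E ^ 53 * (M / X) * b)) := by
    have a1 : 1 + z * q ≤ z * (E ^ 2 + q) := by nlinarith
    calc _ = C2 * (τ * ((1 + z * q) * n + 0)) := by rw [hqd]; ring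
      _ ≤ C2 * (τ * (z * (E ^ 2 + q) * n + z * (E ^ 53 * (M / X) * b))) := by
          gcongr; positivity
      _ = _ := by ring
  calc _ ≤ _ := add_le_add ha hb'
    _ = _ := by ring

end Pool.Agent.P.MP_26a8c3_nt.QB
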