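import Pool.Agent.P.MP_26a8c3_nt.QO.Top
import Pool.Agent.P.MP_26a8c3_nt.QO.Sym

/-! Definitions and interface statements of the bootstrap layer. -/

namespace Pool.Agent.P.MP_26a8c3_nt.QB

open QO QA Finset
open scoped Classical ComplexConjugate

noncomputable section

/-- the exponent of the critical length `X ^ (1 + aa)` -/
def aa : ℝ := 79 / 400

/-- the loss in the bootstrap -/
def ka : ℝ := 1 / 2000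

/-- Gaussian moment bound -/
def ML (F : O → ℂ) (P b : ℝ) : Prop := ∀ s : Finset O, ∑ m ∈ s, G (N m / P) * ‖F m‖ ^ 2 ≤ b

/-- Gaussian moment bound without the zero term -/
def ML0 (F : O → ℂ) (P b : ℝ) : Prop :=
  ∀ s : Finset O, 0 ∉ s → ∑ m ∈ s, G (N m / P) * ‖F m‖ ^ 2 ≤ b

/-- the normaliser -/
def Nm (Z M X : ℝ) : ℝ := (M + X ^ (1 + aa)) * X ^ (1 + ka) * (1 + M / Z ^ 2) ^ 10

/-- the bootstrap hypothesis -/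
def Hyp (Q : O) (Z Bd : ℝ) : Prop :=
  ∀ ν, IsNu Q ν → ∀ M X t : ℝ, 0 < M → 0 < X → X ≤ Z →
    ML (fun m => A ν 1 m X t) M (Bd * (1 + |t|) ^ 16 * Nm Z M X)

/-- bounded coefficients vanishing at zero -/
def Bd1 (u : O → ℂ) : Prop := u 0 = 0 ∧ ∀ c, ‖u c‖ ≤ 1

/-- the symbol of the quotient -/
def ps (e c m : O) : ℂ := if e ∣ c then psi (quo c e) m else 0

/-- Moebius side coefficient without the symbol -/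
def al (ν : O → ℂ) (c : O) : ℂ := if SQ c then mu c * ν c else 0

/-- common primary divisors -/
def cd (a b : O) : Finset O := (pdiv a).filter (· ∣ b)

/-- the double sum with the dual Gaussian kernel -/
def KD (u : O → ℂ) (X t β : ℝ) : ℂ :=
  ∑' x : O × O, u x.1 * W X t (nr x.1) / (ab x.1 : ℂ) * conj (u x.2 * W X t (nr x.2) / (ab x.2 : ℂ)) *
    (G (β / (nr x.1 * nr x.2)) : ℝ)

/-- head term -/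
def HH (ν : O → ℂ) (e m : O) (X t : ℝ) : ℂ :=
  ∑' x : O × O, al ν x.1 * W X t (nr x.1) * conj (al ν x.2 * W X t (nr x.2)) *
    (if e ∣ x.1 ∧ e ∣ x.2 then KK (quo x.1 e) (quo x.2 e) m else 0)

/-- tail term -/
def RR (ν κ : O → ℂ) (m : O) (X t : ℝ) : ℂ :=
  ∑' x : O × O, al ν x.1 * W X t (nr x.1) * conj (al ν x.2 * W X t (nr x.2)) *
    ∑ e ∈ cd x.1 x.2, κ e * jj e m * (psi (quo x.1 e) m * conj (psi (quo x.2 e) m))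

/-- moment bound on the theta side, for scales between `X / y` and `exp 7 * X` -/
def SB (Q : O) (X y b : ℝ) : Prop :=
  ∀ ν, IsNu Q ν → ∀ z X₁ t : ℝ, 1 ≤ z → X / y ≤ X₁ → X₁ ≤ Real.exp 7 * X →
    ML0 (fun h => B ν h X₁ t) (z * X ^ (1 - aa)) (b * z ^ 5 * (1 + |t|) ^ 16)

end

/-- counting and multiplicativity facts -/
structure Base : Prop where
  cnt : ∃ C : ℝ, 0 < C ∧ ∀ (Y : ℝ) (s : Finset O), 0 < Y → (∀ m ∈ s, m ≠ 0 ∧ (N m : ℝ) ≤ Y) →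
    (s.card : ℝ) ≤ C * Y
  cntP : ∃ c : ℝ, 0 < c ∧ ∀ Y : ℝ, 1 ≤ Y → c * Y ≤ (((ball Y).filter Primary).card : ℝ)
  gau : ∃ C : ℝ, 0 < C ∧ ∀ (U : ℝ) (s : Finset O), 0 < U → ∑ m ∈ s, G (N m / U) ≤ C * (1 + U)
  dvb : ∀ ε : ℝ, 0 < ε → ∃ C : ℝ, 0 < C ∧ ∀ c : O, c ≠ 0 → dv c ≤ C * (N c : ℝ) ^ ε
  dv_mul : ∀ a b : O, Primary a → Primary b → dv (a * b) ≤ dv a * dv b
  dv_prime : ∀ p r : O, Prime p → Primary p → Primary r → ¬ p ∣ r → dv (p * r) = 2 * dv r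
  mu_sum : ∀ c : O, Primary c → ∑ d ∈ pdiv c, mu d = if c = 1 then 1 else 0
  jj_mul : ∀ a b m : O, SQ a → SQ b → IsCoprime a b → jj (a * b) m = jj a m * jj b m
  nu : ∀ (Q : O) (ν : O → ℂ) (k : O), 36 ∣ Q → IsNu Q ν → k ∈ cls →
    IsNu Q (fun c => ν c * xi k c * conj (chi c 2)) ∧ IsNu Q fun c => ν c * xi k c * chi c 2

/-- the form of the Voronoi bound used here -/
def S_V2 (Q : O) : Prop :=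
  ∀ ε : ℝ, 0 < ε → ∃ C : ℝ, 0 < C ∧ ∀ ν, IsNu Q ν → ∀ X y z X₁ t : ℝ, 1 ≤ X → 1 ≤ y → 1 ≤ z →
    X / y ≤ X₁ → X₁ ≤ Real.exp 7 * X →
      ML0 (fun h => Bs ν h X₁ t) (z * X ^ (1 - aa))
        (C * (1 + |t|) ^ 16 * X ^ (2 + ε) * z ^ 5 * y ^ 4)

/-- reindexing and the one prime recursion -/
def S_Rx : Prop :=
  (∀ (Q : O) (ν : O → ℂ) (e m : O) (X t : ℝ), IsNu Q ν → SQ e → 0 < X →
    ‖Wsum (fun c => al ν c * ps e c m) X t‖ ≤ ‖A ν e m (X / N e) t‖) ∧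
  (∀ (Q : O) (ν : O → ℂ) (p r m : O) (X t : ℝ), IsNu Q ν → Prime p → Primary p → ¬ p ∣ r → 0 < X →
    ∃ z : ℂ, ‖z‖ ≤ 1 ∧ A ν r m X t = A ν (p * r) m X t + z * A ν (p * r) m (X / N p) t) ∧
  ∀ (Q : O) (ν : O → ℂ) (k : O) (X t : ℝ), IsNu Q ν → Primary k → 0 < X →
    ‖A ν 1 1 X t‖ ≤ ∑ d ∈ pdiv k, ‖A ν 1 (k ^ 6) (X / N d) t‖

/-- removal of a coprimality condition -/
def S_Cop : Prop :=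
  ∀ (Q : O) (ν : O → ℂ) (s : Finset O) (wt : O → ℝ) (X₀ t β : ℝ), IsNu Q ν → (∀ m ∈ s, 0 ≤ wt m) →
    0 ≤ β → (∀ ξ : ℝ, 0 < ξ → ξ ≤ X₀ → ∑ m ∈ s, wt m * ‖A ν 1 m ξ t‖ ^ 2 ≤ β * ξ ^ (1 + ka)) →
    ∀ r : O, SQ r → ∀ ξ : ℝ, 0 < ξ → ξ ≤ X₀ →
      ∑ m ∈ s, wt m * ‖A ν r m ξ t‖ ^ 2 ≤ dv r ^ 2 * β * ξ ^ (1 + ka)

/-- maximal inequality in the scale -/
def S_Max : Prop :=
  ∃ C : ℝ, 0 < C ∧ ∀ (s : Finset (O × O)) (wt ξ : O × O → ℝ) (u : O × O → O → ℂ) (X₀ t β : ℝ),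
    0 < X₀ → 0 ≤ β → (∀ j ∈ s, 0 ≤ wt j ∧ 0 < ξ j ∧ ξ j ≤ X₀ ∧ Bd1 (u j)) →
    (∀ X' t' : ℝ, 0 < X' → X' ≤ Real.exp 2 * X₀ → |t' - t| ≤ 4 →
      ∑ j ∈ s, wt j * ‖Wsum (u j) X' t'‖ ^ 2 ≤ β * X' ^ (1 + ka)) →
    ∑ j ∈ s, wt j * (ξ j)⁻¹ * ‖Wsum (u j) (ξ j) t‖ ^ 2 ≤ C * β * X₀ ^ ka

/-- separation of variables in the dual sum -/
def S_DL : Prop :=
  ∀ ε : ℝ, 0 < ε → ∃ C : ℝ, 0 < C ∧ ∀ (s : Finset (O × O)) (ω n : O × O → ℝ) (u : O × O → O → ℂ)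
    (X t P V b : ℝ), 0 < X → 0 < P → 0 < V → X ^ 2 ≤ P * V → 0 ≤ b →
    (∀ h ∈ s, 0 ≤ ω h ∧ 1 ≤ n h ∧ Bd1 (u h)) →
    (∀ y X' t' : ℝ, V ≤ y → Real.exp (-1) * X ≤ X' → X' ≤ Real.exp 7 * X →
      ∑ h ∈ s.filter (fun h => n h ≤ y), ω h * ‖Wsum (u h) X' t'‖ ^ 2 ≤
        b * (y / V) ^ 12 * (1 + |t'|) ^ 16) →
    ∑ h ∈ s, ω h * ‖KD (u h) X t (P * n h)‖ ≤ C * (1 + V) ^ ε * X⁻¹ * b * (1 + |t|) ^ 16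

/-- the tail sum -/
def S_Tail : Prop :=
  ∃ C : ℝ, 0 < C ∧ ∀ (Q : O) (ν : O → ℂ) (s T : Finset O) (wt : O → ℝ) (X t E β : ℝ), IsNu Q ν →
    0 < X → 1 ≤ E → 0 ≤ β → (∀ m ∈ s, m ≠ 0 ∧ 0 ≤ wt m) → (∀ e ∈ T, SQ e ∧ E ≤ (N e : ℝ)) →
    (∀ ξ t' : ℝ, 0 < ξ → ξ ≤ Real.exp 2 * X / E → |t' - t| ≤ 4 →
      ∑ m ∈ s, wt m * dv m ^ 2 * ‖A ν 1 m ξ t'‖ ^ 2 ≤ β * ξ ^ (1 + ka)) →
    ∑ m ∈ s, ∑ e ∈ T, wt m * (dv e * ‖jj e m‖) * ‖A ν e m (X / N e) t‖ ^ 2 ≤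
      C * β * X ^ (1 + ka) * E ^ (-(ka / 2))

/-- splitting the moment into head and tail -/
def S_Split : Prop :=
  ∀ E : ℝ, ∃ κ : O → ℂ, (∀ e, SQ e → ‖κ e‖ ≤ dv e) ∧ (∀ e, (N e : ℝ) ≤ E → κ e = 0) ∧
    ∀ (Q : O) (ν : O → ℂ) (m : O) (X t : ℝ), IsNu Q ν → 0 < X →
      ((‖A ν 1 m X t‖ ^ 2 : ℝ) : ℂ) =
        ∑ e ∈ (ball E).filter SQ, jj e m * HH ν e m X t + RR ν κ m X t

/-- transfer of a Poisson identity through a double sum -/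
def S_PT : Prop :=
  ∀ (α : O → ℂ) (K₁ K₂ : O → O → O → ℂ) (φ : O → O → ℂ) (P b : ℝ), 0 < P → α 0 = 0 →
    (Summable fun c : O => ‖α c‖ * (N c : ℝ) ^ 3) →
    (∀ a c m, α a ≠ 0 → α c ≠ 0 → ‖K₁ a c m‖ ≤ N a ∧ ‖K₂ a c m‖ ≤ N a ∧ ‖φ a c‖ ≤ 1) →
    (∀ a c, α a ≠ 0 → α c ≠ 0 → ∑' m : O, K₁ a c m * (G (N m / P) : ℝ) =
      (P / (ab a * ab c) : ℝ) * φ a c * ∑' h : O, K₂ a c h * (G (P * N h / (N a * N c)) : ℝ)) →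
    ∀ D : O → ℂ, (∀ h, D h = ∑' x : O × O, α x.1 / (ab x.1 : ℂ) * conj (α x.2 / (ab x.2 : ℂ)) *
      φ x.1 x.2 * K₂ x.1 x.2 h * (G (P * N h / (N x.1 * N x.2)) : ℝ)) →
    (∀ s : Finset O, 0 ∉ s → ∑ h ∈ s, ‖D h‖ ≤ b) →
    (Summable fun m : O =>
      ((G (N m / P) : ℝ) : ℂ) * ∑' x : O × O, α x.1 * conj (α x.2) * K₁ x.1 x.2 m) ∧
    ‖∑' m : O, ((G (N m / P) : ℝ) : ℂ) * ∑' x : O × O, α x.1 * conj (α x.2) * K₁ x.1 x.2 m‖ ≤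
      P * (‖D 0‖ + b)

/-- pulling the common divisor out of a double sum -/
def S_SW : Prop :=
  ∀ (s : Finset O) (wt : O → ℝ) (F : O → O × O → ℂ) (κ : O → O → ℂ) (K b : ℝ),
    (∀ m ∈ s, 0 ≤ wt m) → (∀ m ∈ s, Summable fun x : O × O => ‖F m x‖ * (N x.1 : ℝ) ^ 4) →
    (∀ m ∈ s, ∀ x, F m x ≠ 0 → SQ x.1 ∧ SQ x.2) →
    (∀ m ∈ s, ∀ e, SQ e → ‖κ m e‖ ≤ K * (N e : ℝ) ^ 3) →
    (∀ T : Finset O, (∀ e ∈ T, SQ e) → ∑ m ∈ s, ∑ e ∈ T,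
      wt m * ‖κ m e‖ * ‖∑' x : O × O, F m x * (ps e x.1 m * conj (ps e x.2 m))‖ ≤ b) →
    ∑ m ∈ s, wt m * ‖∑' x : O × O, F m x *
      ∑ e ∈ cd x.1 x.2, κ m e * (psi (quo x.1 e) m * conj (psi (quo x.2 e) m))‖ ≤ b

/-- the tail of the first step -/
def S_ITail : Prop :=
  ∀ ε : ℝ, 0 < ε → ∃ C : ℝ, 0 < C ∧ ∀ (Q : O) (ν κ : O → ℂ) (Z Bd E M X t : ℝ) (s : Finset O),
    IsNu Q ν → Hyp Q Z Bd → 1 ≤ Bd → Real.exp 2 ≤ E → 1 ≤ X → X ≤ Z → X ^ (1 + aa) ≤ M →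
    M ≤ Z ^ 3 → (∀ e, SQ e → ‖κ e‖ ≤ dv e) → (∀ e, (N e : ℝ) ≤ E → κ e = 0) →
    ∑ m ∈ s, G (N m / M) * ‖RR ν κ m X t‖ ≤
      C * (1 + Z ^ ε * E ^ (-(ka / 2)) * Bd) * (1 + |t|) ^ 16 * Nm Z M X

/-- the head of the first step, one pair `f ∣ e` -/
def S_Head : Prop :=
  ∀ ε : ℝ, 0 < ε → ∃ C : ℝ, 0 < C ∧ ∀ (Q : O) (ν : O → ℂ) (e f : O) (E M X t b : ℝ), 36 ∣ Q →
    IsNu Q ν → SQ e → f ∈ pdiv e → (N e : ℝ) ≤ E → 1 ≤ X → X ^ (1 + aa) ≤ M → 0 ≤ b →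
    SB Q X (3 * E) b →
    (Summable fun m : O => ((G (N m / (M / (N f : ℝ) ^ 2)) : ℝ) : ℂ) * HH ν e (f ^ 2 * m) X t) ∧
    ‖∑' m : O, ((G (N m / (M / (N f : ℝ) ^ 2)) : ℝ) : ℂ) * HH ν e (f ^ 2 * m) X t‖ ≤
      C * (M / (N f : ℝ) ^ 2) * (1 + E ^ 51 * X ^ (ε - 1) * b * (1 + |t|) ^ 16)

/-- the first step -/
def S_I : Prop :=
  ∀ ε : ℝ, 0 < ε → ∃ C : ℝ, 0 < C ∧ ∀ (Q : O) (ν : O → ℂ) (Z Bd E M X t b : ℝ), 36 ∣ Q →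
    IsNu Q ν → Hyp Q Z Bd → 1 ≤ Bd → Real.exp 2 ≤ E → 1 ≤ X → X ≤ Z → X ^ (1 + aa) ≤ M →
    M ≤ Z ^ 3 → 0 ≤ b → SB Q X (3 * E) b →
    ML (fun m => A ν 1 m X t) M
      (C * Z ^ ε * (1 + |t|) ^ 16 *
        ((E ^ 2 + E ^ (-(ka / 2)) * Bd) * Nm Z M X + E ^ 53 * (M / X) * b))

/-- truncated removal of the cubes, pointwise -/
def S_Cube1 : Prop :=
  ∀ (Q : O) (ν : O → ℂ) (h : O) (X t D : ℝ), IsNu Q ν → 0 < X → 1 ≤ D →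
    (Summable fun d : O => if Primary d ∧ D < (N d : ℝ) then
      dv d * ab d * ‖B ν h (X / (N d : ℝ) ^ 3) t‖ else 0) ∧
    ‖B ν h X t‖ ≤ ∑ d ∈ (ball D).filter Primary, ab d * ‖Bs ν h (X / (N d : ℝ) ^ 3) t‖ +
      ∑' d : O, if Primary d ∧ D < (N d : ℝ) then
        dv d * ab d * ‖B ν h (X / (N d : ℝ) ^ 3) t‖ else 0

/-- truncated removal of the cubes, moments -/
def S_Cube2 : Prop :=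
  ∃ C : ℝ, 0 < C ∧ ∀ (Q : O) (ν : O → ℂ) (P X t D b₁ b₂ : ℝ), IsNu Q ν → 0 < X → 1 ≤ D → 0 ≤ b₁ →
    0 ≤ b₂ →
    (∀ d, Primary d → (N d : ℝ) ≤ D → ML0 (fun h => Bs ν h (X / (N d : ℝ) ^ 3) t) P b₁) →
    (∀ d, Primary d → D < (N d : ℝ) →
      ML0 (fun h => B ν h (X / (N d : ℝ) ^ 3) t) P (b₂ * (N d : ℝ) ^ (-(3 * (1 + aa))))) →
    ML0 (fun h => B ν h X t) P (C * (D ^ 3 * b₁ + D ^ (-(1 / 2 : ℝ)) * b₂))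

/-- Poisson summation back to the Moebius side -/
def S_IIIa : Prop :=
  ∃ C : ℝ, 0 < C ∧ ∀ (Q : O) (ν : O → ℂ) (P X t b : ℝ), 36 ∣ Q → IsNu Q ν → 0 < P → 0 < X →
    (∀ ν', IsNu Q ν' → ∀ s T : Finset O, 0 ∉ s → (∀ e ∈ T, SQ e) → ∑ m ∈ s, ∑ e ∈ T,
      ‖jj e m‖ * ‖KD (fun c => al ν' c * ps e c m) X t (P * N m)‖ ≤ b) →
    ML (fun h => B ν h X t) P (C * P * (X ^ (1 + aa + ka) + b))

/-- the dual sums on the Moebius side -/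
def S_IIIb : Prop :=
  ∀ ε : ℝ, 0 < ε → ∃ C : ℝ, 0 < C ∧ ∀ (Q : O) (ν : O → ℂ) (Z Bd P X t : ℝ) (s T : Finset O),
    IsNu Q ν → Hyp Q Z Bd → 0 ≤ Bd → 1 ≤ Z → 1 ≤ P → 0 < X → Real.exp 9 * X ≤ Z → 0 ∉ s →
    (∀ e ∈ T, SQ e) →
    ∑ m ∈ s, ∑ e ∈ T, ‖jj e m‖ * ‖KD (fun c => al ν c * ps e c m) X t (P * N m)‖ ≤
      C * Z ^ ε * Bd * (1 + |t|) ^ 16 * ((X ^ 2 / P + X ^ (1 + aa)) * X ^ ka)

/-- the moment bound on the theta side -/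
def S_SB (Q : O) : Prop :=
  ∀ ε : ℝ, 0 < ε → ∃ C : ℝ, 0 < C ∧ ∀ Z Bd X y D : ℝ, Hyp Q Z Bd → 1 ≤ Bd → 1 ≤ X → X ≤ Z →
    1 ≤ y → Real.exp 6 ≤ D →
    SB Q X y (C * Z ^ ε * (y ^ 4 * D ^ 15 * X ^ 2 + D ^ (-(1 / 2 : ℝ)) * Bd * X ^ (2 + ka)))

/-- the trivial bounds -/
def S_Triv : Prop :=
  ∃ C : ℝ, 1 ≤ C ∧ ∀ (Q : O) (ν : O → ℂ) (Z M X t : ℝ), IsNu Q ν → 1 ≤ Z → 0 < M → 0 < X → X ≤ Z →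
    ML (fun m => A ν 1 m X t) M (C * Z ^ 3 * Nm Z M X) ∧
    (X ≤ 1 ∨ Z ^ 3 ≤ M → ML (fun m => A ν 1 m X t) M (C * Nm Z M X))

/-- the result of the bootstrap -/
def S_Boot (Q : O) : Prop := ∃ C Z₀ : ℝ, 0 < C ∧ ∀ Z : ℝ, Z₀ ≤ Z → Hyp Q Z (C * Z ^ ka)

/-- the power saving bound -/
def S_Out (Q : O) : Prop :=
  ∀ ν, IsNu Q ν → ∃ C : ℝ, ∀ X : ℝ, 1 ≤ X → ‖A ν 1 1 X 0‖ ≤ C * X ^ (1999 / 2000 : ℝ)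

end Pool.Agent.P.MP_26a8c3_nt.QB
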